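import Pool.Agent.MP_6cbfb8_an.Defs

/-!
Wronskians of polynomials on the unit sphere: they depend only on the values on the sphere, they
vanish only for proportional polynomials, and they are bounded below by compactness.
-/

set_option autoImplicit false

namespace Pool.Agent.VANn.RAT.WR

open MeasureTheory Set MvPolynomial Pool.Agent.MP_6cbfb8_an Filter Topology
open scoped Real RealInnerProductSpace

variable {n : ℕ}

/-- the value of a polynomial -/
noncomputable def e0 (q : MvPolynomial (Fin n) ℝ) (x : E n) : ℝ := eval (fun i => x i) q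

/-- the derivative along the rotation in the plane of the coordinates `i`, `j` -/
noncomputable def Z0 (i j : Fin n) (P : MvPolynomial (Fin n) ℝ) : MvPolynomial (Fin n) ℝ :=
  X i * pderiv j P - X j * pderiv i P

/-- the Wronskian -/
noncomputable def W0 (i j : Fin n) (P Q : MvPolynomial (Fin n) ℝ) : MvPolynomial (Fin n) ℝ :=
  Z0 i j P * Q - P * Z0 i j Q

lemma e0_Z0 (i j : Fin n) (P : MvPolynomial (Fin n) ℝ) (x : E n) :
    e0 (Z0 i j P) x = x i * e0 (pderiv j P) x - x j * e0 (pderiv i P) x := by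
  simp [e0, Z0]

lemma e0_W0 (i j : Fin n) (P Q : MvPolynomial (Fin n) ℝ) (x : E n) :
    e0 (W0 i j P Q) x = e0 (Z0 i j P) x * e0 Q x - e0 P x * e0 (Z0 i j Q) x := by
  simp [e0, W0]

/-- the derivative along a curve -/
lemma deriv_curve (P : MvPolynomial (Fin n) ℝ) (γ : ℝ → E n) (v : Fin n → ℝ) (θ : ℝ)
    (h : ∀ j, HasDerivAt (fun s => γ s j) (v j) θ) :
    HasDerivAt (fun s => e0 P (γ s)) (∑ k, v k * e0 (pderiv k P) (γ θ)) θ := by
  induction P using MvPolynomial.induction_on with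
  | C a =>
    simp only [e0, pderiv_C, map_zero, mul_zero, Finset.sum_const_zero, eval_C]
    exact hasDerivAt_const _ _
  | add P Q hP hQ =>
    have h1 := hP.add hQ
    refine (h1.congr_deriv ?_).congr_of_eventuallyEq (Filter.Eventually.of_forall fun s => ?_)
    · rw [← Finset.sum_add_distrib]
      refine Finset.sum_congr rfl fun k _ => ?_
      simp only [e0, map_add]
      ring
    · simp only [e0, map_add, Pi.add_apply]
  | mul_X P j hP =>
    have h1 := hP.mul (h j)
    refine (h1.congr_deriv ?_).congr_of_eventuallyEq (Filter.Eventually.of_forall fun s => ?_)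
    · have h2 : ∀ k, v k * e0 (pderiv k (P * X j)) (γ θ) =
          (v k * e0 (pderiv k P) (γ θ)) * γ θ j + (if j = k then e0 P (γ θ) * v k else 0) := by
        intro k
        rw [Derivation.leibniz, pderiv_X]
        simp only [e0, smul_eq_mul, map_add, map_mul, eval_X, Pi.single_apply]
        split_ifs with hk
        · simp only [map_one]; ring
        · simp only [map_zero]; ring
      rw [Finset.sum_congr rfl fun k _ => h2 k, Finset.sum_add_distrib, ← Finset.sum_mul]
      simp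
    · simp only [e0, map_mul, eval_X, Pi.mul_apply]

/-- great circles -/
noncomputable def gc (x u : E n) (θ : ℝ) : E n := Real.cos θ • x + Real.sin θ • u

lemma gc_norm {x u : E n} (hx : ‖x‖ = 1) (hu : ‖u‖ = 1) (h : ⟪x, u⟫ = 0) (θ : ℝ) :
    ‖gc x u θ‖ = 1 := by
  have h1 : ‖gc x u θ‖ ^ 2 = 1 := by
    rw [gc, @norm_add_sq_real, norm_smul, norm_smul, real_inner_smul_left, real_inner_smul_right, h,
      hx, hu, mul_one, mul_one, Real.norm_eq_abs, Real.norm_eq_abs, sq_abs, sq_abs]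
    have := Real.cos_sq_add_sin_sq θ
    linarith
  have h2 : 0 ≤ ‖gc x u θ‖ := norm_nonneg _
  nlinarith

lemma gc_deriv (x u : E n) (θ : ℝ) (j : Fin n) :
    HasDerivAt (fun s => gc x u s j) (-Real.sin θ * x j + Real.cos θ * u j) θ := by
  have h1 : HasDerivAt (fun s => Real.cos s * x j + Real.sin s * u j)
      (-Real.sin θ * x j + Real.cos θ * u j) θ :=
    ((Real.hasDerivAt_cos θ).mul_const _).add ((Real.hasDerivAt_sin θ).mul_const _)
  exact h1

lemma inner_eq_sum (x y : E n) : ⟪x, y⟫ = ∑ i, x i * y i := by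
  rw [PiLp.inner_apply]
  refine Finset.sum_congr rfl fun i _ => ?_
  simp [mul_comm]

/-- the derivative along a great circle is a combination of the rotation derivatives -/
lemma deriv_gc (P : MvPolynomial (Fin n) ℝ) {x u : E n} (hx : ‖x‖ = 1) (hu : ‖u‖ = 1)
    (h : ⟪x, u⟫ = 0) (θ : ℝ) :
    HasDerivAt (fun s => e0 P (gc x u s))
      (∑ i, ∑ j, x i * u j * e0 (Z0 i j P) (gc x u θ)) θ := by
  refine (deriv_curve P (gc x u) _ θ (gc_deriv x u θ)).congr_deriv ?_
  have h1 : ∑ i, x i * gc x u θ i = Real.cos θ := by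
    rw [← inner_eq_sum, gc, inner_add_right, real_inner_smul_right, real_inner_smul_right, h,
      real_inner_self_eq_norm_sq, hx]
    ring
  have h2 : ∑ j, u j * gc x u θ j = Real.sin θ := by
    rw [← inner_eq_sum, gc, inner_add_right, real_inner_smul_right, real_inner_smul_right,
      real_inner_comm, h, real_inner_self_eq_norm_sq, hu]
    ring
  have h3 : ∑ i, ∑ j, x i * u j * e0 (Z0 i j P) (gc x u θ) =
      (∑ i, x i * gc x u θ i) * (∑ j, u j * e0 (pderiv j P) (gc x u θ)) -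
      (∑ j, u j * gc x u θ j) * (∑ i, x i * e0 (pderiv i P) (gc x u θ)) := by
    rw [Finset.sum_mul_sum, Finset.sum_mul_sum]
    rw [Finset.sum_comm (f := fun j i => u j * gc x u θ j * (x i * e0 (pderiv i P) (gc x u θ)))]
    rw [← Finset.sum_sub_distrib]
    refine Finset.sum_congr rfl fun i _ => ?_
    rw [← Finset.sum_sub_distrib]
    refine Finset.sum_congr rfl fun j _ => ?_
    rw [e0_Z0]
    ring
  rw [h3, h1, h2, Finset.mul_sum, Finset.mul_sum, ← Finset.sum_sub_distrib]
  refine Finset.sum_congr rfl fun k _ => ?_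
  ring

/-- the rotation derivative depends only on the values on the sphere -/
lemma Z0_zero {P : MvPolynomial (Fin n) ℝ} (h : ∀ x : E n, ‖x‖ = 1 → e0 P x = 0) (i j : Fin n)
    {x : E n} (hx : ‖x‖ = 1) : e0 (Z0 i j P) x = 0 := by
  by_cases hij : i = j
  · subst hij
    rw [e0_Z0]
    ring
  set w : E n := x i • EuclideanSpace.single j (1 : ℝ) - x j • EuclideanSpace.single i (1 : ℝ) with hw
  have hwk : ∀ k, w k = x i * (if k = j then 1 else 0) - x j * (if k = i then 1 else 0) := by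
    intro k
    simp [hw]
  have hsum : ∑ k, w k * e0 (pderiv k P) x = e0 (Z0 i j P) x := by
    rw [e0_Z0]
    simp only [hwk, sub_mul, mul_assoc, Finset.sum_sub_distrib, ite_mul, one_mul, zero_mul, mul_ite,
      mul_zero, Finset.sum_ite_eq', Finset.mem_univ, if_true]
  rw [← hsum]
  by_cases hw0 : w = 0
  · simp [hw0]
  have hwn : ‖w‖ ≠ 0 := norm_ne_zero_iff.2 hw0
  set u : E n := ‖w‖⁻¹ • w with hu
  have hu1 : ‖u‖ = 1 := by
    rw [hu, norm_smul, norm_inv, norm_norm, inv_mul_cancel₀ hwn]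
  have hxw : ⟪x, w⟫ = 0 := by
    rw [inner_eq_sum]
    simp only [hwk, mul_sub, Finset.sum_sub_distrib, mul_ite, mul_one, mul_zero,
      Finset.sum_ite_eq', Finset.mem_univ, if_true]
    ring
  have hxu : ⟪x, u⟫ = 0 := by rw [hu, real_inner_smul_right, hxw, mul_zero]
  have h1 := deriv_curve P (gc x u) _ 0 (gc_deriv x u 0)
  have h2 : (fun s => e0 P (gc x u s)) = fun _ => (0 : ℝ) := by
    funext s
    exact h _ (gc_norm hx hu1 hxu s)
  rw [h2] at h1
  have h3 := h1.unique (hasDerivAt_const (0 : ℝ) (0 : ℝ))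
  have h4 : gc x u 0 = x := by simp [gc]
  rw [h4] at h3
  simp only [Real.sin_zero, Real.cos_zero, neg_zero, zero_mul, zero_add, one_mul] at h3
  have h5 : ∀ k, w k = ‖w‖ * u k := by
    intro k
    rw [hu, PiLp.smul_apply, smul_eq_mul, ← mul_assoc, mul_inv_cancel₀ hwn, one_mul]
  simp only [h5, mul_assoc]
  rw [← Finset.mul_sum, h3, mul_zero]

lemma Z0_congr {P P' : MvPolynomial (Fin n) ℝ} (h : ∀ x : E n, ‖x‖ = 1 → e0 P x = e0 P' x)
    (i j : Fin n) {x : E n} (hx : ‖x‖ = 1) : e0 (Z0 i j P) x = e0 (Z0 i j P') x := by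
  have h1 : ∀ x : E n, ‖x‖ = 1 → e0 (P - P') x = 0 := by
    intro y hy
    have := h y hy
    simp only [e0, map_sub] at this ⊢
    linarith
  have h2 := Z0_zero h1 i j hx
  rw [e0_Z0] at h2
  rw [e0_Z0, e0_Z0]
  simp only [e0, map_sub] at h2 ⊢
  linarith

lemma W0_congr {A A' B B' : MvPolynomial (Fin n) ℝ} (hA : ∀ x : E n, ‖x‖ = 1 → e0 A x = e0 A' x)
    (hB : ∀ x : E n, ‖x‖ = 1 → e0 B x = e0 B' x) (i j : Fin n) {x : E n} (hx : ‖x‖ = 1) :
    e0 (W0 i j A B) x = e0 (W0 i j A' B') x := by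
  rw [e0_W0, e0_W0, Z0_congr hA i j hx, Z0_congr hB i j hx, hA x hx, hB x hx]

/-- every point of the sphere is on a great circle through a given point -/
lemma exists_gc (hn : 2 ≤ n) {x y : E n} (hx : ‖x‖ = 1) (hy : ‖y‖ = 1) :
    ∃ (u : E n) (θ : ℝ), ‖u‖ = 1 ∧ ⟪x, u⟫ = 0 ∧ y = gc x u θ := by
  set c : ℝ := ⟪x, y⟫ with hc
  set w : E n := y - c • x with hw
  have hxw : ⟪x, w⟫ = 0 := by
    rw [hw, inner_sub_right, real_inner_smul_right, real_inner_self_eq_norm_sq, hx, ← hc]
    ring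
  have hwsq : ‖w‖ ^ 2 = 1 - c ^ 2 := by
    rw [hw, @norm_sub_sq_real, real_inner_smul_right, real_inner_comm, ← hc, norm_smul, hx, hy,
      Real.norm_eq_abs, mul_one, sq_abs]
    ring
  have hc1 : |c| ≤ 1 := by
    have := abs_real_inner_le_norm x y
    rwa [hx, hy, mul_one] at this
  rw [abs_le] at hc1
  have hsin : Real.sin (Real.arccos c) = ‖w‖ := by
    rw [Real.sin_arccos, ← hwsq, Real.sqrt_sq (norm_nonneg _)]
  have hcos : Real.cos (Real.arccos c) = c := Real.cos_arccos hc1.1 hc1.2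
  by_cases hw0 : w = 0
  · -- any orthogonal unit vector
    have h1 : ∃ u : E n, ‖u‖ = 1 ∧ ⟪x, u⟫ = 0 := by
      have h2 : 1 < Module.finrank ℝ (E n) := by
        rw [finrank_euclideanSpace, Fintype.card_fin]; omega
      have h3 : (ℝ ∙ x)ᗮ ≠ ⊥ := by
        intro h4
        have h5 := Submodule.finrank_add_finrank_orthogonal (ℝ ∙ x)
        rw [h4, finrank_bot, add_zero] at h5
        have h6 := finrank_span_le_card (R := ℝ) ({x} : Set (E n))
        simp only [toFinset_singleton, Finset.card_singleton] at h6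
        omega
      obtain ⟨v, hv, hv0⟩ := Submodule.exists_mem_ne_zero_of_ne_bot h3
      have h4 : ⟪x, v⟫ = 0 := (Submodule.mem_orthogonal_singleton_iff_inner_right).1 hv
      refine ⟨‖v‖⁻¹ • v, ?_, ?_⟩
      · rw [norm_smul, norm_inv, norm_norm, inv_mul_cancel₀ (norm_ne_zero_iff.2 hv0)]
      · rw [real_inner_smul_right, h4, mul_zero]
    obtain ⟨u, hu, hxu⟩ := h1
    refine ⟨u, Real.arccos c, hu, hxu, ?_⟩
    rw [gc, hcos, hsin, hw0, norm_zero, zero_smul, add_zero]
    exact sub_eq_zero.1 (hw ▸ hw0)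
  · have hwn : ‖w‖ ≠ 0 := norm_ne_zero_iff.2 hw0
    refine ⟨‖w‖⁻¹ • w, Real.arccos c, ?_, ?_, ?_⟩
    · rw [norm_smul, norm_inv, norm_norm, inv_mul_cancel₀ hwn]
    · rw [real_inner_smul_right, hxw, mul_zero]
    · rw [gc, hcos, hsin, smul_smul, mul_inv_cancel₀ hwn, one_smul, hw]
      abel

lemma e0_gc_analytic (P : MvPolynomial (Fin n) ℝ) (x u : E n) :
    AnalyticOnNhd ℝ (fun θ => e0 P (gc x u θ)) univ := by
  intro θ _
  induction P using MvPolynomial.induction_on with
  | C a =>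
    simp only [e0, eval_C]
    exact analyticAt_const
  | add P Q hP hQ =>
    have : (fun θ => e0 (P + Q) (gc x u θ)) =
        fun θ => e0 P (gc x u θ) + e0 Q (gc x u θ) := by
      funext s; simp [e0]
    rw [this]
    exact hP.add hQ
  | mul_X P j hP =>
    have : (fun θ => e0 (P * X j) (gc x u θ)) =
        fun θ => e0 P (gc x u θ) * (Real.cos θ * x j + Real.sin θ * u j) := by
      funext s; simp [e0, gc]
    rw [this]
    refine hP.mul ?_
    exact (Real.analyticAt_cos.mul analyticAt_const).add (Real.analyticAt_sin.mul analyticAt_const)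

/-- if all Wronskians vanish on the sphere then the polynomials are proportional on the sphere -/
theorem prop_of_wr (hn : 2 ≤ n) {A B : MvPolynomial (Fin n) ℝ}
    (h : ∀ i j, ∀ x : E n, ‖x‖ = 1 → e0 (W0 i j A B) x = 0) {x1 : E n} (hx1 : ‖x1‖ = 1)
    (hB : e0 B x1 ≠ 0) : ∃ t : ℝ, ∀ y : E n, ‖y‖ = 1 → e0 A y = t * e0 B y := by
  refine ⟨e0 A x1 / e0 B x1, fun y hy => ?_⟩
  obtain ⟨u, θ, hu, hxu, hyθ⟩ := exists_gc hn hx1 hy
  set f : ℝ → ℝ := fun s => e0 A (gc x1 u s) with hf
  set g : ℝ → ℝ := fun s => e0 B (gc x1 u s) with hg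
  have hf1 : ∀ s, HasDerivAt f (∑ i, ∑ j, x1 i * u j * e0 (Z0 i j A) (gc x1 u s)) s :=
    fun s => deriv_gc A hx1 hu hxu s
  have hg1 : ∀ s, HasDerivAt g (∑ i, ∑ j, x1 i * u j * e0 (Z0 i j B) (gc x1 u s)) s :=
    fun s => deriv_gc B hx1 hu hxu s
  have hW : ∀ s, (∑ i, ∑ j, x1 i * u j * e0 (Z0 i j A) (gc x1 u s)) * g s -
      f s * (∑ i, ∑ j, x1 i * u j * e0 (Z0 i j B) (gc x1 u s)) = 0 := by
    intro s
    rw [Finset.sum_mul, Finset.mul_sum, ← Finset.sum_sub_distrib]
    refine Finset.sum_eq_zero fun i _ => ?_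
    rw [Finset.sum_mul, Finset.mul_sum, ← Finset.sum_sub_distrib]
    refine Finset.sum_eq_zero fun j _ => ?_
    have h1 := h i j (gc x1 u s) (gc_norm hx1 hu hxu s)
    rw [e0_W0] at h1
    linear_combination x1 i * u j * h1
  have h0 : gc x1 u 0 = x1 := by simp [gc]
  have hg0 : g 0 ≠ 0 := by rw [hg]; beta_reduce; rw [h0]; exact hB
  have hgc : Continuous g := continuous_iff_continuousAt.2 fun s => (hg1 s).continuousAt
  obtain ⟨r, hr, hball⟩ := Metric.isOpen_iff.1 (isOpen_ne_fun hgc continuous_const) 0 hg0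
  have hquot : ∀ s ∈ Metric.ball (0 : ℝ) r, f s / g s = f 0 / g 0 := by
    intro s hs
    have hd : ∀ s ∈ Metric.ball (0 : ℝ) r, HasDerivAt (fun s => f s / g s) 0 s := by
      intro s hs
      have h1 := (hf1 s).div (hg1 s) (hball hs)
      refine h1.congr_deriv ?_
      rw [hW s, zero_div]
    refine IsOpen.is_const_of_deriv_eq_zero Metric.isOpen_ball
      (convex_ball (0 : ℝ) r).isPreconnected
      (fun s hs => (hd s hs).differentiableAt.differentiableWithinAt)
      (fun s hs => (hd s hs).deriv) hs (Metric.mem_ball_self hr)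
  have hev : f =ᶠ[𝓝 0] fun s => e0 A x1 / e0 B x1 * g s := by
    filter_upwards [Metric.ball_mem_nhds (0 : ℝ) hr] with s hs
    have h1 := hquot s hs
    have h2 : f 0 = e0 A x1 := by rw [hf]; beta_reduce; rw [h0]
    have h3 : g 0 = e0 B x1 := by rw [hg]; beta_reduce; rw [h0]
    rw [h2, h3] at h1
    rw [← h1, div_mul_cancel₀ _ (hball hs)]
  have hall : f = fun s => e0 A x1 / e0 B x1 * g s := by
    refine AnalyticOnNhd.eq_of_eventuallyEq (z₀ := 0) (e0_gc_analytic A x1 u) ?_ hev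
    exact analyticOnNhd_const.mul (e0_gc_analytic B x1 u)
  have h2 := congrFun hall θ
  rw [hyθ]
  exact h2

/-! ### Compactness -/

lemma e0_continuous (P : MvPolynomial (Fin n) ℝ) : Continuous (e0 P) := by
  have h1 : Continuous fun x : E n => eval (fun i => x i) P := by
    apply MvPolynomial.continuous_eval P |>.comp
    exact continuous_pi fun i => by fun_prop
  exact h1

/-- restriction to the sphere -/
noncomputable def res (n : ℕ) : MvPolynomial (Fin n) ℝ →ₗ[ℝ] C(S n, ℝ) where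
  toFun P := ⟨fun x => e0 P x, (e0_continuous P).comp continuous_subtype_val⟩
  map_add' P Q := by ext x; simp [e0]
  map_smul' c P := by ext x; simp [e0]

@[simp] lemma res_apply (P : MvPolynomial (Fin n) ℝ) (x : S n) : res n P x = e0 P x := rfl

/-- the linear combinations of the monomials with exponents at most `D` -/
noncomputable def lc (n D : ℕ) : ((Fin n → Fin (D + 1)) → ℝ) →ₗ[ℝ] MvPolynomial (Fin n) ℝ :=
  Fintype.linearCombination ℝ fun a : Fin n → Fin (D + 1) =>
    monomial (Finsupp.equivFunOnFinite.symm fun i => (a i : ℕ)) (1 : ℝ)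

lemma exists_lc {D : ℕ} {P : MvPolynomial (Fin n) ℝ} (hP : P.totalDegree ≤ D) :
    ∃ c, lc n D c = P := by
  classical
  refine ⟨fun a => P.coeff (Finsupp.equivFunOnFinite.symm fun i => (a i : ℕ)), ?_⟩
  rw [lc, Fintype.linearCombination_apply]
  ext m
  rw [coeff_sum]
  simp only [coeff_smul, coeff_monomial, smul_eq_mul, mul_ite, mul_one, mul_zero]
  by_cases hm : ∀ i, m i < D + 1
  · rw [Finset.sum_eq_single (fun i => ⟨m i, hm i⟩)]
    · have h1 : (Finsupp.equivFunOnFinite.symm fun i => m i) = m := by ext i; simp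
      simp only [h1, if_true]
    · intro b _ hb
      rw [if_neg]
      intro h1
      apply hb
      funext i
      apply Fin.ext
      have := DFunLike.congr_fun h1 i
      simpa using this
    · intro h; exact absurd (Finset.mem_univ _) h
  · push Not at hm
    obtain ⟨i, hi⟩ := hm
    have h1 : P.coeff m = 0 := by
      by_contra h2
      have h3 := le_totalDegree (mem_support_iff.2 h2)
      have h4 : m i ≤ m.sum fun _ e => e := by
        rw [Finsupp.sum_fintype _ _ (fun _ => rfl)]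
        exact Finset.single_le_sum (f := fun i => m i) (fun _ _ => Nat.zero_le _) (Finset.mem_univ i)
      omega
    rw [h1]
    refine Finset.sum_eq_zero fun a _ => ?_
    rw [if_neg]
    intro h2
    have h3 := DFunLike.congr_fun h2 i
    have h4 := (a i).2
    simp only [Finsupp.equivFunOnFinite_symm_apply_apply] at h3
    omega

/-- the finite-dimensional space of the restrictions -/
noncomputable def VV (n D : ℕ) : Submodule ℝ C(S n, ℝ) := LinearMap.range ((res n).comp (lc n D))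

instance (n D : ℕ) : FiniteDimensional ℝ (VV n D) := by
  unfold VV
  infer_instance

lemma mem_VV {D : ℕ} {P : MvPolynomial (Fin n) ℝ} (hP : P.totalDegree ≤ D) : res n P ∈ VV n D := by
  obtain ⟨c, hc⟩ := exists_lc hP
  exact ⟨c, by rw [LinearMap.comp_apply, hc]⟩

/-- a linear section -/
lemma exists_section (n D : ℕ) : ∃ s : VV n D →ₗ[ℝ] MvPolynomial (Fin n) ℝ,
    ∀ v : VV n D, res n (s v) = v := by
  obtain ⟨g, hg⟩ := ((res n).comp (lc n D)).rangeRestrict.exists_rightInverse_of_surjective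
    (LinearMap.range_rangeRestrict _)
  refine ⟨(lc n D).comp g, fun v => ?_⟩
  have h1 := DFunLike.congr_fun hg v
  have h2 := congrArg Subtype.val h1
  exact h2

/-- the rotation derivative as a linear map -/
noncomputable def ZL (i j : Fin n) : MvPolynomial (Fin n) ℝ →ₗ[ℝ] MvPolynomial (Fin n) ℝ where
  toFun P := Z0 i j P
  map_add' P Q := by simp only [Z0, map_add]; ring
  map_smul' c P := by
    simp only [Z0, Derivation.map_smul, RingHom.id_apply, smul_sub, mul_smul_comm]

lemma norm_le_of_res {f : C(S n, ℝ)} {M : ℝ} (hM : 0 ≤ M) (h : ∀ x : S n, |f x| ≤ M) : ‖f‖ ≤ M :=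
  (ContinuousMap.norm_le f hM).2 h

lemma norm_smul_VV {D : ℕ} (r : ℝ) (v : VV n D) : ‖r • v‖ = |r| * ‖v‖ :=
  norm_smul r (v : C(S n, ℝ))

/-- compactness -/
theorem wr_compact (hn : 2 ≤ n) (D : ℕ) : ∃ c : ℝ, 0 < c ∧ ∀ A B : MvPolynomial (Fin n) ℝ,
    A.totalDegree ≤ D → B.totalDegree ≤ D → (∀ x : E n, ‖x‖ = 1 → |e0 B x| ≤ 1) →
      (∃ x : E n, ‖x‖ = 1 ∧ |e0 B x| = 1) → ∀ a : ℝ,
      (∀ t : ℝ, ∃ x : E n, ‖x‖ = 1 ∧ a ≤ |e0 A x - t * e0 B x|) →
      ∃ (i j : Fin n) (x : E n), ‖x‖ = 1 ∧ c * a ≤ |e0 (W0 i j A B) x| := by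
  classical
  obtain ⟨s, hs⟩ := exists_section n D
  -- the Wronskians as continuous functions on the finite-dimensional space
  set Z : Fin n → Fin n → VV n D → C(S n, ℝ) := fun i j v => res n (ZL i j (s v)) with hZ
  have hZc : ∀ i j, Continuous (Z i j) := fun i j =>
    LinearMap.continuous_of_finiteDimensional ((res n).comp ((ZL i j).comp s))
  have hZs : ∀ i j (r : ℝ) v, Z i j (r • v) = r • Z i j v := fun i j r v =>
    LinearMap.map_smul ((res n).comp ((ZL i j).comp s)) r v
  have hZa : ∀ i j v w, Z i j (v - w) = Z i j v - Z i j w := fun i j v w =>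
    LinearMap.map_sub ((res n).comp ((ZL i j).comp s)) v w
  set W : Fin n → Fin n → VV n D × VV n D → C(S n, ℝ) := fun i j q =>
    Z i j q.1 * (q.2 : C(S n, ℝ)) - (q.1 : C(S n, ℝ)) * Z i j q.2 with hW
  have hWc : ∀ i j, Continuous (W i j) := fun i j =>
    (((hZc i j).comp continuous_fst).mul (continuous_subtype_val.comp continuous_snd)).sub
      ((continuous_subtype_val.comp continuous_fst).mul ((hZc i j).comp continuous_snd))
  have hWe : ∀ i j (A B : MvPolynomial (Fin n) ℝ) (v w : VV n D), res n A = v → res n B = w →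
      ∀ x : S n, W i j (v, w) x = e0 (W0 i j A B) x := by
    intro i j A B v w hv hw x
    have hA : ∀ y : E n, ‖y‖ = 1 → e0 (s v) y = e0 A y := by
      intro y hy
      have h1 := hs v
      rw [← hv] at h1
      exact DFunLike.congr_fun h1 ⟨y, mem_sphere_zero_iff_norm.2 hy⟩
    have hB : ∀ y : E n, ‖y‖ = 1 → e0 (s w) y = e0 B y := by
      intro y hy
      have h1 := hs w
      rw [← hw] at h1
      exact DFunLike.congr_fun h1 ⟨y, mem_sphere_zero_iff_norm.2 hy⟩
    have hx := mem_sphere_zero_iff_norm.1 x.2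
    rw [← W0_congr hA hB i j hx, e0_W0]
    show e0 (Z0 i j (s v)) x * (w : C(S n, ℝ)) x - (v : C(S n, ℝ)) x * e0 (Z0 i j (s w)) x = _
    rw [hA x hx, hB x hx, ← hv, ← hw]
    rfl
  set φ : VV n D × VV n D → ℝ := fun q => ∑ i, ∑ j, ‖W i j q‖ with hφ
  have hφc : Continuous φ := by
    refine continuous_finsetSum _ fun i _ => continuous_finsetSum _ fun j _ => (hWc i j).norm
  -- the compact set
  set K : Set (VV n D × VV n D) := {q | ‖q.1‖ ≤ 1 ∧ ‖q.2‖ = 1 ∧ ∀ t : ℝ, 1 / 2 ≤ ‖q.1 - t • q.2‖}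
    with hK
  have hKc : IsCompact K := by
    refine Metric.isCompact_of_isClosed_isBounded ?_ ?_
    · refine IsClosed.inter (isClosed_le continuous_fst.norm continuous_const) (IsClosed.inter
        (isClosed_eq continuous_snd.norm continuous_const) ?_)
      show IsClosed {q : VV n D × VV n D | ∀ t : ℝ, 1 / 2 ≤ ‖q.1 - t • q.2‖}
      rw [Set.ofPred_forall]
      exact isClosed_iInter fun t => isClosed_le continuous_const
        (continuous_fst.sub (continuous_snd.const_smul t)).norm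
    · refine (Metric.isBounded_closedBall (x := (0 : VV n D × VV n D)) (r := 1)).subset fun q hq => ?_
      rw [mem_closedBall_zero_iff, Prod.norm_def]
      exact max_le hq.1 hq.2.1.le
  have hpos : ∀ q ∈ K, 0 < φ q := by
    intro q hq
    have h0 : 0 ≤ φ q := Finset.sum_nonneg fun i _ => Finset.sum_nonneg fun j _ => norm_nonneg _
    refine lt_of_le_of_ne h0 fun h1 => ?_
    have h2 : ∀ i j, W i j q = 0 := by
      intro i j
      have h3 := (Finset.sum_eq_zero_iff_of_nonneg (fun i _ => Finset.sum_nonneg fun j _ =>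
        norm_nonneg (W i j q))).1 h1.symm i (Finset.mem_univ i)
      have h4 := (Finset.sum_eq_zero_iff_of_nonneg (fun j _ => norm_nonneg (W i j q))).1 h3 j
        (Finset.mem_univ j)
      exact norm_eq_zero.1 h4
    have h3 : ∀ i j, ∀ x : E n, ‖x‖ = 1 → e0 (W0 i j (s q.1) (s q.2)) x = 0 := by
      intro i j x hx
      have h4 := hWe i j (s q.1) (s q.2) q.1 q.2 (hs _) (hs _) ⟨x, mem_sphere_zero_iff_norm.2 hx⟩
      rw [Prod.mk.eta, h2] at h4
      exact h4.symm
    have h4 : ∃ x1 : S n, (q.2 : C(S n, ℝ)) x1 ≠ 0 := by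
      by_contra h5
      push Not at h5
      have h6 : ‖q.2‖ ≤ 0 := norm_le_of_res (f := (q.2 : C(S n, ℝ))) le_rfl fun x => by rw [h5 x, abs_zero]
      rw [hq.2.1] at h6
      exact absurd h6 (by norm_num)
    obtain ⟨x1, hx1⟩ := h4
    have h5 : e0 (s q.2) (x1 : E n) ≠ 0 := by
      have h6 := DFunLike.congr_fun (hs q.2) x1
      rw [res_apply] at h6
      rwa [h6]
    obtain ⟨t, ht⟩ := prop_of_wr hn h3 (mem_sphere_zero_iff_norm.1 x1.2) h5
    have h6 := hq.2.2 t
    have h7 : ‖q.1 - t • q.2‖ ≤ 0 := by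
      refine norm_le_of_res (f := ((q.1 - t • q.2 : VV n D) : C(S n, ℝ))) le_rfl fun x => ?_
      have h8 := ht x (mem_sphere_zero_iff_norm.1 x.2)
      have h9 := DFunLike.congr_fun (hs q.1) x
      have h10 := DFunLike.congr_fun (hs q.2) x
      rw [res_apply] at h9 h10
      rw [h9, h10] at h8
      have h11 : ((q.1 - t • q.2 : VV n D) : C(S n, ℝ)) x =
          (q.1 : C(S n, ℝ)) x - t * (q.2 : C(S n, ℝ)) x := rfl
      rw [h11, h8, sub_self, abs_zero]
    linarith
  -- the minimum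
  obtain ⟨c0, hc0, hmin⟩ : ∃ c0 : ℝ, 0 < c0 ∧ ∀ q ∈ K, c0 ≤ φ q := by
    rcases K.eq_empty_or_nonempty with h | h
    · exact ⟨1, one_pos, fun q hq => by rw [h] at hq; exact absurd hq (notMem_empty q)⟩
    · obtain ⟨q0, hq0, hm⟩ := hKc.exists_isMinOn h hφc.continuousOn
      exact ⟨φ q0, hpos q0 hq0, fun q hq => hm hq⟩
  have hn0 : (0 : ℝ) < n := by
    have : 0 < n := by omega
    exact_mod_cast this
  refine ⟨c0 / (n * n), by positivity, fun A B hA hB hB1 hB2 a ha => ?_⟩
  have hi0 : Nonempty (Fin n) := ⟨⟨0, by omega⟩⟩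
  by_cases ha0 : a ≤ 0
  · obtain ⟨x, hx, -⟩ := hB2
    exact ⟨hi0.some, hi0.some, x, hx, (mul_nonpos_of_nonneg_of_nonpos (by positivity) ha0).trans
      (abs_nonneg _)⟩
  push Not at ha0
  set v : VV n D := ⟨res n A, mem_VV hA⟩ with hv
  set w : VV n D := ⟨res n B, mem_VV hB⟩ with hw
  have hvt : ∀ t : ℝ, a ≤ ‖v - t • w‖ := by
    intro t
    obtain ⟨x, hx, hax⟩ := ha t
    have h1 := ContinuousMap.norm_coe_le_norm ((v - t • w : VV n D) : C(S n, ℝ))
      ⟨x, mem_sphere_zero_iff_norm.2 hx⟩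
    exact hax.trans h1
  have hw1 : ‖w‖ = 1 := by
    refine le_antisymm (norm_le_of_res (f := res n B) zero_le_one fun x =>
      hB1 x (mem_sphere_zero_iff_norm.1 x.2)) ?_
    obtain ⟨x, hx, h1⟩ := hB2
    have h2 := ContinuousMap.norm_coe_le_norm (res n B) ⟨x, mem_sphere_zero_iff_norm.2 hx⟩
    rw [res_apply, Real.norm_eq_abs, h1] at h2
    exact h2
  -- the distance
  set m : ℝ := ⨅ t : ℝ, ‖v - t • w‖ with hm
  have hma : a ≤ m := le_ciInf hvt
  have hm0 : 0 < m := lt_of_lt_of_le ha0 hma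
  have hbdd : BddBelow (range fun t : ℝ => ‖v - t • w‖) := ⟨a, by rintro _ ⟨t, rfl⟩; exact hvt t⟩
  have hmt : ∀ t : ℝ, m ≤ ‖v - t • w‖ := fun t => ciInf_le hbdd t
  obtain ⟨t0, ht0⟩ : ∃ t : ℝ, ‖v - t • w‖ < 2 * m := by
    refine exists_lt_of_ciInf_lt ?_
    rw [← hm]
    linarith
  set v' : VV n D := (2 * m)⁻¹ • (v - t0 • w) with hv'
  have hqK : (v', w) ∈ K := by
    refine ⟨?_, hw1, fun t => ?_⟩
    · show ‖v'‖ ≤ 1
      rw [hv', norm_smul_VV, abs_inv, abs_of_pos (by linarith), inv_mul_le_iff₀ (by linarith)]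
      linarith
    · show 1 / 2 ≤ ‖v' - t • w‖
      have h1 : v' - t • w = (2 * m)⁻¹ • (v - (t0 + 2 * m * t) • w) := by
        have h2 : (2 * m)⁻¹ * (2 * m * t) = t := by field_simp
        rw [hv', smul_sub, smul_sub, add_smul, smul_add, smul_smul (2 * m)⁻¹ (2 * m * t), h2]
        abel
      rw [h1, norm_smul_VV, abs_inv, abs_of_pos (by linarith)]
      have h3 := hmt (t0 + 2 * m * t)
      rw [inv_mul_eq_div, le_div_iff₀ (by linarith)]
      linarith
  have h1 := hmin _ hqK
  -- some Wronskian is large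
  obtain ⟨i, j, hij⟩ : ∃ i j, c0 / (n * n) ≤ ‖W i j (v', w)‖ := by
    by_contra h2
    push Not at h2
    have h3 : φ (v', w) < c0 := by
      have h4 : φ (v', w) < ∑ _i : Fin n, ∑ _j : Fin n, c0 / (n * n) := by
        refine Finset.sum_lt_sum_of_nonempty ⟨hi0.some, Finset.mem_univ _⟩ fun i _ => ?_
        exact Finset.sum_lt_sum_of_nonempty ⟨hi0.some, Finset.mem_univ _⟩ fun j _ => h2 i j
      refine h4.trans_le (le_of_eq ?_)
      simp only [Finset.sum_const, Finset.card_univ, Fintype.card_fin, nsmul_eq_mul]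
      field_simp
    linarith
  have h2 : W i j (v', w) = (2 * m)⁻¹ • W i j (v, w) := by
    have h3 : Z i j v' = (2 * m)⁻¹ • (Z i j v - t0 • Z i j w) := by
      rw [hv', hZs, hZa, hZs]
    show Z i j v' * (w : C(S n, ℝ)) - (v' : C(S n, ℝ)) * Z i j w = (2 * m)⁻¹ •
      (Z i j v * (w : C(S n, ℝ)) - (v : C(S n, ℝ)) * Z i j w)
    rw [h3]
    ext x
    have h4 : (v' : C(S n, ℝ)) x = (2 * m)⁻¹ * ((v : C(S n, ℝ)) x - t0 * (w : C(S n, ℝ)) x) := rfl
    simp only [ContinuousMap.sub_apply, ContinuousMap.mul_apply, ContinuousMap.smul_apply,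
      smul_eq_mul, h4]
    ring
  rw [h2, norm_smul, norm_inv, Real.norm_eq_abs, abs_of_pos (by linarith), inv_mul_eq_div,
    le_div_iff₀ (by linarith)] at hij
  -- a point
  by_contra hcon
  push Not at hcon
  have h5 : ‖W i j (v, w)‖ ≤ c0 / (n * n) * a := by
    refine norm_le_of_res (by positivity) fun x => ?_
    rw [hWe i j A B v w rfl rfl x]
    exact (hcon i j x (mem_sphere_zero_iff_norm.1 x.2)).le
  have h6 : 0 < c0 / (n * n) := by positivity
  nlinarith

end Pool.Agent.VANn.RAT.WR
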