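import Pool.Agent.RAT.Defs
import Pool.Agent.RAT.WR0

/-! Row C: the Wronskian of `A` and `B` is large if `A` is far from the multiples of `B`. -/

set_option autoImplicit false

namespace Pool.Agent.VANn.RAT

open MeasureTheory Set MvPolynomial Pool.Agent.MP_6cbfb8_an Pool.Agent.VANn.TM Filter Topology
open scoped ENNReal Real ContDiff RealInnerProductSpace

variable {n : ℕ}

theorem wron (hn : 2 ≤ n) (D : ℕ) : ∃ c : ℝ, 0 < c ∧ ∀ A B : MvPolynomial (Fin n) ℝ,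
    A.totalDegree ≤ D → B.totalDegree ≤ D → Nm B → ∀ a : ℝ,
      (∀ t : ℝ, ∃ x : E n, ‖x‖ = 1 ∧ a ≤ |ev A x - t * ev B x|) →
      ∃ (i j : Fin n) (x : E n), ‖x‖ = 1 ∧ c * a ≤ |ev (Wr i j A B) x| := by
  obtain ⟨c, hc, H⟩ := WR.wr_compact hn D
  exact ⟨c, hc, fun A B hA hB hN a ha => H A B hA hB hN.1 hN.2 a ha⟩

end Pool.Agent.VANn.RAT
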