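import Pool.Agent.RAT.S

/-!
A Markov inequality for the rotation fields.
-/

set_option autoImplicit false

namespace Pool.Agent.VANn.RAT

open MeasureTheory Set MvPolynomial Pool.Agent.MP_6cbfb8_an Pool.Agent.VANn.TM Filter Topology
open Pool.Agent.VAN (fam)
open scoped ENNReal Real ContDiff RealInnerProductSpace

variable {n : ℕ}

theorem sm_Zp_zero (i j : Fin n) (R : MvPolynomial (Fin n) ℝ) (h : ∀ x : E n, ‖x‖ = 1 → ev R x = 0)
    (x : E n) (hx : ‖x‖ = 1) : ev (Zp i j R) x = 0 := by
  have hev : ev (Zp i j R) x = x i * ev (pderiv j R) x - x j * ev (pderiv i R) x := by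
    simp [Zp, ev]
  rw [hev]
  by_cases hij : i = j
  · subst hij
    ring
  set q : E n × E n := (EuclideanSpace.single i 1, EuclideanSpace.single j 1) with hq
  have hon : ON q := by
    refine ⟨by simp [hq], by simp [hq], ?_⟩
    rw [hq]
    simp [EuclideanSpace.inner_single_left, hij]
  have hd : HasDerivAt (fun t => ev R (rot q t x)) (fderiv ℝ (ev R) (rot q 0 x) (gen q (rot q 0 x))) 0 :=
    (((sm_ev_contDiff R).differentiable (by simp) _).hasFDerivAt).comp_hasDerivAt 0
      (hasDerivAt_rot hon 0 x)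
  have hz : (fun t => ev R (rot q t x)) = fun _ => 0 := by
    funext t
    exact h _ (by rw [rot_norm hon, hx])
  rw [hz] at hd
  have h0 := hd.unique (hasDerivAt_const (0 : ℝ) (0 : ℝ))
  rw [rot_zero, sm_ev_fderiv] at h0
  have hg : ∀ l, (gen q x) l = (if l = j then x i else 0) - (if l = i then x j else 0) := by
    intro l
    unfold gen
    simp only [hq, PiLp.sub_apply, PiLp.smul_apply, EuclideanSpace.inner_single_left,
      PiLp.single_apply, smul_eq_mul]
    by_cases h1 : l = j <;> by_cases h2 : l = i <;> simp [h1, h2]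
  have h1 : ∑ l, (gen q x) l * ev (pderiv l R) x =
      x i * ev (pderiv j R) x - x j * ev (pderiv i R) x := by
    simp only [hg, sub_mul, ite_mul, zero_mul]
    rw [Finset.sum_sub_distrib, Finset.sum_ite_eq' Finset.univ j, Finset.sum_ite_eq' Finset.univ i,
      if_pos (Finset.mem_univ j), if_pos (Finset.mem_univ i)]
  rw [h1] at h0
  exact h0

/-- Row M. -/
theorem markov (hn : 2 ≤ n) (D : ℕ) : ∃ C : ℝ, 0 < C ∧ ∀ P : MvPolynomial (Fin n) ℝ,
    P.totalDegree ≤ D → ∀ (M : ℝ) (i j : Fin n), Bd M P → Bd (C * M) (Zp i j P) := by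
  obtain ⟨k, ψ, hind, hbas⟩ := sm_basis n D
  have hcs : CompactSpace (Metric.sphere (0 : E n) 1) :=
    isCompact_iff_compactSpace.1 (isCompact_sphere (0 : E n) 1)
  let T : (Fin k → ℝ) →ₗ[ℝ] C(Metric.sphere (0 : E n) 1, ℝ) :=
    { toFun := fun b => ⟨fun x => ∑ l, b l * ev (ψ l) (x : E n),
        continuous_finsetSum _ fun l _ => continuous_const.mul
          ((sm_ev_contDiff (ψ l)).continuous.comp continuous_subtype_val)⟩
      map_add' := by
        intro b c
        ext x
        simp [add_mul, Finset.sum_add_distrib]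
      map_smul' := by
        intro r b
        ext x
        simp [mul_assoc, Finset.mul_sum] }
  have hker : LinearMap.ker T = ⊥ := by
    rw [LinearMap.ker_eq_bot']
    intro b hb
    refine hind b fun x hx => ?_
    have := congrArg (fun g : C(Metric.sphere (0 : E n) 1, ℝ) => g ⟨x, by simpa using hx⟩) hb
    simpa [T] using this
  obtain ⟨K, hKpos, hK⟩ := T.exists_antilipschitzWith hker
  have hz : ∀ (l : Fin k) (i j : Fin n), ∃ K : ℝ, 0 ≤ K ∧ Bd K (Zp i j (ψ l)) :=
    fun l i j => sm_ev_bd _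
  choose Z hZ0 hZ using hz
  set C1 : ℝ := 1 + ∑ l, ∑ i, ∑ j, Z l i j with hC1
  have hC10 : 0 < C1 := by
    have : 0 ≤ ∑ l, ∑ i, ∑ j, Z l i j :=
      Finset.sum_nonneg fun l _ => Finset.sum_nonneg fun i _ => Finset.sum_nonneg fun j _ => hZ0 l i j
    linarith
  refine ⟨C1 * K, by positivity, fun P hP M i j hM x hx => ?_⟩
  have hM0 : 0 ≤ M := (abs_nonneg _).trans (hM x hx)
  obtain ⟨b, hb⟩ := hbas P hP
  have hbn : ‖b‖ ≤ K * M := by
    have h1 : ‖b‖ ≤ K * ‖T b‖ := by
      have := hK.le_mul_dist b 0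
      rwa [map_zero, dist_zero_right, dist_zero_right] at this
    refine h1.trans (mul_le_mul_of_nonneg_left ?_ K.2)
    rw [ContinuousMap.norm_le _ hM0]
    intro y
    have hy : ‖(y : E n)‖ = 1 := by simp
    have h2 := hM y hy
    rw [hb y hy] at h2
    simpa [T] using h2
  have h3 : ev (Zp i j P) x = ∑ l, b l * ev (Zp i j (ψ l)) x := by
    have h4 := sm_Zp_zero i j (P - ∑ l, b l • ψ l) (fun y hy => by
      rw [sm_ev_sub, sm_ev_sum, hb y hy, sub_self]) x hx
    have h5 : Zp i j (P - ∑ l, b l • ψ l) = Zp i j P - ∑ l, b l • Zp i j (ψ l) := by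
      simp only [Zp, map_sub, map_sum, Derivation.map_smul, mul_sub, Finset.mul_sum, smul_sub,
        Finset.sum_sub_distrib, mul_smul_comm]
      ring
    rw [h5, sm_ev_sub, sm_ev_sum] at h4
    linarith
  rw [h3]
  refine (Finset.abs_sum_le_sum_abs _ _).trans ?_
  calc ∑ l, |b l * ev (Zp i j (ψ l)) x| ≤ ∑ l, ‖b‖ * Z l i j := by
        refine Finset.sum_le_sum fun l _ => ?_
        rw [abs_mul]
        exact mul_le_mul (by simpa using norm_le_pi_norm b l) (hZ l i j x hx) (abs_nonneg _)
          (norm_nonneg _)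
    _ = ‖b‖ * ∑ l, Z l i j := by rw [Finset.mul_sum]
    _ ≤ ‖b‖ * C1 := by
        refine mul_le_mul_of_nonneg_left ?_ (norm_nonneg _)
        have h6 : ∑ l, Z l i j ≤ ∑ l, ∑ i, ∑ j, Z l i j := by
          refine Finset.sum_le_sum fun l _ => ?_
          exact (Finset.single_le_sum (f := fun j => Z l i j) (fun j _ => hZ0 l i j)
            (Finset.mem_univ j)).trans (Finset.single_le_sum (f := fun i => ∑ j, Z l i j)
              (fun i _ => Finset.sum_nonneg fun j _ => hZ0 l i j) (Finset.mem_univ i))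
        linarith
    _ ≤ K * M * C1 := mul_le_mul_of_nonneg_right hbn hC10.le
    _ = C1 * K * M := by ring

end Pool.Agent.VANn.RAT
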