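import Pool.Agent.RAT.Defs
import Pool.Agent.VANn.TA4
import Pool.Agent.VAN.H2

/-!
Sublevel sets of polynomials of bounded degree on the sphere, with one constant, and a Markov
inequality for the rotation fields.
-/

set_option autoImplicit false

namespace Pool.Agent.VANn.RAT

open MeasureTheory Set MvPolynomial Pool.Agent.MP_6cbfb8_an Pool.Agent.VANn.TM Filter Topology
open Pool.Agent.VAN (fam)
open scoped ENNReal Real ContDiff RealInnerProductSpace

variable {n : ℕ}

theorem sm_ev_sub (P Q : MvPolynomial (Fin n) ℝ) (x : E n) : ev (P - Q) x = ev P x - ev Q x := by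
  simp [ev]

theorem sm_ev_sum {k : ℕ} (b : Fin k → ℝ) (ψ : Fin k → MvPolynomial (Fin n) ℝ) (x : E n) :
    ev (∑ l, b l • ψ l) x = ∑ l, b l * ev (ψ l) x := by
  simp [ev, map_sum, smul_eval]

theorem sm_ev_contDiff (P : MvPolynomial (Fin n) ℝ) : ContDiff ℝ ∞ (ev P) := by
  unfold ev
  induction P using MvPolynomial.induction_on with
  | C a => simp only [eval_C]; exact contDiff_const
  | add p q hp hq => simp only [map_add]; exact hp.add hq
  | mul_X p i hp =>
    simp only [map_mul, eval_X]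
    exact hp.mul (contDiff_piLp_apply (i := i) (p := 2))

theorem sm_ev_fderiv (P : MvPolynomial (Fin n) ℝ) (y v : E n) :
    fderiv ℝ (ev P) y v = ∑ i, v i * ev (pderiv i P) y := by
  induction P using MvPolynomial.induction_on with
  | C a =>
    have h1 : ev (n := n) (C a) = fun _ => a := by
      funext z; simp [ev]
    rw [h1]
    simp [ev]
  | add p q hp hq =>
    have h1 : ev (n := n) (p + q) = fun z => ev p z + ev q z := by
      funext z; simp [ev]
    rw [h1, fderiv_fun_add ((sm_ev_contDiff p).differentiable (by simp) y)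
      ((sm_ev_contDiff q).differentiable (by simp) y), add_apply, hp, hq,
      ← Finset.sum_add_distrib]
    refine Finset.sum_congr rfl fun i _ => ?_
    simp only [map_add, ev]
    ring
  | mul_X p j hp =>
    have h1 : ev (n := n) (p * X j) = fun z => ev p z * z j := by
      funext z; simp [ev]
    have h2 : HasFDerivAt (fun z : E n => z j) (EuclideanSpace.proj j : E n →L[ℝ] ℝ) y :=
      (EuclideanSpace.proj j : E n →L[ℝ] ℝ).hasFDerivAt
    have h3 := (((sm_ev_contDiff p).differentiable (by simp) y).hasFDerivAt).mul h2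
    have h4 : fderiv ℝ (fun z : E n => ev p z * z j) y =
        ev p y • (EuclideanSpace.proj j : E n →L[ℝ] ℝ) + y j • fderiv ℝ (ev p) y := h3.fderiv
    rw [h1, h4]
    simp only [add_apply, smul_apply, smul_eq_mul, hp]
    have h5 : ∀ i, v i * ev (pderiv i (p * X j)) y =
        (if i = j then v i * ev p y else 0) + y j * (v i * ev (pderiv i p) y) := by
      intro i
      rw [Derivation.leibniz]
      by_cases hij : i = j
      · subst hij
        rw [if_pos rfl]
        simp only [pderiv_X_self, ev, smul_eq_mul, map_add, map_mul, map_one, eval_X]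
        ring
      · rw [pderiv_X_of_ne (fun h => hij h.symm)]
        rw [if_neg hij]
        simp only [ev, smul_eq_mul, map_add, map_mul, map_zero, eval_X]
        ring
    rw [Finset.sum_congr rfl fun i _ => h5 i, Finset.sum_add_distrib, ← Finset.mul_sum,
      Finset.sum_ite_eq' Finset.univ j, if_pos (Finset.mem_univ j)]
    simp
    ring

theorem sm_ev_bd (P : MvPolynomial (Fin n) ℝ) : ∃ K : ℝ, 0 ≤ K ∧ Bd K P := by
  obtain ⟨K, hK⟩ := (isCompact_sphere (0 : E n) 1).exists_bound_of_continuousOn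
    (sm_ev_contDiff P).continuous.continuousOn
  refine ⟨|K|, abs_nonneg _, fun x hx => (hK x (by simpa using hx)).trans (le_abs_self _)⟩

theorem sm_family (n D : ℕ) : ∃ (d : ℕ) (φ : Fin d → MvPolynomial (Fin n) ℝ),
    ∀ P : MvPolynomial (Fin n) ℝ, P.totalDegree ≤ D → ∃ c : Fin d → ℝ, P = ∑ j, c j • φ j := by
  have hfin : Module.Finite ℝ (restrictTotalDegree (Fin n) ℝ D) := inferInstance
  let b := Module.finBasis ℝ (restrictTotalDegree (Fin n) ℝ D)
  refine ⟨_, fun j => (b j : MvPolynomial (Fin n) ℝ), fun P hP => ?_⟩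
  have hmem : P ∈ restrictTotalDegree (Fin n) ℝ D := (mem_restrictTotalDegree (Fin n) D P).2 hP
  refine ⟨fun j => b.repr ⟨P, hmem⟩ j, ?_⟩
  have h1 := b.sum_repr ⟨P, hmem⟩
  have h2 := congrArg (fun v : restrictTotalDegree (Fin n) ℝ D => (v : MvPolynomial (Fin n) ℝ)) h1
  simp only [Submodule.coe_sum, Submodule.coe_smul] at h2
  exact h2.symm

/-- A family of polynomials which is a basis on the sphere. -/
theorem sm_basis (n D : ℕ) : ∃ (k : ℕ) (ψ : Fin k → MvPolynomial (Fin n) ℝ),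
    (∀ a : Fin k → ℝ, (∀ x : E n, ‖x‖ = 1 → ∑ j, a j * ev (ψ j) x = 0) → a = 0) ∧
    ∀ P : MvPolynomial (Fin n) ℝ, P.totalDegree ≤ D → ∃ b : Fin k → ℝ,
      ∀ x : E n, ‖x‖ = 1 → ev P x = ∑ j, b j * ev (ψ j) x := by
  obtain ⟨d, φ, hφ⟩ := sm_family n D
  obtain ⟨k, σ, _, hind, L, hL⟩ := VAN.reduce_zero (fun j => ev (φ j))
  refine ⟨k, fun j => φ (σ j), fun a h => hind a fun x hx => h x (by simpa using hx), ?_⟩
  intro P hP
  obtain ⟨c, hc⟩ := hφ P hP
  refine ⟨L c, fun x hx => ?_⟩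
  rw [← hL c x (by simpa using hx), hc, sm_ev_sum]

/-- Row S. -/
theorem sub_unif (hn : 2 ≤ n) (D : ℕ) : ∃ M κ : ℝ, 0 ≤ M ∧ 0 < κ ∧
    ∀ P : MvPolynomial (Fin n) ℝ, P.totalDegree ≤ D → ∀ x1 : E n, ‖x1‖ = 1 → ev P x1 ≠ 0 →
      ∀ t : ℝ, 0 ≤ t → sm n {x : S n | |ev P x| ≤ t * |ev P x1|} ≤ ENNReal.ofReal (M * t ^ κ) := by
  obtain ⟨k, ψ, hind, hbas⟩ := sm_basis n D
  have han : ∀ j : Fin k, AnalyticOnNhd ℝ ((fun j : Fin k => ev (ψ j)) j) (Metric.sphere 0 1) :=
    fun j => analytic_ev (ψ j)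
  have hnf := nonflat_of_analytic hn (fun j : Fin k => ev (ψ j)) han
  obtain ⟨M, κ, hM, hκ, H⟩ := sublevel_nf (fun j : Fin k => ev (ψ j))
    (fun j x hx => (analytic_ev (ψ j) x hx).contDiffAt) (by
    intro a ha x hx
    by_contra hcon
    have hz : ∀ q, ON q → ∀ r, (dR q)^[r] (fam (fun j : Fin k => ev (ψ j)) a) x = 0 := by
      intro q hq r
      by_contra h2
      exact hcon ⟨q, hq, r, h2⟩
    have h0 : (fun y => fam (fun j : Fin k => ev (ψ j)) a y + inner ℝ y (0 : E n)) =
        fam (fun j : Fin k => ev (ψ j)) a := by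
      funext y
      rw [inner_zero_right, add_zero]
    have hsm : ∀ y ∈ Metric.sphere (0 : E n) 1, ContDiffAt ℝ ((⊤ : ℕ∞) : WithTop ℕ∞)
        (fun y => fam (fun j : Fin k => ev (ψ j)) a y + inner ℝ y (0 : E n)) y := by
      intro y hy
      rw [h0]
      unfold fam
      exact ContDiffAt.sum fun j _ => contDiffAt_const.mul (analytic_ev (ψ j) y hy).contDiffAt
    have hfl := flat_of_dR hn hsm hx (by
      intro q hq r _
      rw [h0]
      exact hz q hq r)
    have h2 := hnf.2 a 0 x hx hfl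
    obtain ⟨q, hq, _⟩ := exists_rot hn (x := x) (y := x) (by simpa using hx) (by simpa using hx)
    have h4 := hz q hq 0
    rw [Function.iterate_zero, id] at h4
    refine ha (hind a fun y hy => ?_)
    have h3 := h2 y hy
    rw [inner_zero_right, add_zero, inner_zero_right, add_zero] at h3
    exact h3.trans h4)
  have hb : ∀ j : Fin k, ∃ K : ℝ, 0 ≤ K ∧ Bd K (ψ j) := fun j => sm_ev_bd (ψ j)
  choose K hK0 hK using hb
  set K0 : ℝ := ∑ j, K j with hK0'
  have hK00 : 0 ≤ K0 := Finset.sum_nonneg fun j _ => hK0 j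
  refine ⟨M * K0 ^ κ, κ, by positivity, hκ, ?_⟩
  intro P hP x1 hx1 hne t ht
  obtain ⟨b, hb⟩ := hbas P hP
  have h1 : |ev P x1| ≤ K0 * ‖b‖ := by
    rw [hb x1 hx1]
    refine (Finset.abs_sum_le_sum_abs _ _).trans ?_
    rw [hK0', Finset.sum_mul]
    refine Finset.sum_le_sum fun j _ => ?_
    rw [abs_mul, mul_comm]
    exact mul_le_mul (hK j x1 hx1) (by simpa using norm_le_pi_norm b j) (abs_nonneg _) (hK0 j)
  have hb0 : 0 < ‖b‖ := by
    rcases (norm_nonneg b).eq_or_lt with h | h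
    · rw [← h, mul_zero] at h1
      exact absurd (abs_nonpos_iff.1 h1) hne
    · exact h
  have hnb : ‖(‖b‖⁻¹ • b)‖ = 1 := by
    rw [norm_smul, norm_inv, norm_norm, inv_mul_cancel₀ hb0.ne']
  refine (measure_mono ?_).trans ((H (‖b‖⁻¹ • b) hnb (t * K0) (by positivity)).trans ?_)
  · intro x hx
    have hx' : ‖(x : E n)‖ = 1 := by simp
    have h2 : |ev P x| ≤ t * |ev P x1| := hx
    show |fam (fun j : Fin k => ev (ψ j)) (‖b‖⁻¹ • b) x| ≤ t * K0
    have h3 : fam (fun j : Fin k => ev (ψ j)) (‖b‖⁻¹ • b) x = ‖b‖⁻¹ * ev P x := by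
      unfold fam
      rw [hb x hx', Finset.mul_sum]
      refine Finset.sum_congr rfl fun j _ => ?_
      rw [Pi.smul_apply, smul_eq_mul]
      ring
    rw [h3, abs_mul, abs_inv, abs_norm, inv_mul_le_iff₀ hb0]
    calc |ev P x| ≤ t * |ev P x1| := h2
      _ ≤ t * (K0 * ‖b‖) := mul_le_mul_of_nonneg_left h1 ht
      _ = ‖b‖ * (t * K0) := by ring
  · apply ENNReal.ofReal_le_ofReal
    rw [Real.mul_rpow ht hK00]
    apply le_of_eq
    ring

end Pool.Agent.VANn.RAT
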