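import Pool.Agent.RAT.I0
import Pool.Agent.RAT.S
import Pool.Agent.RAT.M
import Pool.Agent.GNP.P5

/-!
Decay of the integral of `exp (i A / B)` over the sphere, from the Wronskian.
-/

set_option autoImplicit false

namespace Pool.Agent.VANn.RAT

open MeasureTheory Set MvPolynomial Pool.Agent.MP_6cbfb8_an Pool.Agent.VANn.TM Filter Topology
open scoped ENNReal Real ContDiff RealInnerProductSpace

variable {n : ℕ}

namespace RI

theorem contDiff_ev (P : MvPolynomial (Fin n) ℝ) : ContDiff ℝ ∞ (ev P) := GNP.contDiff_pe P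

theorem continuous_ev (P : MvPolynomial (Fin n) ℝ) : Continuous (ev P) := (contDiff_ev P).continuous

/-- The coordinate plane. -/
noncomputable def qc (i j : Fin n) : E n × E n :=
  (EuclideanSpace.single i (1 : ℝ), EuclideanSpace.single j (1 : ℝ))

theorem on_qc {i j : Fin n} (h : i ≠ j) : ON (qc i j) := by
  refine ⟨by simp [qc], by simp [qc], ?_⟩
  simp only [qc]
  rw [EuclideanSpace.inner_single_left]
  simp [h]

/-- The derivative of a polynomial along a coordinate rotation. -/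
theorem ev_hasDerivAt {i j : Fin n} (h : i ≠ j) (P : MvPolynomial (Fin n) ℝ) (x : E n) (t : ℝ) :
    HasDerivAt (fun t => ev P (rot (qc i j) t x)) (ev (Zp i j P) (rot (qc i j) t x)) t := by
  have h1 := ((contDiff_ev P).differentiable (by simp) (rot (qc i j) t x)).hasFDerivAt
  have h2 := h1.comp_hasDerivAt t (hasDerivAt_rot (on_qc h) t x)
  refine h2.congr_deriv ?_
  set y := rot (qc i j) t x
  have h3 : fderiv ℝ (ev P) y (gen (qc i j) y) =
      ∑ k, (gen (qc i j) y) k * ev (pderiv k P) y := GNP.hasFDerivAt_pe P y _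
  rw [h3]
  have h4 : ∀ k, (gen (qc i j) y) k = (if k = j then y i else 0) - (if k = i then y j else 0) := by
    intro k
    simp only [gen, qc, EuclideanSpace.inner_single_left, PiLp.sub_apply, PiLp.smul_apply,
      smul_eq_mul, map_one, one_mul, PiLp.single_apply]
    split_ifs <;> simp
  simp only [h4, sub_mul, Finset.sum_sub_distrib, ite_mul, zero_mul, Finset.sum_ite_eq',
    Finset.mem_univ, if_true]
  simp [Zp, ev]

theorem ev_Wr (i j : Fin n) (A B : MvPolynomial (Fin n) ℝ) (x : E n) :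
    ev (Wr i j A B) x = ev (Zp i j A) x * ev B x - ev A x * ev (Zp i j B) x := by
  simp [Wr, ev]

theorem deg_Zp (i j : Fin n) (P : MvPolynomial (Fin n) ℝ) {D : ℕ} (hP : P.totalDegree ≤ D) :
    (Zp i j P).totalDegree ≤ D + 1 := by
  have h1 : ∀ k l : Fin n, (X k * pderiv l P : MvPolynomial (Fin n) ℝ).totalDegree ≤ D + 1 := by
    intro k l
    refine (totalDegree_mul _ _).trans ?_
    rw [totalDegree_X]
    have := (GNP.totalDegree_pderiv_le l P).trans hP
    omega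
  exact (totalDegree_sub _ _).trans (max_le (h1 i j) (h1 j i))

theorem deg_Wr (i j : Fin n) (A B : MvPolynomial (Fin n) ℝ) {D : ℕ} (hA : A.totalDegree ≤ D)
    (hB : B.totalDegree ≤ D) : (Wr i j A B).totalDegree ≤ 2 * D + 1 := by
  have h1 := deg_Zp i j A hA
  have h2 := deg_Zp i j B hB
  refine (totalDegree_sub _ _).trans (max_le ?_ ?_)
  · refine (totalDegree_mul _ _).trans ?_
    omega
  · refine (totalDegree_mul _ _).trans ?_
    omega

theorem Zp_self (i : Fin n) (P : MvPolynomial (Fin n) ℝ) : Zp i i P = 0 := sub_self _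

/-- If the Wronskian does not vanish at a point of the sphere, `B` does not vanish on the
sphere. -/
theorem exists_ne {i j : Fin n} (h : i ≠ j) {A B : MvPolynomial (Fin n) ℝ} {x1 : E n}
    (hx1 : ‖x1‖ = 1) (hW : ev (Wr i j A B) x1 ≠ 0) : ∃ x : E n, ‖x‖ = 1 ∧ ev B x ≠ 0 := by
  by_contra hcon
  push Not at hcon
  apply hW
  have h1 := ev_hasDerivAt h B x1 0
  have h2 : (fun t => ev B (rot (qc i j) t x1)) = fun _ => (0 : ℝ) := by
    funext t
    exact hcon _ (by rw [rot_norm (on_qc h), hx1])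
  rw [h2, rot_zero] at h1
  have h3 : ev (Zp i j B) x1 = 0 := h1.unique (hasDerivAt_const 0 (0 : ℝ))
  rw [ev_Wr, h3, hcon x1 hx1, mul_zero, mul_zero, sub_zero]

theorem pow_cmp {L κ : ℝ} (hL1 : 1 < L) (hκ0 : 0 < κ) (hκ1 : κ ≤ 1 / 2) :
    L ^ (-κ) ≤ 2 * (1 + L) ^ (-κ) := by
  have hLp : 0 < L := by linarith
  have hL0 : 0 ≤ L := hLp.le
  have h10 : (1 + L) ^ κ ≤ 2 * L ^ κ := by
    have h11 : (1 + L) ^ κ ≤ (2 * L) ^ κ := Real.rpow_le_rpow (by positivity) (by linarith) hκ0.le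
    rw [Real.mul_rpow (by norm_num) hL0] at h11
    refine h11.trans ?_
    gcongr
    calc (2 : ℝ) ^ κ ≤ 2 ^ (1 : ℝ) :=
          Real.rpow_le_rpow_of_exponent_le (by norm_num) (by linarith)
      _ = 2 := Real.rpow_one 2
  have h14 : 0 < (1 + L) ^ κ := Real.rpow_pos_of_pos (by positivity) _
  have h15 : 0 < L ^ κ := Real.rpow_pos_of_pos hLp _
  rw [Real.rpow_neg hL0, Real.rpow_neg (by positivity), ← one_div, ← one_div, mul_one_div,
    div_le_div_iff₀ h15 h14]
  linarith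

theorem pow_small {L κ : ℝ} (hL : 0 ≤ L) (hL1 : L ≤ 1) (hκ0 : 0 < κ) (hκ1 : κ ≤ 1 / 2) :
    (1 / 2 : ℝ) ≤ (1 + L) ^ (-κ) := by
  have h2 : (2:ℝ) ^ (-(1:ℝ)) ≤ (2:ℝ) ^ (-κ) :=
    Real.rpow_le_rpow_of_exponent_le (by norm_num) (by linarith)
  have h3 : (2:ℝ) ^ (-κ) ≤ (1 + L) ^ (-κ) :=
    Real.rpow_le_rpow_of_nonpos (by positivity) (by linarith) (by linarith)
  rw [Real.rpow_neg_one] at h2
  linarith

theorem pow_terms {L κ C : ℝ} (hL1 : 1 < L) (hκ1 : κ ≤ 1 / 2) (hC0 : 0 < C) :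
    C * L / (L ^ (3 / 4 : ℝ)) ^ 2 + C / L ^ (3 / 4 : ℝ) ≤ 2 * C * L ^ (-κ) := by
  have hLp : 0 < L := by linarith
  have hL0 : 0 ≤ L := hLp.le
  have h1 : C * L / (L ^ (3 / 4 : ℝ)) ^ 2 = C * L ^ (-(1 / 2) : ℝ) := by
    rw [← Real.rpow_natCast, ← Real.rpow_mul hL0, mul_div_assoc]
    congr 1
    rw [div_eq_mul_inv, ← Real.rpow_neg hL0]
    nth_rewrite 1 [← Real.rpow_one L]
    rw [← Real.rpow_add hLp]
    norm_num
  have h2 : C / L ^ (3 / 4 : ℝ) = C * L ^ (-(3 / 4) : ℝ) := by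
    rw [div_eq_mul_inv, ← Real.rpow_neg hL0]
  have h3 : L ^ (-(1 / 2) : ℝ) ≤ L ^ (-κ) :=
    Real.rpow_le_rpow_of_exponent_le hL1.le (by linarith)
  have h4 : L ^ (-(3 / 4) : ℝ) ≤ L ^ (-κ) :=
    Real.rpow_le_rpow_of_exponent_le hL1.le (by linarith)
  rw [h1, h2]
  nlinarith

theorem exists_cut {MB κB e : ℝ} (hκB : 0 < κB) (he : 0 < e) :
    ∃ t : ℝ, 0 < t ∧ t ≤ 1 ∧ MB * t ^ κB ≤ e := by
  have hlim : Tendsto (fun t : ℝ => MB * t ^ κB) (𝓝[>] 0) (𝓝 0) := by
    have h1 : Continuous fun t : ℝ => MB * t ^ κB :=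
      continuous_const.mul (continuous_id.rpow_const fun _ => Or.inr hκB.le)
    have h2 := h1.tendsto 0
    rw [Real.zero_rpow hκB.ne', mul_zero] at h2
    exact h2.mono_left nhdsWithin_le_nhds
  have h1 : ∀ᶠ t in 𝓝[>] (0 : ℝ), MB * t ^ κB < e := hlim.eventually_lt_const he
  have h2 : ∀ᶠ t in 𝓝[>] (0 : ℝ), t ≤ 1 :=
    (eventually_le_nhds (by norm_num : (0 : ℝ) < 1)).filter_mono nhdsWithin_le_nhds
  obtain ⟨t, h3, h4, h5⟩ := (h1.and (h2.and self_mem_nhdsWithin)).exists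
  exact ⟨t, h5, h4, h3.le⟩

end RI

open RI in
/-- **Row I.** -/
theorem decay_wr (hn : 2 ≤ n) (D : ℕ) : ∃ K κ : ℝ, 0 < K ∧ 0 < κ ∧ κ ≤ 1 ∧
    ∀ A B : MvPolynomial (Fin n) ℝ, A.totalDegree ≤ D → B.totalDegree ≤ D → Bd 1 B →
      ∀ (i j : Fin n) (x1 : E n), ‖x1‖ = 1 →
        ‖∫ x : S n, Complex.exp (((ev A x / ev B x : ℝ) : ℂ) * Complex.I) ∂(sm n)‖ ≤
          K * (1 + |ev (Wr i j A B) x1|) ^ (-κ) := by
  obtain ⟨MB, κB, hMB, hκB, hSB⟩ := sub_unif hn D
  obtain ⟨MW, κW, hMW, hκW, hSW⟩ := sub_unif hn (2 * D + 1)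
  obtain ⟨CB, hCB, hMaB⟩ := markov hn D
  obtain ⟨CW, hCW, hMaW⟩ := markov hn (2 * D + 1)
  obtain ⟨M, hM, hcore⟩ := ibp_core
  set σ : ℝ := (sm n).real univ with hσ
  have hσ0 : 0 ≤ σ := measureReal_nonneg
  set κ : ℝ := min (κW / 4) (1 / 2) with hκ
  have hκ0 : 0 < κ := lt_min (by positivity) (by norm_num)
  have hκ1 : κ ≤ 1 / 2 := min_le_right _ _
  have hκ4 : κ ≤ κW / 4 := min_le_left _ _
  set C : ℝ := max CB CW with hC
  have hC0 : 0 < C := lt_of_lt_of_le hCB (le_max_left _ _)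
  set K0 : ℝ := σ + (M * (2 * C) * σ + MW * 2 ^ κW + 1) with hK0
  have h2κ : 0 < (2 : ℝ) ^ κW := Real.rpow_pos_of_pos (by norm_num) _
  have hK0p : 0 < K0 := by positivity
  refine ⟨2 * K0, κ, by positivity, hκ0, by linarith, ?_⟩
  intro A B hA hB hB1 i j x1 hx1
  -- the trivial bound
  have htriv : ‖∫ x : S n, Complex.exp (((ev A x / ev B x : ℝ) : ℂ) * Complex.I) ∂(sm n)‖ ≤ σ := by
    refine (norm_integral_le_of_norm_le_const (C := 1) (Eventually.of_forall fun x => ?_)).trans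
      (le_of_eq (one_mul _))
    rw [Complex.norm_exp_ofReal_mul_I]
  -- the maximum of the Wronskian
  obtain ⟨x2, hx2, hmax⟩ := (isCompact_sphere (0 : E n) 1).exists_isMaxOn
    ⟨x1, by simpa using hx1⟩ (continuous_ev (Wr i j A B)).abs.continuousOn
  have hx2' : ‖x2‖ = 1 := by simpa using hx2
  have hmax' : ∀ x : E n, ‖x‖ = 1 → |ev (Wr i j A B) x| ≤ |ev (Wr i j A B) x2| := by
    intro x hx
    exact hmax (show x ∈ Metric.sphere (0 : E n) 1 by simpa using hx)
  set L : ℝ := |ev (Wr i j A B) x2| with hL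
  have hL0 : 0 ≤ L := abs_nonneg _
  suffices hmain : ‖∫ x : S n, Complex.exp (((ev A x / ev B x : ℝ) : ℂ) * Complex.I) ∂(sm n)‖ ≤
      2 * K0 * (1 + L) ^ (-κ) by
    refine hmain.trans ?_
    have h1 : (1 + L) ^ (-κ) ≤ (1 + |ev (Wr i j A B) x1|) ^ (-κ) :=
      Real.rpow_le_rpow_of_nonpos (by positivity) (by linarith [hmax' x1 hx1]) (by linarith)
    gcongr
  rcases le_or_gt L 1 with hL1 | hL1
  · have h1 := pow_small hL0 hL1 hκ0 hκ1
    have h2 : σ ≤ K0 := by
      rw [hK0]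
      have : 0 ≤ M * (2 * C) * σ + MW * 2 ^ κW + 1 := by positivity
      linarith
    refine htriv.trans ?_
    nlinarith
  · -- the main case
    have hLp : 0 < L := by linarith
    have hij : i ≠ j := by
      rintro rfl
      rw [hL, Wr, Zp_self, Zp_self, zero_mul, mul_zero, sub_zero] at hL1
      simp [ev] at hL1
      linarith
    have hWne : ev (Wr i j A B) x2 ≠ 0 := by
      intro h0
      rw [hL, h0, abs_zero] at hLp
      exact lt_irrefl _ hLp
    obtain ⟨x3, hx3, hBne⟩ := exists_ne hij hx2' hWne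
    set β : ℝ := |ev B x3| with hβ
    have hβ0 : 0 < β := abs_pos.mpr hBne
    have hβ1 : β ≤ 1 := hB1 x3 hx3
    -- the cut of the denominator
    obtain ⟨t, ht0, ht1, htM⟩ := exists_cut (MB := MB) hκB (inv_pos.mpr hLp)
    set W : ℝ := L ^ (3 / 4 : ℝ) with hW
    have hW0 : 0 < W := Real.rpow_pos_of_pos hLp _
    have hb1 : Bd C (Zp i j B) := by
      intro x hx
      have h1 := hMaB B hB 1 i j hB1 x hx
      rw [mul_one] at h1
      exact h1.trans (le_max_left _ _)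
    have hw1 : Bd (C * L) (Zp i j (Wr i j A B)) := by
      intro x hx
      have h1 := hMaW (Wr i j A B) (deg_Wr i j A B hA hB) L i j (fun y hy => hmax' y hy) x hx
      exact h1.trans (mul_le_mul_of_nonneg_right (le_max_right _ _) hL0)
    have hsp : ∀ x : E n, x ∈ S n → ‖x‖ = 1 := fun x hx => by simpa using hx
    have h := hcore (on_qc hij) (ev A) (ev B) (ev (Zp i j A)) (ev (Zp i j B)) (ev (Wr i j A B))
      (ev (Zp i j (Wr i j A B))) C L W (t * β / 2) (continuous_ev _).continuousOn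
      (continuous_ev _).continuousOn (continuous_ev _).continuousOn (continuous_ev _).continuousOn
      (continuous_ev _).continuousOn (fun x _ s => ev_hasDerivAt hij A x s)
      (fun x _ s => ev_hasDerivAt hij B x s) (fun x _ s => ev_hasDerivAt hij _ x s)
      (fun x _ => ev_Wr i j A B x) hW0 (by positivity) (by nlinarith)
      (fun x hx => hB1 x (hsp x hx)) (fun x hx => hb1 x (hsp x hx)) (fun x hx => hw1 x (hsp x hx))
    -- the two small sets
    have hs1 : (sm n).real {x : S n | |ev B x| ≤ 2 * (t * β / 2)} ≤ L⁻¹ := by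
      have h1 := hSB B hB x3 hx3 hBne t ht0.le
      have h2 : 2 * (t * β / 2) = t * |ev B x3| := by
        rw [hβ]
        ring
      rw [h2]
      exact (ENNReal.toReal_le_of_le_ofReal (by positivity) h1).trans htM
    have hs2 : (sm n).real {x : S n | |ev (Wr i j A B) x| ≤ 2 * W} ≤ MW * 2 ^ κW * L ^ (-κ) := by
      have h1 := hSW (Wr i j A B) (deg_Wr i j A B hA hB) x2 hx2' hWne (2 * L ^ (-(1 / 4) : ℝ))
        (by positivity)
      have h2 : 2 * L ^ (-(1 / 4) : ℝ) * |ev (Wr i j A B) x2| = 2 * W := by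
        rw [← hL, hW, mul_assoc]
        congr 1
        rw [← Real.rpow_add_one hLp.ne']
        norm_num
      rw [h2] at h1
      refine (ENNReal.toReal_le_of_le_ofReal (by positivity) h1).trans ?_
      rw [Real.mul_rpow (by norm_num) (by positivity), ← Real.rpow_mul hL0, mul_assoc]
      gcongr
      · exact hL1.le
      · linarith
    have hL2 : C * L / W ^ 2 + C / W ≤ 2 * C * L ^ (-κ) := pow_terms hL1 hκ1 hC0
    have hL3 : L⁻¹ ≤ L ^ (-κ) := by
      rw [← Real.rpow_neg_one]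
      exact Real.rpow_le_rpow_of_exponent_le hL1.le (by linarith)
    have hLκ : 0 < L ^ (-κ) := Real.rpow_pos_of_pos hLp _
    have hfin : ‖∫ x : S n, Complex.exp (((ev A x / ev B x : ℝ) : ℂ) * Complex.I) ∂(sm n)‖ ≤
        K0 * L ^ (-κ) := by
      refine h.trans ?_
      have h1 : M * (C * L / W ^ 2 + C / W) * σ ≤ M * (2 * C * L ^ (-κ)) * σ := by gcongr
      rw [hK0]
      have h2 : 0 ≤ σ * L ^ (-κ) := by positivity
      nlinarith
    refine hfin.trans ?_
    have h9 : L ^ (-κ) ≤ 2 * (1 + L) ^ (-κ) := pow_cmp hL1 hκ0 hκ1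
    calc K0 * L ^ (-κ) ≤ K0 * (2 * (1 + L) ^ (-κ)) := by gcongr
      _ = _ := by ring

end Pool.Agent.VANn.RAT
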