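import Pool.Agent.RAT.N
import Pool.Agent.RAT.C
import Pool.Agent.RAT.I

/-! One constant for all rational phases: decay of the transform. -/

set_option autoImplicit false

namespace Pool.Agent.VANn.RAT

open MeasureTheory Set MvPolynomial Pool.Agent.MP_6cbfb8_an Pool.Agent.VANn.TM Filter Topology
open scoped ENNReal Real ContDiff RealInnerProductSpace

variable {n : ℕ}

/-- Decay of the transform. -/
theorem decay_rat (hn : 2 ≤ n) (D : ℕ) (c : ℝ) (hc : 0 < c) : ∃ K κ : ℝ, 0 < K ∧ 0 < κ ∧ κ ≤ 1 ∧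
    ∀ P Q : MvPolynomial (Fin n) ℝ, P.totalDegree ≤ D → Q.totalDegree ≤ D → Nm Q → ∀ L : ℝ, 0 ≤ L →
      (∀ (ξ : E n) (s : ℝ), ∃ x : E n, ‖x‖ = 1 ∧ c * (L + ‖ξ‖) ≤ |ev P x - (s + ⟪x, ξ⟫) * ev Q x|) →
      ∀ ξ : E n, ‖extn (fun x => Complex.exp (((ev P x / ev Q x : ℝ) : ℂ) * Complex.I)) ξ‖ ≤
        K * (1 + L + ‖ξ‖) ^ (-κ) := by
  obtain ⟨c1, hc1, HC⟩ := wron hn (D + 1)
  obtain ⟨K, κ, hK, hκ, hκ1, HI⟩ := decay_wr hn (D + 1)
  obtain ⟨M, κ', -, hκ', HS⟩ := sub_unif hn D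
  set m : ℝ := min 1 (c1 * c) with hm
  have hm0 : 0 < m := by positivity
  refine ⟨K * m ^ (-κ), κ, by positivity, hκ, hκ1, ?_⟩
  intro P Q hP hQ hN L hL H ξ
  set A : MvPolynomial (Fin n) ℝ := P - lin 0 ((2 * π) • ξ) * Q with hA
  have hAd : A.totalDegree ≤ D + 1 := by
    refine (totalDegree_sub _ _).trans (max_le (hP.trans (Nat.le_succ _)) ?_)
    refine (totalDegree_mul _ _).trans ?_
    have := lin_deg (0 : ℝ) ((2 * π) • ξ)
    omega
  have hAe : ∀ x : E n, ev A x = ev P x - 2 * π * ⟪x, ξ⟫ * ev Q x := by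
    intro x
    rw [hA, ev_sub', ev_mul', ev_lin, real_inner_smul_right]
    ring
  obtain ⟨i, j, x1, hx1, hw⟩ := HC A Q hAd (hQ.trans (Nat.le_succ _)) hN (c * (L + ‖(2 * π) • ξ‖))
    (fun t => by
      obtain ⟨x, hx, h⟩ := H ((2 * π) • ξ) t
      refine ⟨x, hx, h.trans (le_of_eq ?_)⟩
      rw [hAe, real_inner_smul_right]
      congr 1
      ring)
  have h1 := HI A Q hAd (hQ.trans (Nat.le_succ _)) hN.1 i j x1 hx1
  have hint : extn (fun x => Complex.exp (((ev P x / ev Q x : ℝ) : ℂ) * Complex.I)) ξ =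
      ∫ x : S n, Complex.exp (((ev A x / ev Q x : ℝ) : ℂ) * Complex.I) ∂(sm n) := by
    unfold extn
    refine integral_congr_ae ?_
    have h2 : ∀ᵐ x : S n ∂(sm n), ev Q x ≠ 0 := by
      obtain ⟨-, x2, hx2, he2⟩ := hN
      have h3 := HS Q hQ x2 hx2 (by
        intro h
        rw [h, abs_zero] at he2
        exact zero_ne_one he2) 0 le_rfl
      rw [Real.zero_rpow hκ'.ne', mul_zero, ENNReal.ofReal_zero] at h3
      rw [ae_iff]
      refine le_antisymm ((measure_mono ?_).trans h3) zero_le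
      intro x hx
      have h4 : ev Q x = 0 := not_not.1 hx
      simp [h4]
    filter_upwards [h2] with x hx
    have h4 : ev A x / ev Q x = ev P x / ev Q x + (-(2 * π * ⟪(x : E n), ξ⟫)) := by
      rw [hAe]
      field_simp
      ring
    rw [h4, ← Complex.exp_add]
    congr 1
    push_cast
    ring
  rw [hint]
  refine h1.trans ?_
  rw [mul_assoc]
  refine mul_le_mul_of_nonneg_left ?_ hK.le
  rw [← Real.mul_rpow hm0.le (by positivity)]
  refine Real.rpow_le_rpow_of_nonpos (by positivity) ?_ (by linarith)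
  have h5 : ‖(2 * π) • ξ‖ = 2 * π * ‖ξ‖ := by
    rw [norm_smul, Real.norm_eq_abs, abs_of_pos (by positivity)]
  have h6 : ‖ξ‖ ≤ 2 * π * ‖ξ‖ := by
    have := Real.pi_gt_three
    have := norm_nonneg ξ
    nlinarith
  have h7 : c1 * c * (L + ‖ξ‖) ≤ c1 * (c * (L + ‖(2 * π) • ξ‖)) := by
    rw [h5, ← mul_assoc]
    exact mul_le_mul_of_nonneg_left (by linarith) (by positivity)
  have h8 : m * (L + ‖ξ‖) ≤ c1 * c * (L + ‖ξ‖) :=
    mul_le_mul_of_nonneg_right (min_le_right _ _) (by positivity)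
  have h9 : m ≤ 1 := min_le_left _ _
  nlinarith

end Pool.Agent.VANn.RAT
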