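import Pool.Agent.VANn.TU6
import Pool.Agent.VANn.RD
import Pool.Agent.VANn.BVd

/-! One constant for all rational phases of degree at most `D`, all dimensions: definitions. -/

set_option autoImplicit false

namespace Pool.Agent.VANn.RAT

open MeasureTheory Set MvPolynomial Pool.Agent.MP_6cbfb8_an Pool.Agent.VANn.TM Filter Topology
open Pool.Agent.GNP (BVn)
open scoped ENNReal Real ContDiff RealInnerProductSpace

variable {n : ℕ}

/-- `|P| ≤ M` on the sphere -/
def Bd (M : ℝ) (P : MvPolynomial (Fin n) ℝ) : Prop := ∀ x : E n, ‖x‖ = 1 → |ev P x| ≤ M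

/-- the supremum of `|P|` on the sphere is one -/
def Nm (P : MvPolynomial (Fin n) ℝ) : Prop := Bd 1 P ∧ ∃ x : E n, ‖x‖ = 1 ∧ |ev P x| = 1

/-- the derivative along the rotation in the plane of the coordinates `i`, `j` -/
noncomputable def Zp (i j : Fin n) (P : MvPolynomial (Fin n) ℝ) : MvPolynomial (Fin n) ℝ :=
  X i * pderiv j P - X j * pderiv i P

/-- the Wronskian -/
noncomputable def Wr (i j : Fin n) (P Q : MvPolynomial (Fin n) ℝ) : MvPolynomial (Fin n) ℝ :=
  Zp i j P * Q - P * Zp i j Q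

/-- the polynomial `t + <x, ζ>` -/
noncomputable def lin (t : ℝ) (ζ : E n) : MvPolynomial (Fin n) ℝ := C t + ∑ i, C (ζ i) * X i

end Pool.Agent.VANn.RAT
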