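import Pool.Agent.VANn.TA4

/-!
Quotients `P / Q` of polynomials are tame, with constants which depend only on the degree, the size
of `Q` and the measure of the sets where `Q` is small.
-/

set_option autoImplicit false

namespace Pool.Agent.VANn.TM

open MeasureTheory Set MvPolynomial Pool.Agent.MP_6cbfb8_an Filter Topology
open scoped ENNReal Real

variable {n : ℕ}

/-- the Taylor polynomial of `1 / t` at `t0`, composed with `Q` -/
noncomputable def rqi (Q : MvPolynomial (Fin n) ℝ) (t0 : ℝ) (A : ℕ) : MvPolynomial (Fin n) ℝ :=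
  ∑ i ∈ Finset.range (A + 1), C ((-1) ^ i / t0 ^ (i + 1)) * (Q - C t0) ^ i

lemma rqi_deg {Q : MvPolynomial (Fin n) ℝ} {D0 : ℕ} (hQ : Q.totalDegree ≤ D0) (t0 : ℝ) (A : ℕ) :
    (rqi Q t0 A).totalDegree ≤ A * D0 := by
  unfold rqi
  refine totalDegree_finsetSum_le fun i hi => ?_
  refine (totalDegree_mul _ _).trans ?_
  rw [totalDegree_C, zero_add]
  refine (totalDegree_pow _ _).trans ?_
  refine Nat.mul_le_mul (Nat.lt_succ_iff.1 (Finset.mem_range.1 hi)) ?_
  refine (totalDegree_sub _ _).trans (max_le hQ ?_)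
  rw [totalDegree_C]
  exact Nat.zero_le _

lemma rqi_ev (Q : MvPolynomial (Fin n) ℝ) (t0 : ℝ) (A : ℕ) (x : E n) :
    ev (rqi Q t0 A) x = ∑ i ∈ Finset.range (A + 1), (-1) ^ i / t0 ^ (i + 1) * (ev Q x - t0) ^ i := by
  unfold rqi ev
  rw [map_sum]
  refine Finset.sum_congr rfl fun i _ => ?_
  rw [map_mul, eval_C, map_pow, map_sub, eval_C]

lemma rqi_err {t t0 : ℝ} (ht : t ≠ 0) (ht0 : t0 ≠ 0) (A : ℕ) :
    1 / t - ∑ i ∈ Finset.range (A + 1), (-1) ^ i / t0 ^ (i + 1) * (t - t0) ^ i =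
      (-((t - t0) / t0)) ^ (A + 1) / t := by
  have h1 : ∀ i, (-1 : ℝ) ^ i / t0 ^ (i + 1) * (t - t0) ^ i = (-((t - t0) / t0)) ^ i / t0 := by
    intro i
    rw [neg_pow ((t - t0) / t0), div_pow, pow_succ]
    field_simp
  simp only [h1]
  rw [← Finset.sum_div]
  have hx : -((t - t0) / t0) ≠ 1 := by
    intro h
    rw [neg_eq_iff_eq_neg, div_eq_iff ht0] at h
    exact ht (by linarith)
  rw [geom_sum_eq hx]
  have h2 : -((t - t0) / t0) - 1 = -(t / t0) := by field_simp; ring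
  rw [h2]
  field_simp
  ring

/-- **Quotients of polynomials are tame**, with constants which depend on the degree, the size of
the denominator and its sublevel sets only. -/
theorem tame_div_unif (D0 : ℕ) (H M κ η : ℝ) (hH : 1 ≤ H) (hκ : 0 < κ) (hη : 0 < η) : ∃ (D N : ℕ) (C : ℝ), 0 < C ∧ ∀ P Q : MvPolynomial (Fin n) ℝ,
      P.totalDegree ≤ D0 → Q.totalDegree ≤ D0 → (∀ x : E n, ‖x‖ = 1 → |ev P x| ≤ 1) →
      (∀ x : E n, ‖x‖ = 1 → |ev Q x| ≤ H) →
      (∀ t : ℝ, 0 ≤ t → sm n {x : S n | |ev Q x| ≤ t} ≤ ENNReal.ofReal (M * t ^ κ)) →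
      TameAt η D N C fun x => ev P x / ev Q x := by
  classical
  obtain ⟨A, hA⟩ := exists_nat_ge (2 * (1 + 1 / κ) / η)
  obtain ⟨θ, hθ⟩ : ∃ θ : ℝ, θ = κ * η / 2 := ⟨_, rfl⟩
  have hθ0 : 0 < θ := by rw [hθ]; positivity
  have hl2 : 0 < Real.log 2 := Real.log_pos (by norm_num)
  have hH0 : 0 < H := by linarith
  obtain ⟨C1, hC1⟩ : ∃ C1 : ℝ, C1 = 4 * ((θ * Real.log 2)⁻¹ * (2 * H) ^ θ) := ⟨_, rfl⟩
  have hC10 : 0 < C1 := by rw [hC1]; positivity
  refine ⟨D0 + A * D0, 2, max C1 M, lt_of_lt_of_le hC10 (le_max_left _ _),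
    fun P Q hP hQ hP1 hQH hsub δ hδ hδ1 => ?_⟩
  -- the cut-off
  obtain ⟨τ, hτ⟩ : ∃ τ : ℝ, τ = δ ^ (1 / κ) := ⟨_, rfl⟩
  have hτ0 : 0 < τ := by rw [hτ]; positivity
  have hτ1 : τ ≤ 1 := by rw [hτ]; exact Real.rpow_le_one hδ.le hδ1 (by positivity)
  obtain ⟨N, hN1, hN2⟩ := ceil_log (Y := H / τ) (by
    rw [le_div_iff₀ hτ0]; linarith)
  -- the number of the intervals in a dyadic interval
  have hA1 : (0:ℝ) < A + 1 := by positivity
  obtain ⟨Y, hY⟩ : ∃ Y : ℝ, Y = (δ ^ (-(1 + 1 / κ))) ^ (1 / ((A:ℝ) + 1)) := ⟨_, rfl⟩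
  have hδa : 1 ≤ δ ^ (-(1 + 1 / κ)) :=
    Real.one_le_rpow_of_pos_of_le_one_of_nonpos hδ hδ1 (by
      have : 0 ≤ 1 / κ := by positivity
      linarith)
  have hY1 : 1 ≤ Y := by
    rw [hY]
    exact Real.one_le_rpow hδa (by positivity)
  obtain ⟨K, hK⟩ : ∃ K : ℕ, K = ⌈Y⌉₊ := ⟨_, rfl⟩
  have hKY : Y ≤ K := by rw [hK]; exact Nat.le_ceil _
  have hK2 : (K : ℝ) ≤ 2 * Y := by
    rw [hK]
    have := Nat.ceil_lt_add_one (show 0 ≤ Y by linarith)
    linarith
  have hK0 : (0:ℝ) < K := by linarith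
  have hKA : 1 / (τ * δ) ≤ (K:ℝ) ^ (A + 1) := by
    have h1 : Y ^ (A + 1) ≤ (K:ℝ) ^ (A + 1) := pow_le_pow_left₀ (by linarith) hKY _
    have h2 : Y ^ (A + 1) = δ ^ (-(1 + 1 / κ)) := by
      rw [hY, ← Real.rpow_natCast, ← Real.rpow_mul (by positivity)]
      push_cast
      rw [one_div_mul_cancel hA1.ne', Real.rpow_one]
    have h3 : δ ^ (-(1 + 1 / κ)) = 1 / (τ * δ) := by
      rw [Real.rpow_neg hδ.le, Real.rpow_add hδ, Real.rpow_one, ← hτ, one_div, mul_comm]
    rw [← h3, ← h2]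
    exact h1
  have hYη : Y ≤ δ ^ (-(η / 2)) := by
    rw [hY, ← Real.rpow_mul hδ.le]
    refine Real.rpow_le_rpow_of_exponent_ge hδ hδ1 ?_
    rw [div_le_iff₀ hη] at hA
    have h1 : (1 + 1 / κ) * (1 / ((A:ℝ) + 1)) ≤ η / 2 := by
      rw [mul_one_div, div_le_iff₀ hA1]
      nlinarith
    linarith
  obtain ⟨r, hr⟩ : ∃ r : ℝ, r = 1 + 1 / K := ⟨_, rfl⟩
  have hr1 : 1 ≤ r := by
    rw [hr]
    have : 0 ≤ 1 / (K:ℝ) := by positivity
    linarith
  have hr0 : 0 < r := by linarith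
  have hrK : 2 ≤ r ^ K := by
    have h1 := one_add_mul_le_pow (a := 1 / (K:ℝ)) (by
      have : 0 ≤ 1 / (K:ℝ) := by positivity
      linarith) K
    rw [mul_one_div_cancel hK0.ne'] at h1
    rw [hr]
    linarith
  obtain ⟨J, hJ⟩ : ∃ J : ℕ, J = K * N := ⟨_, rfl⟩
  have hJ1 : H ≤ τ * r ^ J := by
    rw [div_le_iff₀ hτ0] at hN1
    have h1 : (2:ℝ) ^ N ≤ r ^ J := by
      rw [hJ, pow_mul]
      exact pow_le_pow_left₀ (by norm_num) hrK _
    calc H ≤ 2 ^ N * τ := hN1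
      _ ≤ r ^ J * τ := by gcongr
      _ = τ * r ^ J := mul_comm _ _
  -- the cells
  obtain ⟨sg, hsg⟩ : ∃ sg : Bool → ℝ, sg = fun b => if b then 1 else -1 := ⟨_, rfl⟩
  have hsg2 : ∀ b, sg b * sg b = 1 := by intro b; rw [hsg]; cases b <;> simp
  obtain ⟨q, hq⟩ : ∃ q : Bool × ℕ → Fin 2 → MvPolynomial (Fin n) ℝ, q = fun i =>
    ![C (sg i.1) * Q - C (τ * r ^ i.2), C (sg i.1) * Q - C (τ * r ^ (i.2 + 1))] := ⟨_, rfl⟩
  obtain ⟨Jf, hJf⟩ : ∃ Jf : ℝ → ℝ → ℝ, Jf = fun a t => if a < t then 1 else 0 := ⟨_, rfl⟩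
  have hbc : ∀ (i : Bool × ℕ) (x : E n), bc (q i) ![true, false] x =
      Jf (τ * r ^ i.2) (sg i.1 * ev Q x) - Jf (τ * r ^ (i.2 + 1)) (sg i.1 * ev Q x) := by
    intro i x
    unfold bc
    rw [Fin.prod_univ_two]
    have e1 : ev (q i 0) x = sg i.1 * ev Q x - τ * r ^ i.2 := by
      rw [hq]
      unfold ev
      simp
    have e2 : ev (q i 1) x = sg i.1 * ev Q x - τ * r ^ (i.2 + 1) := by
      rw [hq]
      unfold ev
      simp
    rw [e1, e2, hJf]
    have hle : τ * r ^ i.2 ≤ τ * r ^ (i.2 + 1) :=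
      mul_le_mul_of_nonneg_left (pow_le_pow_right₀ hr1 (Nat.le_succ _)) hτ0.le
    simp only [Matrix.cons_val_zero, Matrix.cons_val_one, if_true, Bool.false_eq_true, if_false,
      sub_pos]
    by_cases h1 : τ * r ^ i.2 < sg i.1 * ev Q x
    · by_cases h2 : τ * r ^ (i.2 + 1) < sg i.1 * ev Q x
      · simp [h1, h2]
      · simp [h1, h2]
    · have h2 : ¬ τ * r ^ (i.2 + 1) < sg i.1 * ev Q x := fun h3 => h1 (by linarith)
      simp [h1, h2]
  have hsum : ∀ x : E n, ‖x‖ = 1 → ∑ i ∈ Finset.univ ×ˢ Finset.range J,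
      bc (q i) ![true, false] x = Jf τ (ev Q x) + Jf τ (-ev Q x) := by
    intro x hx
    rw [Finset.sum_product]
    have h1 : ∀ b : Bool, ∑ j ∈ Finset.range J, bc (q (b, j)) ![true, false] x =
        Jf τ (sg b * ev Q x) := by
      intro b
      simp only [hbc]
      rw [Finset.sum_range_sub' (fun j => Jf (τ * r ^ j) (sg b * ev Q x)), pow_zero, mul_one]
      have h2 : Jf (τ * r ^ J) (sg b * ev Q x) = 0 := by
        rw [hJf]
        refine if_neg (not_lt.2 (le_trans ?_ hJ1))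
        refine le_trans (le_abs_self _) ?_
        rw [abs_mul]
        have h3 : |sg b| = 1 := by rw [hsg]; cases b <;> simp
        rw [h3, one_mul]
        exact hQH x hx
      rw [h2, sub_zero]
    simp only [h1]
    rw [Fintype.sum_bool, hsg]
    simp
  have hT : ∀ i : Bool × ℕ, ∀ x : E n, ‖x‖ = 1 → bc (q i) ![true, false] x ≠ 0 →
      |ev P x / ev Q x - ev (P * rqi Q (sg i.1 * (τ * r ^ i.2)) A) x| ≤ δ := by
    intro i x hx h0
    rw [hbc, hJf] at h0
    have ha : 0 < τ * r ^ i.2 := by positivity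
    have h1 : τ * r ^ i.2 < sg i.1 * ev Q x := by
      by_contra h1
      have h2 : ¬ τ * r ^ (i.2 + 1) < sg i.1 * ev Q x := fun h3 => h1 (by
        have hle : τ * r ^ i.2 ≤ τ * r ^ (i.2 + 1) :=
          mul_le_mul_of_nonneg_left (pow_le_pow_right₀ hr1 (Nat.le_succ _)) hτ0.le
        linarith)
      refine h0 ?_
      simp [h1, h2]
    have h2 : sg i.1 * ev Q x ≤ τ * r ^ (i.2 + 1) := by
      by_contra h2
      push Not at h2
      refine h0 ?_
      simp [h1, h2]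
    obtain ⟨a, haa⟩ : ∃ a : ℝ, a = τ * r ^ i.2 := ⟨_, rfl⟩
    rw [pow_succ, ← mul_assoc, ← haa, hr] at h2
    rw [← haa] at h1 ha ⊢
    have haτ : τ ≤ a := by
      rw [haa]
      exact le_mul_of_one_le_right hτ0.le (one_le_pow₀ hr1)
    have ht : ev Q x ≠ 0 := by
      intro h3
      rw [h3, mul_zero] at h1
      linarith
    have hs : |sg i.1| = 1 := by rw [hsg]; cases i.1 <;> simp
    have hs0 : sg i.1 ≠ 0 := fun h => by rw [h, abs_zero] at hs; exact zero_ne_one hs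
    have ht0 : sg i.1 * a ≠ 0 := mul_ne_zero hs0 ha.ne'
    have e1 : ev P x / ev Q x - ev (P * rqi Q (sg i.1 * a) A) x =
        ev P x * ((-((ev Q x - sg i.1 * a) / (sg i.1 * a))) ^ (A + 1) / ev Q x) := by
      rw [← rqi_err ht ht0 A]
      have : ev (P * rqi Q (sg i.1 * a) A) x = ev P x * ev (rqi Q (sg i.1 * a) A) x := by
        unfold ev
        rw [map_mul]
      rw [this, rqi_ev]
      ring
    rw [e1, abs_mul, abs_div, abs_pow, abs_neg, abs_div]
    have h3 : |ev Q x - sg i.1 * a| ≤ a / K := by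
      have h4 : ev Q x - sg i.1 * a = sg i.1 * (sg i.1 * ev Q x - a) := by
        rw [mul_sub, ← mul_assoc, hsg2, one_mul]
      rw [h4, abs_mul, hs, one_mul, abs_of_pos (by linarith)]
      have : a * (1 + 1 / K) = a + a / K := by ring
      linarith
    have h5 : |sg i.1 * a| = a := by rw [abs_mul, hs, one_mul, abs_of_pos ha]
    have h6 : τ ≤ |ev Q x| := by
      have : sg i.1 * ev Q x ≤ |sg i.1 * ev Q x| := le_abs_self _
      rw [abs_mul, hs, one_mul] at this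
      linarith
    have h7 : |ev Q x - sg i.1 * a| / |sg i.1 * a| ≤ 1 / K := by
      rw [h5, div_le_iff₀ ha]
      calc |ev Q x - sg i.1 * a| ≤ a / K := h3
        _ = 1 / K * a := by ring
    have h8 : 1 / (K:ℝ) ^ (A + 1) ≤ τ * δ := by
      rw [div_le_iff₀ (by positivity)] at hKA ⊢
      linarith
    calc |ev P x| * ((|ev Q x - sg i.1 * a| / |sg i.1 * a|) ^ (A + 1) / |ev Q x|)
        ≤ 1 * ((1 / (K:ℝ)) ^ (A + 1) / τ) := by
          refine mul_le_mul (hP1 x hx) ?_ (by positivity) zero_le_one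
          refine div_le_div₀ (by positivity) (pow_le_pow_left₀ (by positivity) h7 _) hτ0 h6
      _ = (1 / (K:ℝ) ^ (A + 1)) / τ := by rw [one_mul, div_pow, one_pow]
      _ ≤ (τ * δ) / τ := by gcongr
      _ = δ := by field_simp
  refine ⟨Bool × ℕ, Finset.univ ×ˢ Finset.range J,
    fun i => P * rqi Q (sg i.1 * (τ * r ^ i.2)) A, q, fun _ => ![true, false], ?_, ?_, ?_, ?_, ?_, ?_⟩
  · -- the number of cells
    rw [Finset.card_product, Finset.card_range]
    have hcB : (Finset.univ : Finset Bool).card = 2 := rfl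
    rw [hcB, hJ]
    push_cast
    have h1 : (N : ℝ) ≤ (θ * Real.log 2)⁻¹ * (2 * H) ^ θ * δ ^ (-(η / 2)) := by
      refine (nat_le_pow hθ0 N).trans ?_
      rw [mul_assoc]
      refine mul_le_mul_of_nonneg_left ?_ (by positivity)
      calc ((2:ℝ) ^ N) ^ θ ≤ (2 * (H / τ)) ^ θ := Real.rpow_le_rpow (by positivity) hN2 hθ0.le
        _ = (2 * H) ^ θ * δ ^ (-(η / 2)) := by
            have e1 : 2 * (H / τ) = (2 * H) / τ := by ring
            rw [e1, Real.div_rpow (by positivity) hτ0.le, hτ, ← Real.rpow_mul hδ.le, div_eq_mul_inv,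
              ← Real.rpow_neg hδ.le]
            congr 2
            rw [hθ]
            field_simp
    have e2 : δ ^ (-(η / 2)) * δ ^ (-(η / 2)) = δ ^ (-η) := by
      rw [← Real.rpow_add hδ]
      congr 1
      ring
    calc (2:ℝ) * (K * N) ≤ 2 * ((2 * δ ^ (-(η / 2))) *
          ((θ * Real.log 2)⁻¹ * (2 * H) ^ θ * δ ^ (-(η / 2)))) := by
          gcongr
          exact hK2.trans (by gcongr)
      _ = C1 * (δ ^ (-(η / 2)) * δ ^ (-(η / 2))) := by rw [hC1]; ring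
      _ = C1 * δ ^ (-η) := by rw [e2]
      _ ≤ _ := by gcongr; exact le_max_left _ _
  · intro i _
    exact (totalDegree_mul _ _).trans (add_le_add hP (rqi_deg hQ _ _))
  · intro i _ l
    have h1 : ∀ a : ℝ, (C (sg i.1) * Q - C a : MvPolynomial (Fin n) ℝ).totalDegree ≤ D0 + A * D0 := by
      intro a
      refine (totalDegree_sub _ _).trans (max_le ?_ ?_)
      · refine (totalDegree_mul _ _).trans ?_
        rw [totalDegree_C, zero_add]
        exact hQ.trans (Nat.le_add_right _ _)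
      · rw [totalDegree_C]; exact Nat.zero_le _
    rw [hq]
    fin_cases l
    · exact h1 _
    · exact h1 _
  · intro x hx
    rw [hsum x hx, hJf]
    by_cases h1 : τ < ev Q x
    · have h2 : ¬ τ < -ev Q x := by intro h2; linarith
      simp [h1, h2]
    · by_cases h2 : τ < -ev Q x
      · simp [h1, h2]
      · simp [h1, h2]
  · intro x hx i _ h0
    exact hT i x hx h0
  · have hsub2 : {x : S n | ∑ i ∈ Finset.univ ×ˢ Finset.range J,
        bc (q i) ![true, false] (x : E n) ≠ 1} ⊆ {x : S n | |ev Q (x : E n)| ≤ τ} := by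
      intro x hx
      have hx' : ‖(x : E n)‖ = 1 := mem_sphere_zero_iff_norm.1 x.2
      show |ev Q (x : E n)| ≤ τ
      by_contra hcon
      push Not at hcon
      refine hx ?_
      rw [hsum x hx', hJf]
      rcases lt_abs.1 hcon with h1 | h1
      · have h2 : ¬ τ < -ev Q (x : E n) := by intro h2; linarith
        simp [h1, h2]
      · have h2 : ¬ τ < ev Q (x : E n) := by intro h2; linarith
        simp [h1, h2]
    refine (measure_mono hsub2).trans ((hsub τ hτ0.le).trans (ENNReal.ofReal_le_ofReal ?_))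
    have e1 : τ ^ κ = δ := by
      rw [hτ, ← Real.rpow_mul hδ.le, one_div_mul_cancel hκ.ne', Real.rpow_one]
    rw [e1]
    gcongr
    exact le_max_right _ _

end Pool.Agent.VANn.TM
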