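import Pool.Agent.RAT.Defs
import Pool.Agent.RAT.T0

/-!
Rational functions are tame, with constants which depend on the degree only.
-/

set_option autoImplicit false

namespace Pool.Agent.VANn.RAT

open MeasureTheory Set MvPolynomial Pool.Agent.MP_6cbfb8_an Pool.Agent.VANn.TM Filter Topology
open scoped ENNReal Real ContDiff RealInnerProductSpace

variable {n : ℕ}

/-- Row T, from the uniform bound for sublevel sets. -/
theorem tame_rat_of {D : ℕ} (hS : ∃ M κ : ℝ, 0 ≤ M ∧ 0 < κ ∧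
    ∀ P : MvPolynomial (Fin n) ℝ, P.totalDegree ≤ D → ∀ x1 : E n, ‖x1‖ = 1 → ev P x1 ≠ 0 →
      ∀ t : ℝ, 0 ≤ t → sm n {x : S n | |ev P x| ≤ t * |ev P x1|} ≤ ENNReal.ofReal (M * t ^ κ))
    (η : ℝ) (hη : 0 < η) : ∃ (D' N : ℕ) (C : ℝ), 0 < C ∧
    ∀ P Q : MvPolynomial (Fin n) ℝ, P.totalDegree ≤ D → Q.totalDegree ≤ D → Bd 1 P → Nm Q →
      TameAt η D' N C fun x => ev P x / ev Q x := by
  obtain ⟨M, κ, _, hκ, hS⟩ := hS
  obtain ⟨D', N, C, hC, H⟩ := tame_div_unif (n := n) D 1 M κ η le_rfl hκ hη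
  refine ⟨D', N, C, hC, fun P Q hP hQ hP1 hQ1 => H P Q hP hQ hP1 hQ1.1 fun t ht => ?_⟩
  obtain ⟨x1, hx1, h1⟩ := hQ1.2
  have h2 := hS Q hQ x1 hx1 (fun h => by rw [h, abs_zero] at h1; exact zero_ne_one h1) t ht
  rw [h1, mul_one] at h2
  exact h2

end Pool.Agent.VANn.RAT
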