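import Pool.Agent.RAT.F0
import Pool.Agent.RAT.D
import Pool.Agent.RAT.T

/-!
One constant for all rational phases of degree at most `D` and all amplitudes of variation at most `V`.
-/

set_option autoImplicit false

namespace Pool.Agent.VANn.RAT

open MeasureTheory Set MvPolynomial Pool.Agent.MP_6cbfb8_an Pool.Agent.VANn.TM Filter Topology
open Pool.Agent.GNP (BVn)
open scoped ENNReal Real ContDiff RealInnerProductSpace

/-- One constant for all rational phases of degree at most `D` and all amplitudes of variation at most `V`. -/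
theorem rational {m : ℕ} (hm : 2 ≤ m) (H : CoreA m) (D : ℕ) (V p : ℝ)
    (hp : 2 * ((m : ℝ) + 1) / m < p) : ∃ C : ℝ≥0∞, C ≠ ⊤ ∧
    ∀ P Q : MvPolynomial (Fin (m + 1)) ℝ, P.totalDegree ≤ D → Q.totalDegree ≤ D →
      (∃ x : E (m + 1), ‖x‖ = 1 ∧ ev Q x ≠ 0) → ∀ w : E (m + 1) → ℂ, Measurable w → (∀ x, ‖w x‖ ≤ 1) →
      BVn (m + 1) 1 V w →
      ∫⁻ ξ, ‖extn (fun x => w x * Complex.exp (((ev P x / ev Q x : ℝ) : ℂ) * Complex.I)) ξ‖ₑ ^ p ≤ C :=
  rational_of hm H D V p hp (sub_unif (by omega) D) (normal (by omega) D)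
    (fun c hc => decay_rat (by omega) (D + 1) c hc)
    (fun η hη => tame_rat_of (sub_unif (by omega) (D + 1)) η hη)

end Pool.Agent.VANn.RAT
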