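import Pool.Agent.RAT.Defs

/-!
One constant for all rational phases of degree at most `D`: assembly, over the other rows.
-/

set_option autoImplicit false

namespace Pool.Agent.VANn.RAT

open MeasureTheory Set MvPolynomial Pool.Agent.MP_6cbfb8_an Pool.Agent.VANn.TM Filter Topology
open Pool.Agent.GNP (BVn)
open scoped ENNReal Real ContDiff RealInnerProductSpace

variable {n : ℕ}

theorem f_ev_C_mul (a : ℝ) (T : MvPolynomial (Fin n) ℝ) (x : E n) : ev (C a * T) x = a * ev T x := by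
  simp [ev]

theorem f_ev_lin (t : ℝ) (ζ x : E n) : ev (lin t ζ) x = t + inner ℝ x ζ := by
  simp only [ev, lin, map_add, map_sum, map_mul, eval_C, eval_X, PiLp.inner_apply, add_right_inj]
  refine Finset.sum_congr rfl fun i _ => ?_
  simp

theorem f_extn_ae {g g' : E n → ℂ} (h : ∀ᵐ x : S n ∂(sm n), g x = g' x) (ξ : E n) :
    extn g ξ = extn g' ξ := by
  unfold extn
  refine integral_congr_ae ?_
  filter_upwards [h] with x hx
  rw [hx]

theorem f_cont_ev (Q : MvPolynomial (Fin n) ℝ) : Continuous (ev Q) := by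
  unfold ev
  exact (MvPolynomial.continuous_eval Q).comp (by fun_prop)

/-- The assembly, over the other rows. -/
theorem rational_of {m : ℕ} (hm : 2 ≤ m) (H : CoreA m) (D : ℕ) (V p : ℝ)
    (hp : 2 * ((m : ℝ) + 1) / m < p)
    (hsub : ∃ M κ : ℝ, 0 ≤ M ∧ 0 < κ ∧
      ∀ P : MvPolynomial (Fin (m + 1)) ℝ, P.totalDegree ≤ D → ∀ x1 : E (m + 1), ‖x1‖ = 1 →
        ev P x1 ≠ 0 → ∀ t : ℝ, 0 ≤ t →
        sm (m + 1) {x : S (m + 1) | |ev P x| ≤ t * |ev P x1|} ≤ ENNReal.ofReal (M * t ^ κ))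
    (hnormal : ∃ c : ℝ, 0 < c ∧ ∀ P Q : MvPolynomial (Fin (m + 1)) ℝ,
      P.totalDegree ≤ D → Q.totalDegree ≤ D → Nm Q →
      ∃ (P' : MvPolynomial (Fin (m + 1)) ℝ) (ζ : E (m + 1)) (t L : ℝ), P'.totalDegree ≤ D + 1 ∧
        P = P' + lin t ζ * Q ∧ 0 ≤ L ∧ Bd L P' ∧
        ∀ (ξ : E (m + 1)) (s : ℝ), ∃ x : E (m + 1), ‖x‖ = 1 ∧
          c * (L + ‖ξ‖) ≤ |ev P' x - (s + ⟪x, ξ⟫) * ev Q x|)
    (hdec : ∀ c : ℝ, 0 < c → ∃ K κ : ℝ, 0 < K ∧ 0 < κ ∧ κ ≤ 1 ∧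
      ∀ P Q : MvPolynomial (Fin (m + 1)) ℝ, P.totalDegree ≤ D + 1 → Q.totalDegree ≤ D + 1 → Nm Q →
      ∀ L : ℝ, 0 ≤ L →
      (∀ (ξ : E (m + 1)) (s : ℝ), ∃ x : E (m + 1), ‖x‖ = 1 ∧
        c * (L + ‖ξ‖) ≤ |ev P x - (s + ⟪x, ξ⟫) * ev Q x|) →
      ∀ ξ : E (m + 1), ‖extn (fun x => Complex.exp (((ev P x / ev Q x : ℝ) : ℂ) * Complex.I)) ξ‖ ≤
        K * (1 + L + ‖ξ‖) ^ (-κ))
    (htame : ∀ η : ℝ, 0 < η → ∃ (D' N : ℕ) (C : ℝ), 0 < C ∧
      ∀ P Q : MvPolynomial (Fin (m + 1)) ℝ, P.totalDegree ≤ D + 1 → Q.totalDegree ≤ D + 1 →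
        Bd 1 P → Nm Q → TameAt η D' N C fun x => ev P x / ev Q x) :
    ∃ C : ℝ≥0∞, C ≠ ⊤ ∧
    ∀ P Q : MvPolynomial (Fin (m + 1)) ℝ, P.totalDegree ≤ D → Q.totalDegree ≤ D →
      (∃ x : E (m + 1), ‖x‖ = 1 ∧ ev Q x ≠ 0) → ∀ w : E (m + 1) → ℂ, Measurable w →
      (∀ x, ‖w x‖ ≤ 1) → BVn (m + 1) 1 V w →
      ∫⁻ ξ, ‖extn (fun x => w x *
        Complex.exp (((ev P x / ev Q x : ℝ) : ℂ) * Complex.I)) ξ‖ₑ ^ p ≤ C := by
  obtain ⟨j, rfl⟩ : ∃ j, m = j + 1 := ⟨m - 1, by omega⟩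
  obtain ⟨p0, hp0⟩ : ∃ p0 : ℝ, p0 = 2 * (((j + 1 : ℕ) : ℝ) + 1) / ((j + 1 : ℕ) : ℝ) := ⟨_, rfl⟩
  have h1p0 : 1 ≤ p0 := by
    have hk : (0:ℝ) ≤ j := Nat.cast_nonneg j
    rw [hp0]
    push_cast
    rw [le_div_iff₀ (by positivity)]
    linarith
  rw [← hp0] at hp
  set V' : ℝ := max V 1 with hV'
  have hV1 : 1 ≤ V' := le_max_right _ _
  obtain ⟨Ms, κs, hMs, hκs, hS⟩ := hsub
  obtain ⟨c, hc, hN⟩ := hnormal
  obtain ⟨K, κ, hK, hκ, hκ1, hD⟩ := hdec c hc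
  obtain ⟨C0, hC0, hbv⟩ := bv_decay j
  set κ' : ℝ := κ * 1 / (2 * ((j : ℝ) + 2)) with hκ'
  have hκ'0 : 0 < κ' := by positivity
  set p1 : ℝ := (p0 + p) / 2 with hp1
  have h01 : p0 < p1 := by rw [hp1]; linarith
  have h1p : p1 < p := by rw [hp1]; linarith
  set ε : ℝ := κ' * (p - p1) with hε
  have hε0 : 0 < ε := mul_pos hκ'0 (by linarith)
  obtain ⟨η, hη, HT⟩ := tame_loss_u_cls (n := j + 1 + 1) h1p0
    (cls := fun a => Measurable a ∧ (∀ x, ‖a x‖ ≤ 1) ∧ BVn (j + 1 + 1) 1 V' a)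
    (fun a ha => ⟨ha.1, ha.2.1⟩) (by rw [hp0]; exact baseA_bv hm H V') p1 ε h01 hε0
  obtain ⟨D', N, C1, hC1, hTm⟩ := htame η hη
  obtain ⟨C2, hC2, hL⟩ := HT D' N C1 hC1
  set K' : ℝ := C0 * max K 1 * V' with hK'
  have hK'0 : 0 ≤ K' := by positivity
  refine ⟨ENNReal.ofReal (K' ^ (p - p1)) * (C2 * ENNReal.ofReal (2 ^ ε)),
    ENNReal.mul_ne_top ENNReal.ofReal_ne_top (ENNReal.mul_ne_top hC2 ENNReal.ofReal_ne_top), ?_⟩
  intro P Q hPd hQd ⟨x0, hx0, hQx0⟩ w hwm hw1 hbvw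
  -- normalisation of the denominator
  obtain ⟨x1, hx1, hmax⟩ := (isCompact_sphere (0 : E (j + 1 + 1)) 1).exists_isMaxOn
    ⟨x0, by simpa using hx0⟩ (f := fun x => |ev Q x|) (f_cont_ev Q).abs.continuousOn
  have hx1' : ‖x1‖ = 1 := by simpa using hx1
  obtain ⟨q, hq⟩ : ∃ q : ℝ, q = |ev Q x1| := ⟨_, rfl⟩
  have hq0 : 0 < q := by
    have h1 : |ev Q x0| ≤ |ev Q x1| := hmax (by simpa using hx0 : x0 ∈ Metric.sphere (0 : E (j + 1 + 1)) 1)
    rw [hq]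
    exact lt_of_lt_of_le (abs_pos.2 hQx0) h1
  have hqle : ∀ x : E (j + 1 + 1), ‖x‖ = 1 → |ev Q x| ≤ q := by
    intro x hx
    rw [hq]
    exact hmax (by simpa using hx : x ∈ Metric.sphere (0 : E (j + 1 + 1)) 1)
  set Q0 : MvPolynomial (Fin (j + 1 + 1)) ℝ := C q⁻¹ * Q with hQ0
  set P0 : MvPolynomial (Fin (j + 1 + 1)) ℝ := C q⁻¹ * P with hP0
  have hQ0d : Q0.totalDegree ≤ D := (totalDegree_Cmul_le _ _).trans hQd
  have hP0d : P0.totalDegree ≤ D := (totalDegree_Cmul_le _ _).trans hPd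
  have hNm : Nm Q0 := by
    refine ⟨fun x hx => ?_, x1, hx1', ?_⟩
    · rw [hQ0, f_ev_C_mul, abs_mul, abs_inv, abs_of_pos hq0, inv_mul_le_iff₀ hq0, mul_one]
      exact hqle x hx
    · rw [hQ0, f_ev_C_mul, abs_mul, abs_inv, abs_of_pos hq0, ← hq, inv_mul_cancel₀ hq0.ne']
  obtain ⟨P', ζ, t, L, hP'd, hPeq, hL0, hBd, hlow⟩ := hN P0 Q0 hP0d hQ0d hNm
  -- the zero set of the denominator
  have hae : ∀ᵐ x : S (j + 1 + 1) ∂(sm (j + 1 + 1)), ev Q0 x ≠ 0 := by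
    rw [ae_iff]
    refine le_antisymm ?_ zero_le
    have h1 := hS Q0 hQ0d x1 hx1' (by
      rw [hQ0, f_ev_C_mul]
      have : ev Q x1 ≠ 0 := by
        intro h0
        rw [h0, abs_zero] at hq
        exact hq0.ne' hq
      positivity) 0 le_rfl
    rw [Real.zero_rpow hκs.ne', mul_zero, ENNReal.ofReal_zero, zero_mul] at h1
    refine (measure_mono fun x hx => ?_).trans h1
    simp only [mem_setOf_eq, not_not, ne_eq] at hx ⊢
    rw [hx, abs_zero]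
  -- reduction to the normal form
  have e1 : ∀ ξ, extn (fun x => w x * Complex.exp (((ev P x / ev Q x : ℝ) : ℂ) * Complex.I)) ξ =
      extn (fun x => Complex.exp (((ev P' x / ev Q0 x + inner ℝ x ζ + t : ℝ) : ℂ) * Complex.I) *
        w x) ξ := by
    intro ξ
    refine f_extn_ae ?_ ξ
    filter_upwards [hae] with x hx
    have h1 : ev P x / ev Q x = ev P' x / ev Q0 x + inner ℝ (x : E (j + 1 + 1)) ζ + t := by
      have h2 : ev P x / ev Q x = ev P0 x / ev Q0 x := by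
        rw [hP0, hQ0, f_ev_C_mul, f_ev_C_mul, mul_div_mul_left _ _ (inv_ne_zero hq0.ne')]
      have h3 : ev P0 x = ev P' x + (t + inner ℝ (x : E (j + 1 + 1)) ζ) * ev Q0 x := by
        rw [hPeq, ← f_ev_lin]
        simp [ev]
      rw [h2, h3]
      field_simp
      ring
    rw [h1, mul_comm]
  have e2 : ∫⁻ ξ, ‖extn (fun x => w x *
        Complex.exp (((ev P x / ev Q x : ℝ) : ℂ) * Complex.I)) ξ‖ₑ ^ p =
      ∫⁻ ξ, ‖extn (fun x => w x *
        Complex.exp (((ev P' x / ev Q0 x : ℝ) : ℂ) * Complex.I)) ξ‖ₑ ^ p := by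
    simp only [e1]
    rw [Pool.Agent.VAN.lint_phase w (φ := fun x => ev P' x / ev Q0 x + inner ℝ x ζ + t)
      (φ' := fun x => ev P' x / ev Q0 x) (fun x _ => rfl) p]
    refine lintegral_congr fun ξ => ?_
    rw [show (fun x => Complex.exp (((ev P' x / ev Q0 x : ℝ) : ℂ) * Complex.I) * w x) =
      fun x => w x * Complex.exp (((ev P' x / ev Q0 x : ℝ) : ℂ) * Complex.I) from
      funext fun x => mul_comm _ _]
  rw [e2]
  -- measurability
  have hmφ : Measurable fun x : E (j + 1 + 1) => ev P' x / ev Q0 x :=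
    (measurable_ev P').div (measurable_ev Q0)
  have hbvw' : BVn (j + 1 + 1) 1 V' w := fun r hr => (hbvw r hr).trans
    (ENNReal.ofReal_le_ofReal (mul_le_mul_of_nonneg_right (le_max_left _ _) (by positivity)))
  -- decay
  have hQ0d1 : Q0.totalDegree ≤ D + 1 := hQ0d.trans (Nat.le_succ _)
  have hdecay : ∀ ξ, ‖extn (fun x => w x *
      Complex.exp (((ev P' x / ev Q0 x : ℝ) : ℂ) * Complex.I)) ξ‖ ≤ K' * (1 + L) ^ (-κ') := by
    intro ξ
    have h1 := hbv w (fun x => Complex.exp (((ev P' x / ev Q0 x : ℝ) : ℂ) * Complex.I)) hwm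
      (Complex.measurable_exp.comp ((Complex.measurable_ofReal.comp hmφ).mul_const _)) hw1
      (fun x => by rw [Complex.norm_exp_ofReal_mul_I]) 1 V' (max K 1) κ (1 + L) zero_le_one le_rfl
      hV1 hbvw' (le_max_right _ _) hκ.le hκ1 (by linarith) (fun ξ => by
        refine (hD P' Q0 hP'd hQ0d1 hNm L hL0 hlow ξ).trans ?_
        exact mul_le_mul_of_nonneg_right (le_max_left _ _) (by positivity)) ξ
    refine h1.trans ?_
    have h2 := norm_nonneg ξ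
    refine mul_le_mul_of_nonneg_left ?_ hK'0
    exact Real.rpow_le_rpow_of_nonpos (by linarith) (by linarith) (by linarith)
  -- the estimate with a loss
  set l : ℝ := max L 1 with hl
  have hl1 : 1 ≤ l := le_max_right _ _
  have hl0 : 0 < l := by linarith
  have hloss : ∫⁻ ξ, ‖extn (fun x => w x *
      Complex.exp (((ev P' x / ev Q0 x : ℝ) : ℂ) * Complex.I)) ξ‖ₑ ^ p1 ≤
      C2 * ENNReal.ofReal (2 ^ ε) * ENNReal.ofReal ((1 + L) ^ ε) := by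
    have h1 := hL (fun x => ev (C l⁻¹ * P') x / ev Q0 x)
      ((measurable_ev _).div (measurable_ev Q0))
      (hTm (C l⁻¹ * P') Q0 ((totalDegree_Cmul_le _ _).trans hP'd) hQ0d1 (fun x hx => by
        rw [f_ev_C_mul, abs_mul, abs_inv, abs_of_pos hl0, inv_mul_le_iff₀ hl0, mul_one]
        exact (hBd x hx).trans (le_max_left _ _)) hNm) w ⟨hwm, hw1, hbvw'⟩ l
    have e3 : ∀ x : E (j + 1 + 1), l * (ev (C l⁻¹ * P') x / ev Q0 x) = ev P' x / ev Q0 x := by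
      intro x
      rw [f_ev_C_mul]
      field_simp
    simp only [e3] at h1
    refine h1.trans ?_
    rw [mul_assoc, ← ENNReal.ofReal_mul (by positivity), ← Real.mul_rpow (by norm_num) (by linarith)]
    gcongr
    rw [abs_of_pos hl0]
    have : l ≤ L + 1 := max_le (by linarith) (by linarith)
    linarith
  -- interpolation
  have hL1 : 0 < 1 + L := by linarith
  have h1 := Pool.Agent.VAN.interp_set (volume : Measure (E (j + 1 + 1))) (p1 := p1) (p := p)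
    (M := K' * (1 + L) ^ (-κ')) (by linarith) h1p.le
    (extn (fun x => w x * Complex.exp (((ev P' x / ev Q0 x : ℝ) : ℂ) * Complex.I))) univ
    MeasurableSet.univ (by positivity) (fun ξ _ => hdecay ξ)
  rw [Measure.restrict_univ] at h1
  refine h1.trans ?_
  have h2 : (K' * (1 + L) ^ (-κ')) ^ (p - p1) = K' ^ (p - p1) * (1 + L) ^ (-ε) := by
    rw [Real.mul_rpow hK'0 (by positivity), ← Real.rpow_mul hL1.le, hε]
    congr 2
    ring
  calc ENNReal.ofReal ((K' * (1 + L) ^ (-κ')) ^ (p - p1)) *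
        ∫⁻ ξ, ‖extn (fun x => w x *
          Complex.exp (((ev P' x / ev Q0 x : ℝ) : ℂ) * Complex.I)) ξ‖ₑ ^ p1
      ≤ ENNReal.ofReal (K' ^ (p - p1) * (1 + L) ^ (-ε)) *
        (C2 * ENNReal.ofReal (2 ^ ε) * ENNReal.ofReal ((1 + L) ^ ε)) := by
        rw [h2]
        gcongr
    _ = ENNReal.ofReal (K' ^ (p - p1)) * (C2 * ENNReal.ofReal (2 ^ ε)) *
        (ENNReal.ofReal ((1 + L) ^ (-ε)) * ENNReal.ofReal ((1 + L) ^ ε)) := by
        rw [ENNReal.ofReal_mul (by positivity)]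
        ring
    _ = ENNReal.ofReal (K' ^ (p - p1)) * (C2 * ENNReal.ofReal (2 ^ ε)) := by
        rw [← ENNReal.ofReal_mul (by positivity), ← Real.rpow_add hL1, neg_add_cancel,
          Real.rpow_zero, ENNReal.ofReal_one, mul_one]

end Pool.Agent.VANn.RAT
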