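import Pool.Agent.MP_6cbfb8_an.Defs

/-!
Functions on `R^n` which are given by a formula with a bounded number of atoms.
-/

set_option autoImplicit false

namespace Pool.Agent.VANn.RAT

open Pool.Agent.MP_6cbfb8_an

/-- `HasFormula n N f`: the function `f` on `R^n` is given by a formula with `N` atoms, the atoms being
real constants and coordinates, which are joined by `+`, `*`, `/` (where `y / 0 = 0`) and
`if 0 < f then g else h`. -/
inductive HasFormula (n : ℕ) : ℕ → (E n → ℝ) → Prop
  | const (c : ℝ) : HasFormula n 1 fun _ => c
  | coord (i : Fin n) : HasFormula n 1 fun x => x i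
  | add {k l : ℕ} {f g : E n → ℝ} : HasFormula n k f → HasFormula n l g →
      HasFormula n (k + l) fun x => f x + g x
  | mul {k l : ℕ} {f g : E n → ℝ} : HasFormula n k f → HasFormula n l g →
      HasFormula n (k + l) fun x => f x * g x
  | div {k l : ℕ} {f g : E n → ℝ} : HasFormula n k f → HasFormula n l g →
      HasFormula n (k + l) fun x => f x / g x
  | cond {k l m : ℕ} {f g h : E n → ℝ} : HasFormula n k f → HasFormula n l g → HasFormula n m h →
      HasFormula n (k + l + m) fun x => if 0 < f x then g x else h x

end Pool.Agent.VANn.RAT
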