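import Pool.Agent.VANn.RA

/-!
Integration by parts on the sphere along a rotation field, for the phase `a / b`.
-/

set_option autoImplicit false

namespace Pool.Agent.VANn.RAT.RI

open MeasureTheory Set Pool.Agent.MP_6cbfb8_an Filter Topology
open scoped ENNReal Real ContDiff

/-- The cutoff: `0` for `|u| ≤ 1`, `1` for `|u| ≥ 2`. -/
noncomputable def kp (u : ℝ) : ℝ := Real.smoothTransition (u ^ 2 - 1)

/-- Its derivative. -/
noncomputable def kp' (u : ℝ) : ℝ := deriv kp u

theorem kp_smooth : ContDiff ℝ ∞ kp :=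
  Real.smoothTransition.contDiff.comp ((contDiff_id.pow 2).sub contDiff_const)

theorem kp_hasDerivAt (u : ℝ) : HasDerivAt kp (kp' u) u :=
  ((kp_smooth.differentiable (by simp)) u).hasDerivAt

theorem kp_continuous : Continuous kp := kp_smooth.continuous

theorem kp'_continuous : Continuous kp' := kp_smooth.continuous_deriv (by simp)

theorem kp_zero {u : ℝ} (hu : |u| ≤ 1) : kp u = 0 := by
  refine Real.smoothTransition.zero_of_nonpos ?_
  have : u ^ 2 ≤ 1 := by
    rw [← sq_abs]
    exact pow_le_one₀ (abs_nonneg u) hu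
  linarith

theorem kp_one {u : ℝ} (hu : 2 ≤ |u|) : kp u = 1 := by
  refine Real.smoothTransition.one_of_one_le ?_
  have : 4 ≤ u ^ 2 := by
    rw [← sq_abs]
    nlinarith
  linarith

theorem kp_nonneg (u : ℝ) : 0 ≤ kp u := Real.smoothTransition.nonneg _

theorem kp_le_one (u : ℝ) : kp u ≤ 1 := Real.smoothTransition.le_one _

theorem kp'_zero {u : ℝ} (hu : |u| < 1) : kp' u = 0 := by
  have h1 : kp =ᶠ[𝓝 u] fun _ => (0 : ℝ) := by
    filter_upwards [(isOpen_lt continuous_abs continuous_const).mem_nhds hu] with v hv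
    exact kp_zero (le_of_lt hv)
  have h2 := h1.deriv_eq
  rw [deriv_const] at h2
  exact h2

theorem kp'_far {u : ℝ} (hu : 2 < |u|) : kp' u = 0 := by
  have h1 : kp =ᶠ[𝓝 u] fun _ => (1 : ℝ) := by
    filter_upwards [(isOpen_lt continuous_const continuous_abs).mem_nhds hu] with v hv
    exact kp_one (le_of_lt hv)
  have h2 := h1.deriv_eq
  rw [deriv_const] at h2
  exact h2

theorem kp'_bound : ∃ M : ℝ, 0 ≤ M ∧ ∀ u, |kp' u| ≤ M := by
  obtain ⟨M, hM⟩ := (isCompact_Icc (a := (-2 : ℝ)) (b := 2)).exists_bound_of_continuousOn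
    kp'_continuous.continuousOn
  refine ⟨max M 0, le_max_right _ _, fun u => ?_⟩
  rcases le_or_gt |u| 2 with hu | hu
  · exact (hM u (abs_le.mp hu)).trans (le_max_left _ _)
  · rw [kp'_far hu, abs_zero]
    exact le_max_right _ _

/-- The regularised reciprocal. -/
noncomputable def g1 (u : ℝ) : ℝ := kp u / u

/-- Its derivative. -/
noncomputable def g1' (u : ℝ) : ℝ := kp' u / u - kp u / u ^ 2

theorem g1_hasDerivAt (u : ℝ) : HasDerivAt g1 (g1' u) u := by
  rcases eq_or_ne u 0 with hu | hu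
  · rw [hu]
    have h1 : g1 =ᶠ[𝓝 0] fun _ => (0 : ℝ) := by
      filter_upwards [(isOpen_lt continuous_abs continuous_const).mem_nhds
        (show |(0 : ℝ)| < 1 by simp)] with v hv
      rw [g1, kp_zero (le_of_lt hv), zero_div]
    have h2 : g1' 0 = 0 := by simp [g1']
    rw [h2]
    exact (hasDerivAt_const 0 (0 : ℝ)).congr_of_eventuallyEq h1
  · have h1 := (kp_hasDerivAt u).div (hasDerivAt_id u) hu
    refine h1.congr_deriv ?_
    simp only [id, g1']
    field_simp

theorem g1_le (u : ℝ) : |g1 u| ≤ 1 := by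
  rcases le_or_gt |u| 1 with hu | hu
  · rw [g1, kp_zero hu, zero_div, abs_zero]
    exact zero_le_one
  · rw [g1, abs_div, abs_of_nonneg (kp_nonneg u), div_le_one (by linarith)]
    exact (kp_le_one u).trans hu.le

theorem g1'_le {M : ℝ} (hM : ∀ u, |kp' u| ≤ M) (u : ℝ) : |g1' u| ≤ M + 1 := by
  have hM0 : 0 ≤ M := (abs_nonneg _).trans (hM 0)
  rcases lt_or_ge |u| 1 with hu | hu
  · rw [g1', kp_zero hu.le, kp'_zero hu]
    simp only [zero_div, sub_zero, abs_zero]
    linarith
  · have h1 : |kp' u / u| ≤ M := by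
      rw [abs_div]
      exact (div_le_self (abs_nonneg _) hu).trans (hM u)
    have h2 : |kp u / u ^ 2| ≤ 1 := by
      rw [abs_div, abs_of_nonneg (kp_nonneg u), abs_pow]
      have h3 : 1 ≤ |u| ^ 2 := one_le_pow₀ hu
      exact (div_le_self (kp_nonneg u) h3).trans (kp_le_one u)
    exact (abs_sub _ _).trans (add_le_add h1 h2)

theorem mul_g1 (w : ℝ) {W : ℝ} (hW : 0 < W) : w * (g1 (w / W) / W) = kp (w / W) := by
  rcases eq_or_ne w 0 with hw | hw
  · rw [hw, zero_mul, zero_div, kp_zero (by simp)]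
  · rw [g1]
    field_simp

/-- The regularised square. -/
noncomputable def p2 (τ b : ℝ) : ℝ := kp (b / τ) * b ^ 2

/-- Its derivative. -/
noncomputable def p2' (τ b : ℝ) : ℝ := kp' (b / τ) / τ * b ^ 2 + kp (b / τ) * (2 * b)

theorem p2_hasDerivAt (τ b : ℝ) : HasDerivAt (p2 τ) (p2' τ b) b := by
  have h1 : HasDerivAt (fun b : ℝ => kp (b / τ)) (kp' (b / τ) / τ) b := by
    have h2 := (kp_hasDerivAt (b / τ)).comp b ((hasDerivAt_id b).div_const τ)
    refine h2.congr_deriv ?_
    ring
  have h3 := h1.mul (hasDerivAt_pow 2 b)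
  refine h3.congr_deriv ?_
  simp only [p2']
  norm_num

theorem p2_le (τ : ℝ) {b : ℝ} (hb : |b| ≤ 1) : |p2 τ b| ≤ 1 := by
  rw [p2, abs_mul, abs_of_nonneg (kp_nonneg _), abs_pow]
  exact mul_le_one₀ (kp_le_one _) (by positivity) (pow_le_one₀ (abs_nonneg _) hb)

theorem p2'_le {M : ℝ} (hM : ∀ u, |kp' u| ≤ M) {τ : ℝ} (hτ : 0 < τ) (hτ1 : τ ≤ 1) {b : ℝ}
    (hb : |b| ≤ 1) : |p2' τ b| ≤ 4 * M + 2 := by
  have hM0 : 0 ≤ M := (abs_nonneg _).trans (hM 0)
  have h1 : |kp' (b / τ) / τ * b ^ 2| ≤ 4 * M := by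
    rcases le_or_gt |b / τ| 2 with h | h
    · rw [abs_div, abs_of_pos hτ, div_le_iff₀ hτ] at h
      rw [abs_mul, abs_div, abs_of_pos hτ, abs_pow]
      have h2 : |b| ^ 2 ≤ (2 * τ) ^ 2 := pow_le_pow_left₀ (abs_nonneg b) h 2
      calc |kp' (b / τ)| / τ * |b| ^ 2 ≤ M / τ * (2 * τ) ^ 2 := by
            gcongr
            exact hM _
        _ = 4 * M * τ := by
            field_simp
            ring
        _ ≤ 4 * M * 1 := by gcongr
        _ = _ := mul_one _
    · rw [kp'_far h]
      simp only [zero_div, zero_mul, abs_zero]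
      positivity
  have h2 : |kp (b / τ) * (2 * b)| ≤ 2 := by
    rw [abs_mul, abs_mul, abs_of_nonneg (kp_nonneg _), abs_two]
    have h3 := kp_le_one (b / τ)
    have h4 := kp_nonneg (b / τ)
    nlinarith [abs_nonneg b]
  exact (abs_add_le _ _).trans (add_le_add h1 h2)

variable {n : ℕ}

theorem rot_two_pi (q : E n × E n) (x : E n) : rot q (2 * π) x = x := by
  simp [rot]

/-- The integral of a derivative along a rotation vanishes. -/
theorem ibps {q : E n × E n} (hq : ON q) (H H' : E n → ℂ) (B : ℝ)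
    (hm : Measurable fun x : S n => H' x) (hB : ∀ x ∈ S n, ‖H' x‖ ≤ B)
    (hd : ∀ x ∈ S n, ∀ t, HasDerivAt (fun t => H (rot q t x)) (H' (rot q t x)) t) :
    ∫ x : S n, H' x ∂(sm n) = 0 := by
  have h1 := integral_avg hq Real.two_pi_pos (fun x : S n => H' x) hm B (fun x => hB x x.2)
  have h2 : ∀ x : S n, ∫ t in (0 : ℝ)..(2 * π), H' (rotS hq t x) = 0 := by
    intro x
    have hcr : Continuous fun t => rotS hq t x :=
      (continuous_rotS hq).comp (continuous_id.prodMk continuous_const)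
    have hint : IntervalIntegrable (fun t => H' (rotS hq t x)) volume 0 (2 * π) := by
      rw [intervalIntegrable_iff]
      have : IsFiniteMeasure (volume.restrict (uIoc 0 (2 * π))) := ⟨by
        rw [Measure.restrict_apply_univ, uIoc_of_le Real.two_pi_pos.le, Real.volume_Ioc]
        exact ENNReal.ofReal_lt_top⟩
      exact Integrable.of_bound (hm.comp hcr.measurable).aestronglyMeasurable B
        (Eventually.of_forall fun t => hB _ (rotS hq t x).2)
    have h3 := intervalIntegral.integral_eq_sub_of_hasDerivAt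
      (f := fun t => H (rot q t x)) (f' := fun t => H' (rotS hq t x))
      (fun t _ => hd x x.2 t) hint
    rw [h3, rot_two_pi, rot_zero, sub_self]
  simp only [h2, integral_zero] at h1
  have h4 : ((2 * π : ℝ) : ℂ) ≠ 0 := by
    exact_mod_cast Real.two_pi_pos.ne'
  exact (mul_eq_zero.mp h1).resolve_left h4

/-- The field of the phase, regularised. -/
noncomputable def HH (W τ : ℝ) (a b w : E n → ℝ) (x : E n) : ℂ :=
  Complex.exp (((a x / b x : ℝ) : ℂ) * Complex.I) * ((g1 (w x / W) / W * p2 τ (b x) : ℝ) : ℂ)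

/-- Its derivative. -/
noncomputable def HH' (W τ : ℝ) (a b w b1 w1 : E n → ℝ) (x : E n) : ℂ :=
  Complex.exp (((a x / b x : ℝ) : ℂ) * Complex.I) *
    (((kp (w x / W) * kp (b x / τ) : ℝ) : ℂ) * Complex.I +
      ((g1' (w x / W) / W ^ 2 * w1 x * p2 τ (b x) +
        g1 (w x / W) / W * (p2' τ (b x) * b1 x) : ℝ) : ℂ))

theorem HH_hasDerivAt {W τ : ℝ} (hW : 0 < W) (hτ : 0 < τ) {a b w : ℝ → ℝ} {a1 b1 w1 t : ℝ}
    (ha : HasDerivAt a a1 t) (hb : HasDerivAt b b1 t) (hw : HasDerivAt w w1 t)
    (hwt : w t = a1 * b t - a t * b1) :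
    HasDerivAt (fun t => Complex.exp (((a t / b t : ℝ) : ℂ) * Complex.I) *
      ((g1 (w t / W) / W * p2 τ (b t) : ℝ) : ℂ))
      (Complex.exp (((a t / b t : ℝ) : ℂ) * Complex.I) *
        (((kp (w t / W) * kp (b t / τ) : ℝ) : ℂ) * Complex.I +
          ((g1' (w t / W) / W ^ 2 * w1 * p2 τ (b t) +
            g1 (w t / W) / W * (p2' τ (b t) * b1) : ℝ) : ℂ))) t := by
  have hg : HasDerivAt (fun t => g1 (w t / W) / W) (g1' (w t / W) / W ^ 2 * w1) t := by
    have h1 := ((g1_hasDerivAt (w t / W)).comp t (hw.div_const W)).div_const W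
    refine h1.congr_deriv ?_
    field_simp
  have hp : HasDerivAt (fun t => p2 τ (b t)) (p2' τ (b t) * b1) t :=
    (p2_hasDerivAt τ (b t)).comp t hb
  have hgp : HasDerivAt (fun t => ((g1 (w t / W) / W * p2 τ (b t) : ℝ) : ℂ))
      ((g1' (w t / W) / W ^ 2 * w1 * p2 τ (b t) +
            g1 (w t / W) / W * (p2' τ (b t) * b1) : ℝ) : ℂ) t := (hg.mul hp).ofReal_comp
  rcases eq_or_ne (b t) 0 with h0 | h0
  · -- the function vanishes near `t`
    have h1 : (fun t => Complex.exp (((a t / b t : ℝ) : ℂ) * Complex.I) *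
        ((g1 (w t / W) / W * p2 τ (b t) : ℝ) : ℂ)) =ᶠ[𝓝 t] fun _ => (0 : ℂ) := by
      have h2 : ∀ᶠ s in 𝓝 t, |b s| < τ := by
        have h3 : ContinuousAt (fun s => |b s|) t := hb.continuousAt.abs
        have h4 : |b t| < τ := by
          rw [h0, abs_zero]
          exact hτ
        exact h3.eventually_lt continuousAt_const h4
      filter_upwards [h2] with s hs
      have h5 : kp (b s / τ) = 0 := by
        refine kp_zero ?_
        rw [abs_div, abs_of_pos hτ, div_le_one hτ]
        exact hs.le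
      rw [p2, h5, zero_mul, mul_zero, Complex.ofReal_zero, mul_zero]
    refine ((hasDerivAt_const t (0 : ℂ)).congr_of_eventuallyEq h1).congr_deriv ?_
    have h6 : kp (b t / τ) = 0 := by
      rw [h0, zero_div]
      exact kp_zero (by simp)
    have h7 : kp' (b t / τ) = 0 := by
      rw [h0, zero_div]
      exact kp'_zero (by simp)
    simp only [p2, p2', h6, h7, zero_mul, mul_zero, zero_div, add_zero, Complex.ofReal_zero]
  · have hF : HasDerivAt (fun t => a t / b t) (w t / b t ^ 2) t := by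
      refine (ha.div hb h0).congr_deriv ?_
      rw [hwt]
    have hE : HasDerivAt (fun t => Complex.exp (((a t / b t : ℝ) : ℂ) * Complex.I))
        (Complex.exp (((a t / b t : ℝ) : ℂ) * Complex.I) * (((w t / b t ^ 2 : ℝ) : ℂ) * Complex.I))
        t := (hF.ofReal_comp.mul_const Complex.I).cexp
    refine (hE.mul hgp).congr_deriv ?_
    have h8 : w t / b t ^ 2 * (g1 (w t / W) / W * p2 τ (b t)) = kp (w t / W) * kp (b t / τ) := by
      rw [p2]
      have h9 := mul_g1 (w t) hW
      calc w t / b t ^ 2 * (g1 (w t / W) / W * (kp (b t / τ) * b t ^ 2)) =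
            (w t * (g1 (w t / W) / W)) * kp (b t / τ) := by field_simp
        _ = _ := by rw [h9]
    have h10 : (((w t / b t ^ 2 : ℝ) : ℂ)) * ((g1 (w t / W) / W * p2 τ (b t) : ℝ) : ℂ) =
        ((kp (w t / W) * kp (b t / τ) : ℝ) : ℂ) := by
      rw [← Complex.ofReal_mul, h8]
    rw [← h10]
    ring

/-- **Integration by parts.** -/
theorem ibp_core : ∃ M : ℝ, 0 ≤ M ∧ ∀ {n : ℕ} {q : E n × E n}, ON q →
    ∀ (a b a1 b1 w w1 : E n → ℝ) (C L W τ : ℝ), ContinuousOn a (S n) → ContinuousOn b (S n) →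
      ContinuousOn b1 (S n) → ContinuousOn w (S n) → ContinuousOn w1 (S n) →
      (∀ x ∈ S n, ∀ t, HasDerivAt (fun t => a (rot q t x)) (a1 (rot q t x)) t) →
      (∀ x ∈ S n, ∀ t, HasDerivAt (fun t => b (rot q t x)) (b1 (rot q t x)) t) →
      (∀ x ∈ S n, ∀ t, HasDerivAt (fun t => w (rot q t x)) (w1 (rot q t x)) t) →
      (∀ x ∈ S n, w x = a1 x * b x - a x * b1 x) → 0 < W → 0 < τ → τ ≤ 1 →
      (∀ x ∈ S n, |b x| ≤ 1) → (∀ x ∈ S n, |b1 x| ≤ C) → (∀ x ∈ S n, |w1 x| ≤ C * L) →
      ‖∫ x : S n, Complex.exp (((a x / b x : ℝ) : ℂ) * Complex.I) ∂(sm n)‖ ≤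
        M * (C * L / W ^ 2 + C / W) * (sm n).real univ +
          (sm n).real {x : S n | |w x| ≤ 2 * W} + (sm n).real {x : S n | |b x| ≤ 2 * τ} := by
  obtain ⟨M, hM0, hM⟩ := kp'_bound
  refine ⟨4 * M + 2, by positivity, ?_⟩
  intro n q hq a b a1 b1 w w1 C L W τ hac hbc hb1c hwc hw1c ha hb hw hweq hW hτ hτ1 hb1 hb1C hw1C
  have hac' : Continuous fun x : S n => a x := continuousOn_iff_continuous_domRestrict.1 hac
  have hbc' : Continuous fun x : S n => b x := continuousOn_iff_continuous_domRestrict.1 hbc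
  have hb1c' : Continuous fun x : S n => b1 x := continuousOn_iff_continuous_domRestrict.1 hb1c
  have hwc' : Continuous fun x : S n => w x := continuousOn_iff_continuous_domRestrict.1 hwc
  have hw1c' : Continuous fun x : S n => w1 x := continuousOn_iff_continuous_domRestrict.1 hw1c
  have hg1m : Measurable g1 := kp_continuous.measurable.div measurable_id
  have hg1'm : Measurable g1' := (kp'_continuous.measurable.div measurable_id).sub
    (kp_continuous.measurable.div (measurable_id.pow_const 2))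
  have hp2c : Continuous (p2 τ) := by
    unfold p2
    exact (kp_continuous.comp (continuous_id.div_const τ)).mul (continuous_id.pow 2)
  have hp2'c : Continuous (p2' τ) := by
    unfold p2'
    exact (((kp'_continuous.comp (continuous_id.div_const τ)).div_const τ).mul
      (continuous_id.pow 2)).add ((kp_continuous.comp (continuous_id.div_const τ)).mul
        (continuous_const.mul continuous_id))
  set Ex : S n → ℂ := fun x => Complex.exp (((a x / b x : ℝ) : ℂ) * Complex.I) with hEx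
  set kk : S n → ℝ := fun x => kp (w x / W) * kp (b x / τ) with hkk
  set r : S n → ℝ := fun x => g1' (w x / W) / W ^ 2 * w1 x * p2 τ (b x) +
    g1 (w x / W) / W * (p2' τ (b x) * b1 x) with hr
  have hwW : Measurable fun x : S n => w x / W := (hwc'.div_const W).measurable
  have hExm : Measurable Ex := Complex.measurable_exp.comp
    ((Complex.measurable_ofReal.comp (hac'.measurable.div hbc'.measurable)).mul_const _)
  have hkkm : Measurable kk := (kp_continuous.measurable.comp hwW).mul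
    (kp_continuous.measurable.comp (hbc'.div_const τ).measurable)
  have hrm : Measurable r := ((((hg1'm.comp hwW).div_const _).mul hw1c'.measurable).mul
    (hp2c.measurable.comp hbc'.measurable)).add (((hg1m.comp hwW).div_const W).mul
      ((hp2'c.measurable.comp hbc'.measurable).mul hb1c'.measurable))
  have hEx1 : ∀ x, ‖Ex x‖ = 1 := fun x => Complex.norm_exp_ofReal_mul_I _
  have hkk0 : ∀ x, 0 ≤ kk x := fun x => mul_nonneg (kp_nonneg _) (kp_nonneg _)
  have hkk1 : ∀ x, kk x ≤ 1 := fun x => mul_le_one₀ (kp_le_one _) (kp_nonneg _) (kp_le_one _)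
  have hrb : ∀ x, |r x| ≤ (4 * M + 2) * (C * L / W ^ 2 + C / W) := by
    intro x
    have h1 := hb1C x x.2
    have h2 := hw1C x x.2
    have hC : 0 ≤ C := (abs_nonneg _).trans h1
    have hCL : 0 ≤ C * L := (abs_nonneg _).trans h2
    have h3 : |g1' (w x / W) / W ^ 2 * w1 x * p2 τ (b x)| ≤ (M + 1) * (C * L / W ^ 2) := by
      rw [abs_mul, abs_mul, abs_div, abs_of_pos (by positivity : 0 < W ^ 2)]
      calc |g1' (w x / W)| / W ^ 2 * |w1 x| * |p2 τ (b x)| ≤ (M + 1) / W ^ 2 * (C * L) * 1 := by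
            gcongr
            · exact g1'_le hM _
            · exact p2_le τ (hb1 x x.2)
        _ = _ := by ring
    have h4 : |g1 (w x / W) / W * (p2' τ (b x) * b1 x)| ≤ (4 * M + 2) * (C / W) := by
      rw [abs_mul, abs_mul, abs_div, abs_of_pos hW]
      calc |g1 (w x / W)| / W * (|p2' τ (b x)| * |b1 x|) ≤ 1 / W * ((4 * M + 2) * C) := by
            gcongr
            · exact g1_le _
            · exact p2'_le hM hτ hτ1 (hb1 x x.2)
        _ = _ := by ring
    refine (abs_add_le _ _).trans ((add_le_add h3 h4).trans ?_)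
    have h5 : 0 ≤ C * L / W ^ 2 := by positivity
    nlinarith
  -- the derivative has mean value zero
  have hzero : ∫ x : S n, Ex x * (((kk x : ℝ) : ℂ) * Complex.I + ((r x : ℝ) : ℂ)) ∂(sm n) = 0 := by
    refine ibps hq (HH W τ a b w) (HH' W τ a b w b1 w1)
      (1 + (4 * M + 2) * (C * L / W ^ 2 + C / W)) ?_ ?_ ?_
    · exact hExm.mul (((Complex.measurable_ofReal.comp hkkm).mul_const _).add
        (Complex.measurable_ofReal.comp hrm))
    · intro x hx
      have h1 := hEx1 ⟨x, hx⟩
      have h2 := hrb ⟨x, hx⟩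
      have h3 := hkk0 ⟨x, hx⟩
      have h4 := hkk1 ⟨x, hx⟩
      have h5 : HH' W τ a b w b1 w1 x = Ex ⟨x, hx⟩ *
          (((kk ⟨x, hx⟩ : ℝ) : ℂ) * Complex.I + ((r ⟨x, hx⟩ : ℝ) : ℂ)) := rfl
      rw [h5, norm_mul, h1, one_mul]
      refine (norm_add_le _ _).trans (add_le_add ?_ ?_)
      · rw [norm_mul, Complex.norm_I, mul_one, Complex.norm_real, Real.norm_eq_abs, abs_of_nonneg h3]
        exact h4
      · rw [Complex.norm_real, Real.norm_eq_abs]
        exact h2
    · intro x hx t
      exact HH_hasDerivAt hW hτ (ha x hx t) (hb x hx t) (hw x hx t) (hweq _ (rot_mem hq t hx))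
  have hi1 : Integrable (fun x : S n => Ex x * ((kk x : ℝ) : ℂ)) (sm n) := by
    refine Integrable.of_bound (hExm.mul (Complex.measurable_ofReal.comp hkkm)).aestronglyMeasurable
      1 (Eventually.of_forall fun x => ?_)
    rw [norm_mul, hEx1, one_mul, Complex.norm_real, Real.norm_eq_abs, abs_of_nonneg (hkk0 x)]
    exact hkk1 x
  have hi2 : Integrable (fun x : S n => Ex x * ((r x : ℝ) : ℂ)) (sm n) := by
    refine Integrable.of_bound (hExm.mul (Complex.measurable_ofReal.comp hrm)).aestronglyMeasurable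
      ((4 * M + 2) * (C * L / W ^ 2 + C / W)) (Eventually.of_forall fun x => ?_)
    rw [norm_mul, hEx1, one_mul, Complex.norm_real, Real.norm_eq_abs]
    exact hrb x
  have hi3 : Integrable (fun x : S n => Ex x * ((1 - kk x : ℝ) : ℂ)) (sm n) := by
    refine Integrable.of_bound (hExm.mul (Complex.measurable_ofReal.comp
      (measurable_const.sub hkkm))).aestronglyMeasurable 1 (Eventually.of_forall fun x => ?_)
    rw [norm_mul, hEx1, one_mul, Complex.norm_real, Real.norm_eq_abs,
      abs_of_nonneg (by linarith [hkk1 x])]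
    linarith [hkk0 x]
  have hpart1 : ‖∫ x : S n, Ex x * ((kk x : ℝ) : ℂ) ∂(sm n)‖ ≤
      (4 * M + 2) * (C * L / W ^ 2 + C / W) * (sm n).real univ := by
    have h1 : (∫ x : S n, Ex x * ((kk x : ℝ) : ℂ) ∂(sm n)) * Complex.I +
        ∫ x : S n, Ex x * ((r x : ℝ) : ℂ) ∂(sm n) = 0 := by
      rw [← integral_mul_const, ← integral_add (hi1.mul_const _) hi2, ← hzero]
      refine integral_congr_ae (Eventually.of_forall fun x => ?_)
      simp only
      ring
    have h2 : ‖∫ x : S n, Ex x * ((kk x : ℝ) : ℂ) ∂(sm n)‖ =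
        ‖∫ x : S n, Ex x * ((r x : ℝ) : ℂ) ∂(sm n)‖ := by
      have h3 := congrArg norm (eq_neg_of_add_eq_zero_left h1)
      rwa [norm_mul, Complex.norm_I, mul_one, norm_neg] at h3
    rw [h2]
    refine norm_integral_le_of_norm_le_const (Eventually.of_forall fun x => ?_)
    rw [norm_mul, hEx1, one_mul, Complex.norm_real, Real.norm_eq_abs]
    exact hrb x
  have hA1 : MeasurableSet {x : S n | |w x| ≤ 2 * W} :=
    (isClosed_le hwc'.abs continuous_const).measurableSet
  have hA2 : MeasurableSet {x : S n | |b x| ≤ 2 * τ} :=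
    (isClosed_le hbc'.abs continuous_const).measurableSet
  have hpart2 : ‖∫ x : S n, Ex x * ((1 - kk x : ℝ) : ℂ) ∂(sm n)‖ ≤
      (sm n).real {x : S n | |w x| ≤ 2 * W} + (sm n).real {x : S n | |b x| ≤ 2 * τ} := by
    have h1 : ∀ x : S n, ‖Ex x * ((1 - kk x : ℝ) : ℂ)‖ ≤
        {x : S n | |w x| ≤ 2 * W}.indicator (fun _ => (1 : ℝ)) x +
          {x : S n | |b x| ≤ 2 * τ}.indicator (fun _ => (1 : ℝ)) x := by
      intro x
      rw [norm_mul, hEx1, one_mul, Complex.norm_real, Real.norm_eq_abs,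
        abs_of_nonneg (by linarith [hkk1 x])]
      have i1 : 0 ≤ {x : S n | |w x| ≤ 2 * W}.indicator (fun _ => (1 : ℝ)) x :=
        indicator_nonneg (fun _ _ => zero_le_one) x
      have i2 : 0 ≤ {x : S n | |b x| ≤ 2 * τ}.indicator (fun _ => (1 : ℝ)) x :=
        indicator_nonneg (fun _ _ => zero_le_one) x
      by_cases hx1 : |w x| ≤ 2 * W
      · rw [indicator_of_mem (show x ∈ {x : S n | |w x| ≤ 2 * W} from hx1)]
        linarith [hkk0 x]
      · by_cases hx2 : |b x| ≤ 2 * τ
        · rw [indicator_of_mem (show x ∈ {x : S n | |b x| ≤ 2 * τ} from hx2)]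
          linarith [hkk0 x]
        · have h3 : kp (w x / W) = 1 := by
            refine kp_one ?_
            rw [abs_div, abs_of_pos hW, le_div_iff₀ hW]
            exact (not_le.mp hx1).le
          have h4 : kp (b x / τ) = 1 := by
            refine kp_one ?_
            rw [abs_div, abs_of_pos hτ, le_div_iff₀ hτ]
            exact (not_le.mp hx2).le
          have h5 : kk x = 1 := by
            simp only [hkk, h3, h4, mul_one]
          rw [h5]
          linarith
    have h2 : Integrable (fun x : S n => {x : S n | |w x| ≤ 2 * W}.indicator (fun _ => (1 : ℝ)) x +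
          {x : S n | |b x| ≤ 2 * τ}.indicator (fun _ => (1 : ℝ)) x) (sm n) :=
      ((integrable_const (1 : ℝ)).indicator hA1).add ((integrable_const (1 : ℝ)).indicator hA2)
    refine (norm_integral_le_of_norm_le h2 (Eventually.of_forall h1)).trans (le_of_eq ?_)
    rw [integral_add ((integrable_const (1 : ℝ)).indicator hA1)
      ((integrable_const (1 : ℝ)).indicator hA2), integral_indicator_const _ hA1,
      integral_indicator_const _ hA2]
    simp
  have hsplit : ∫ x : S n, Ex x ∂(sm n) = (∫ x : S n, Ex x * ((kk x : ℝ) : ℂ) ∂(sm n)) +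
      ∫ x : S n, Ex x * ((1 - kk x : ℝ) : ℂ) ∂(sm n) := by
    rw [← integral_add hi1 hi3]
    refine integral_congr_ae (Eventually.of_forall fun x => ?_)
    simp only
    push_cast
    ring
  calc ‖∫ x : S n, Ex x ∂(sm n)‖ ≤ ‖∫ x : S n, Ex x * ((kk x : ℝ) : ℂ) ∂(sm n)‖ +
        ‖∫ x : S n, Ex x * ((1 - kk x : ℝ) : ℂ) ∂(sm n)‖ := by
        rw [hsplit]
        exact norm_add_le _ _
    _ ≤ _ := by linarith

end Pool.Agent.VANn.RAT.RI
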