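import Pool.Agent.RAT.Defs
import Pool.Agent.RAT.S

/-! One constant for all rational phases: the normal form modulo the affine functions times `Q`. -/

set_option autoImplicit false

namespace Pool.Agent.VANn.RAT

open MeasureTheory Set MvPolynomial Pool.Agent.MP_6cbfb8_an Pool.Agent.VANn.TM Filter Topology
open scoped ENNReal Real ContDiff RealInnerProductSpace

variable {n : ℕ}

theorem ev_lin (t : ℝ) (ζ x : E n) : ev (lin t ζ) x = t + ⟪x, ζ⟫ := by
  unfold ev lin
  simp [PiLp.inner_apply]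

theorem lin_deg (t : ℝ) (ζ : E n) : (lin t ζ).totalDegree ≤ 1 := by
  unfold lin
  refine (totalDegree_add _ _).trans (max_le ?_ ?_)
  · rw [totalDegree_C]
    exact Nat.zero_le _
  · refine totalDegree_finsetSum_le fun i _ => ?_
    refine (totalDegree_mul _ _).trans ?_
    rw [totalDegree_C, totalDegree_X]

theorem ev_cont (P : MvPolynomial (Fin n) ℝ) : Continuous fun x : E n => ev P x := by
  have h1 : Continuous fun x : E n => eval (fun i => x i) P := by
    apply MvPolynomial.continuous_eval P |>.comp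
    exact continuous_pi fun i => by fun_prop
  exact h1

theorem ev_mul' (P Q : MvPolynomial (Fin n) ℝ) (x : E n) : ev (P * Q) x = ev P x * ev Q x := by
  unfold ev
  simp

theorem ev_sub' (P Q : MvPolynomial (Fin n) ℝ) (x : E n) : ev (P - Q) x = ev P x - ev Q x := by
  unfold ev
  simp

/-- a point where two polynomials are not small -/
theorem two_pts (hn : 2 ≤ n) (D : ℕ) : ∃ c0 : ℝ, 0 < c0 ∧ ∀ Q : MvPolynomial (Fin n) ℝ,
    Q.totalDegree ≤ D → Nm Q → ∀ (t : ℝ) (ζ : E n), ∃ x : E n, ‖x‖ = 1 ∧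
      c0 * (|t| + ‖ζ‖) ≤ |(t + ⟪x, ζ⟫) * ev Q x| := by
  obtain ⟨M, κ, hM, hκ, H⟩ := sub_unif hn (max D 1)
  have : Nonempty (Fin n) := ⟨⟨0, by omega⟩⟩
  set σ : ℝ := (sm n).real univ with hσ
  have hσ0 : 0 < σ := by
    rw [hσ]
    refine ENNReal.toReal_pos ?_ (measure_ne_top _ _)
    rw [Measure.toSphere_apply_univ]
    refine mul_ne_zero ?_ (Metric.measure_ball_pos _ _ one_pos).ne'
    simp
    omega
  set τ : ℝ := (σ / (4 * (M + 1))) ^ (1 / κ) with hτ
  have hτ0 : 0 < τ := Real.rpow_pos_of_pos (by positivity) _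
  have hτκ : M * τ ^ κ < σ / 2 := by
    rw [hτ, ← Real.rpow_mul (by positivity), one_div_mul_cancel hκ.ne', Real.rpow_one]
    have h1 : M * (σ / (4 * (M + 1))) = σ / 4 * (M / (M + 1)) := by
      field_simp
    rw [h1]
    have h2 : M / (M + 1) ≤ 1 := (div_le_one (by linarith)).2 (by linarith)
    nlinarith
  have key : ∀ P P' : MvPolynomial (Fin n) ℝ, P.totalDegree ≤ max D 1 → P'.totalDegree ≤ max D 1 →
      ∀ x1 x2 : E n, ‖x1‖ = 1 → ‖x2‖ = 1 → ev P x1 ≠ 0 → ev P' x2 ≠ 0 → ∃ x : E n, ‖x‖ = 1 ∧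
        τ * |ev P x1| < |ev P x| ∧ τ * |ev P' x2| < |ev P' x| := by
    intro P P' hP hP' x1 x2 hx1 hx2 h1 h2
    by_contra hcon
    push Not at hcon
    have hu : (univ : Set (S n)) ⊆ {x : S n | |ev P x| ≤ τ * |ev P x1|} ∪
        {x : S n | |ev P' x| ≤ τ * |ev P' x2|} := by
      intro x _
      have hx : ‖(x : E n)‖ = 1 := by simp
      by_cases h : |ev P x| ≤ τ * |ev P x1|
      · exact Or.inl h
      · exact Or.inr (hcon x hx (not_le.1 h))
    have h3 := (measure_mono hu).trans (measure_union_le (μ := sm n) _ _)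
    have h4 := h3.trans (add_le_add (H P hP x1 hx1 h1 τ hτ0.le) (H P' hP' x2 hx2 h2 τ hτ0.le))
    rw [← ENNReal.ofReal_add (by positivity) (by positivity)] at h4
    have h5 : σ ≤ M * τ ^ κ + M * τ ^ κ := by
      rw [hσ]
      exact ENNReal.toReal_le_of_le_ofReal (by positivity) h4
    linarith
  refine ⟨τ ^ 2, by positivity, ?_⟩
  intro Q hQ hN t ζ
  obtain ⟨hB, x1, hx1, he1⟩ := hN
  have hQ1 : ev Q x1 ≠ 0 := by
    intro h
    rw [h, abs_zero] at he1
    exact zero_ne_one he1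
  by_cases hz : |t| + ‖ζ‖ = 0
  · refine ⟨x1, hx1, ?_⟩
    rw [hz, mul_zero]
    exact abs_nonneg _
  · have hz' : 0 < |t| + ‖ζ‖ := lt_of_le_of_ne (by positivity) (Ne.symm hz)
    obtain ⟨u, hu1, hu2⟩ : ∃ u : E n, ‖u‖ = 1 ∧ ⟪u, ζ⟫ = ‖ζ‖ := by
      by_cases h0 : ζ = 0
      · refine ⟨x1, hx1, ?_⟩
        rw [h0]
        simp
      · have hζ : 0 < ‖ζ‖ := norm_pos_iff.2 h0
        refine ⟨(‖ζ‖)⁻¹ • ζ, ?_, ?_⟩
        · rw [norm_smul, norm_inv, norm_norm, inv_mul_cancel₀ hζ.ne']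
        · rw [real_inner_smul_left, real_inner_self_eq_norm_sq]
          field_simp
    obtain ⟨x2, hx2, he2⟩ : ∃ x2 : E n, ‖x2‖ = 1 ∧ |ev (lin t ζ) x2| = |t| + ‖ζ‖ := by
      rcases le_total 0 t with h | h
      · refine ⟨u, hu1, ?_⟩
        rw [ev_lin, hu2, abs_of_nonneg h, abs_of_nonneg (by positivity)]
      · refine ⟨-u, by rw [norm_neg, hu1], ?_⟩
        rw [ev_lin, inner_neg_left, hu2, abs_of_nonpos h, abs_of_nonpos]
        · ring
        · have := norm_nonneg ζ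
          linarith
    obtain ⟨x, hx, h1, h2⟩ := key Q (lin t ζ) (hQ.trans (le_max_left _ _))
      ((lin_deg t ζ).trans (le_max_right _ _)) x1 x2 hx1 hx2 hQ1 (by
        intro h
        rw [h, abs_zero] at he2
        exact hz he2.symm)
    refine ⟨x, hx, ?_⟩
    rw [he1, mul_one] at h1
    rw [he2, ev_lin] at h2
    rw [abs_mul]
    calc τ ^ 2 * (|t| + ‖ζ‖) = (τ * (|t| + ‖ζ‖)) * τ := by ring
      _ ≤ |t + ⟪x, ζ⟫| * |ev Q x| := mul_le_mul h2.le h1.le hτ0.le (abs_nonneg _)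

theorem exists_norm {X : Type} [TopologicalSpace X] [CompactSpace X] [Nonempty X] (F : C(X, ℝ)) :
    ∃ x, |F x| = ‖F‖ := by
  obtain ⟨x, -, hx⟩ := isCompact_univ.exists_isMaxOn (univ_nonempty (α := X))
    (F.continuous.norm.continuousOn)
  refine ⟨x, le_antisymm ?_ ?_⟩
  · exact F.norm_coe_le_norm x
  · refine (ContinuousMap.norm_le F (abs_nonneg _)).2 fun y => ?_
    exact hx (mem_univ y)

/-- Normal form modulo the affine functions times `Q`. -/
theorem normal (hn : 2 ≤ n) (D : ℕ) : ∃ c : ℝ, 0 < c ∧ ∀ P Q : MvPolynomial (Fin n) ℝ,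
    P.totalDegree ≤ D → Q.totalDegree ≤ D → Nm Q →
      ∃ (P' : MvPolynomial (Fin n) ℝ) (ζ : E n) (t L : ℝ), P'.totalDegree ≤ D + 1 ∧
        P = P' + lin t ζ * Q ∧ 0 ≤ L ∧ Bd L P' ∧
        ∀ (ξ : E n) (s : ℝ), ∃ x : E n, ‖x‖ = 1 ∧ c * (L + ‖ξ‖) ≤ |ev P' x - (s + ⟪x, ξ⟫) * ev Q x| := by
  obtain ⟨c0, hc0, H⟩ := two_pts hn D
  refine ⟨min 1 c0 / 3, by positivity, ?_⟩
  intro P Q hP hQ hN
  have hne : Nonempty (S n) := by
    obtain ⟨-, x1, hx1, -⟩ := hN
    exact ⟨⟨x1, by simpa using hx1⟩⟩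
  set p : C(S n, ℝ) := ⟨fun x => ev P x, (ev_cont P).comp continuous_subtype_val⟩ with hp
  set A : (ℝ × E n) →ₗ[ℝ] C(S n, ℝ) :=
    { toFun := fun v => ⟨fun x => (v.1 + ⟪(x : E n), v.2⟫) * ev Q x, by
        have := (ev_cont Q).comp (continuous_subtype_val (p := fun x : E n => x ∈ S n))
        have h2 : Continuous fun x : S n => ev Q (x : E n) := this
        fun_prop⟩
      map_add' := by
        intro v w
        ext x
        simp only [Prod.fst_add, Prod.snd_add, inner_add_right, ContinuousMap.coe_mk,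
          ContinuousMap.add_apply]
        ring
      map_smul' := by
        intro r v
        ext x
        simp only [Prod.smul_fst, Prod.smul_snd, inner_smul_right, ContinuousMap.coe_mk,
          ContinuousMap.smul_apply, smul_eq_mul, RingHom.id_apply]
        ring } with hA
  have hAx : ∀ (v : ℝ × E n) (x : S n), A v x = (v.1 + ⟪(x : E n), v.2⟫) * ev Q x := fun v x => rfl
  have hpx : ∀ x : S n, p x = ev P x := fun x => rfl
  have hAn : ∀ v : ℝ × E n, c0 * (|v.1| + ‖v.2‖) ≤ ‖A v‖ := by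
    intro v
    obtain ⟨x, hx, h⟩ := H Q hQ hN v.1 v.2
    exact h.trans ((A v).norm_coe_le_norm ⟨x, by simpa using hx⟩)
  have hAc : Continuous A := A.continuous_of_finiteDimensional
  obtain ⟨v0, hv0⟩ := (continuous_const.sub hAc).norm.exists_forall_le (f := fun v => ‖p - A v‖) (by
    have h1 : Tendsto (fun v : ℝ × E n => c0 * ‖v‖ - ‖p‖) (cocompact _) atTop := by
      refine tendsto_atTop_add_const_right _ _ ?_
      exact (tendsto_norm_cocompact_atTop).const_mul_atTop hc0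
    refine tendsto_atTop_mono (fun v => ?_) h1
    have h2 := hAn v
    have h3 : ‖A v‖ ≤ ‖p - A v‖ + ‖p‖ := by
      have := norm_sub_norm_le (A v) p
      rw [norm_sub_rev] at this
      linarith
    have h4 : ‖v‖ ≤ |v.1| + ‖v.2‖ := by
      rw [Prod.norm_def]
      refine max_le ?_ ?_
      · rw [Real.norm_eq_abs]
        linarith [norm_nonneg v.2]
      · linarith [abs_nonneg v.1]
    nlinarith)
  refine ⟨P - lin v0.1 v0.2 * Q, v0.2, v0.1, ‖p - A v0‖, ?_, by ring, norm_nonneg _, ?_, ?_⟩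
  · refine (totalDegree_sub _ _).trans (max_le (hP.trans (Nat.le_succ _)) ?_)
    refine (totalDegree_mul _ _).trans ?_
    have := lin_deg v0.1 v0.2
    omega
  · intro x hx
    rw [ev_sub', ev_mul', ev_lin]
    exact (p - A v0).norm_coe_le_norm ⟨x, by simpa using hx⟩
  · intro ξ s
    obtain ⟨x, hx⟩ := exists_norm (p - A (v0 + (s, ξ)))
    refine ⟨x, by simp, ?_⟩
    have h1 : ev (P - lin v0.1 v0.2 * Q) x - (s + ⟪(x : E n), ξ⟫) * ev Q x =
        (p - A (v0 + (s, ξ))) x := by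
      rw [ev_sub', ev_mul', ev_lin, ContinuousMap.sub_apply, hAx, hpx, Prod.fst_add, Prod.snd_add,
        inner_add_right]
      ring
    rw [h1, hx]
    have h2 := hv0 (v0 + (s, ξ))
    have h3 : c0 * ‖ξ‖ ≤ ‖A (s, ξ)‖ := by
      refine le_trans ?_ (hAn (s, ξ))
      have := abs_nonneg s
      nlinarith
    have h4 : ‖A (s, ξ)‖ ≤ ‖p - A (v0 + (s, ξ))‖ + ‖p - A v0‖ := by
      have e : A (s, ξ) = (p - A v0) - (p - A (v0 + (s, ξ))) := by
        rw [map_add]
        abel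
      rw [e]
      refine (norm_sub_le _ _).trans ?_
      linarith
    have h5 : min 1 c0 * ‖ξ‖ ≤ c0 * ‖ξ‖ := by
      have := min_le_right 1 c0
      have := norm_nonneg ξ
      nlinarith
    have h6 : min 1 c0 * ‖p - A v0‖ ≤ ‖p - A v0‖ := by
      have := min_le_left 1 c0
      have := norm_nonneg (p - A v0)
      nlinarith
    have h7 : min 1 c0 / 3 * (‖p - A v0‖ + ‖ξ‖) =
        (min 1 c0 * ‖p - A v0‖ + min 1 c0 * ‖ξ‖) / 3 := by ring
    rw [h7]
    linarith

end Pool.Agent.VANn.RAT
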