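import Pool.Agent.RAT.PW
import Pool.Agent.RAT.Fm

/-!
One constant for all phases given by a formula with at most `N` atoms.
-/

set_option autoImplicit false

namespace Pool.Agent.VANn.RAT

open MeasureTheory Set MvPolynomial Pool.Agent.MP_6cbfb8_an Pool.Agent.VANn.TM Filter Topology
open Pool.Agent.GNP (BVn BN2)
open scoped ENNReal Real ContDiff RealInnerProductSpace

variable {n : ℕ}

theorem HasFormula.pos {N : ℕ} {f : E n → ℝ} (h : HasFormula n N f) : 1 ≤ N := by
  induction h with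
  | const c => exact le_rfl
  | coord i => exact le_rfl
  | add _ _ h1 h2 => omega
  | mul _ _ h1 h2 => omega
  | div _ _ h1 h2 => omega
  | cond _ _ _ h1 h2 h3 => omega

/-- The sign pattern. -/
noncomputable def sg {ι : Type} (R : ι → MvPolynomial (Fin n) ℝ) (x : E n) : ι → Bool :=
  fun i => decide (0 < ev (R i) x)

/-- The normal form: piecewise rational with denominators which do not vanish on their cells. -/
def NF (n K D : ℕ) (f : E n → ℝ) : Prop :=
  ∃ (ι : Type) (_ : Fintype ι) (R : ι → MvPolynomial (Fin n) ℝ)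
    (P Q : (ι → Bool) → MvPolynomial (Fin n) ℝ), Fintype.card ι ≤ K ∧
    (∀ i, (R i).totalDegree ≤ D) ∧ (∀ σ, (P σ).totalDegree ≤ D) ∧ (∀ σ, (Q σ).totalDegree ≤ D) ∧
    ∀ x, ev (Q (sg R x)) x ≠ 0 ∧ f x = ev (P (sg R x)) x / ev (Q (sg R x)) x

theorem NF.mono {K K' D D' : ℕ} {f : E n → ℝ} (h : NF n K D f) (hK : K ≤ K') (hD : D ≤ D') :
    NF n K' D' f := by
  obtain ⟨ι, hι, R, P, Q, h1, h2, h3, h4, h5⟩ := h
  exact ⟨ι, hι, R, P, Q, h1.trans hK, fun i => (h2 i).trans hD, fun σ => (h3 σ).trans hD,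
    fun σ => (h4 σ).trans hD, h5⟩

theorem pf_ev_add (P Q : MvPolynomial (Fin n) ℝ) (x : E n) : ev (P + Q) x = ev P x + ev Q x := by
  simp [ev]

theorem pf_ev_mul (P Q : MvPolynomial (Fin n) ℝ) (x : E n) : ev (P * Q) x = ev P x * ev Q x := by
  simp [ev]

theorem pf_deg_mul {P Q : MvPolynomial (Fin n) ℝ} {D : ℕ} (hP : P.totalDegree ≤ D)
    (hQ : Q.totalDegree ≤ D) : (P * Q).totalDegree ≤ 2 * D :=
  (totalDegree_mul _ _).trans (by omega)

theorem NF.const (c : ℝ) : NF n 0 1 fun _ => c := by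
  refine ⟨Empty, inferInstance, Empty.elim, fun _ => C c, fun _ => 1, by simp,
    fun i => i.elim, by simp, by simp, fun x => ?_⟩
  simp [ev]

theorem NF.coord (i : Fin n) : NF n 0 1 fun x => x i := by
  refine ⟨Empty, inferInstance, Empty.elim, fun _ => X i, fun _ => 1, by simp,
    fun i => i.elim, by simp, by simp, fun x => ?_⟩
  simp [ev]

theorem NF.add {K D : ℕ} {f g : E n → ℝ} (hf : NF n K D f) (hg : NF n K D g) :
    NF n (K + K) (2 * D) fun x => f x + g x := by
  obtain ⟨ι, hι, R, P, Q, h1, h2, h3, h4, h5⟩ := hf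
  obtain ⟨ι', hι', R', P', Q', h1', h2', h3', h4', h5'⟩ := hg
  refine ⟨ι ⊕ ι', inferInstance, Sum.elim R R',
    fun σ => P (fun i => σ (Sum.inl i)) * Q' (fun i => σ (Sum.inr i)) +
      P' (fun i => σ (Sum.inr i)) * Q (fun i => σ (Sum.inl i)),
    fun σ => Q (fun i => σ (Sum.inl i)) * Q' (fun i => σ (Sum.inr i)), ?_, ?_, ?_, ?_, fun x => ?_⟩
  · rw [Fintype.card_sum]
    exact add_le_add h1 h1'
  · rintro (i | i)
    · exact (h2 i).trans (by omega)
    · exact (h2' i).trans (by omega)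
  · intro σ
    exact (totalDegree_add _ _).trans (max_le (pf_deg_mul (h3 _) (h4' _)) (pf_deg_mul (h3' _) (h4 _)))
  · intro σ
    exact pf_deg_mul (h4 _) (h4' _)
  · have e1 : (fun i => sg (Sum.elim R R') x (Sum.inl i)) = sg R x := rfl
    have e2 : (fun i => sg (Sum.elim R R') x (Sum.inr i)) = sg R' x := rfl
    simp only [e1, e2]
    obtain ⟨a1, a2⟩ := h5 x
    obtain ⟨b1, b2⟩ := h5' x
    rw [pf_ev_mul, pf_ev_add, pf_ev_mul, pf_ev_mul, a2, b2]
    refine ⟨mul_ne_zero a1 b1, ?_⟩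
    field_simp

theorem NF.mul {K D : ℕ} {f g : E n → ℝ} (hf : NF n K D f) (hg : NF n K D g) :
    NF n (K + K) (2 * D) fun x => f x * g x := by
  obtain ⟨ι, hι, R, P, Q, h1, h2, h3, h4, h5⟩ := hf
  obtain ⟨ι', hι', R', P', Q', h1', h2', h3', h4', h5'⟩ := hg
  refine ⟨ι ⊕ ι', inferInstance, Sum.elim R R',
    fun σ => P (fun i => σ (Sum.inl i)) * P' (fun i => σ (Sum.inr i)),
    fun σ => Q (fun i => σ (Sum.inl i)) * Q' (fun i => σ (Sum.inr i)), ?_, ?_, ?_, ?_, fun x => ?_⟩
  · rw [Fintype.card_sum]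
    exact add_le_add h1 h1'
  · rintro (i | i)
    · exact (h2 i).trans (by omega)
    · exact (h2' i).trans (by omega)
  · intro σ
    exact pf_deg_mul (h3 _) (h3' _)
  · intro σ
    exact pf_deg_mul (h4 _) (h4' _)
  · have e1 : (fun i => sg (Sum.elim R R') x (Sum.inl i)) = sg R x := rfl
    have e2 : (fun i => sg (Sum.elim R R') x (Sum.inr i)) = sg R' x := rfl
    simp only [e1, e2]
    obtain ⟨a1, a2⟩ := h5 x
    obtain ⟨b1, b2⟩ := h5' x
    rw [pf_ev_mul, pf_ev_mul, a2, b2]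
    refine ⟨mul_ne_zero a1 b1, ?_⟩
    field_simp

theorem NF.div {K D : ℕ} {f g : E n → ℝ} (hf : NF n K D f) (hg : NF n K D g) :
    NF n (K + (K + 2 ^ K)) (2 * D) fun x => f x / g x := by
  classical
  obtain ⟨ι, hι, R, P, Q, h1, h2, h3, h4, h5⟩ := hf
  obtain ⟨ι', hι', R', P', Q', h1', h2', h3', h4', h5'⟩ := hg
  refine ⟨ι ⊕ (ι' ⊕ (ι' → Bool)), inferInstance,
    Sum.elim R (Sum.elim R' fun τ => P' τ * P' τ),
    fun σ => if σ (Sum.inr (Sum.inr fun i => σ (Sum.inr (Sum.inl i)))) then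
      P (fun i => σ (Sum.inl i)) * Q' (fun i => σ (Sum.inr (Sum.inl i))) else 0,
    fun σ => if σ (Sum.inr (Sum.inr fun i => σ (Sum.inr (Sum.inl i)))) then
      Q (fun i => σ (Sum.inl i)) * P' (fun i => σ (Sum.inr (Sum.inl i))) else 1,
    ?_, ?_, ?_, ?_, fun x => ?_⟩
  · rw [Fintype.card_sum, Fintype.card_sum, Fintype.card_fun, Fintype.card_bool]
    exact add_le_add h1 (add_le_add h1' (Nat.pow_le_pow_right (by norm_num) h1'))
  · rintro (i | i | i)
    · exact (h2 i).trans (by omega)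
    · exact (h2' i).trans (by omega)
    · exact pf_deg_mul (h3' _) (h3' _)
  · intro σ
    dsimp only
    split_ifs
    · exact pf_deg_mul (h3 _) (h4' _)
    · simp
  · intro σ
    dsimp only
    split_ifs
    · exact pf_deg_mul (h4 _) (h3' _)
    · simp
  · set S := Sum.elim R (Sum.elim R' fun τ => P' τ * P' τ) with hS
    have e1 : (fun i => sg S x (Sum.inl i)) = sg R x := rfl
    have e2 : (fun i => sg S x (Sum.inr (Sum.inl i))) = sg R' x := rfl
    have e3 : sg S x (Sum.inr (Sum.inr (sg R' x))) =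
        decide (0 < ev (P' (sg R' x) * P' (sg R' x)) x) := rfl
    simp only [e1, e2, e3]
    obtain ⟨a1, a2⟩ := h5 x
    obtain ⟨b1, b2⟩ := h5' x
    by_cases h0 : ev (P' (sg R' x)) x = 0
    · have h6 : ¬ 0 < ev (P' (sg R' x) * P' (sg R' x)) x := by
        rw [pf_ev_mul, h0]
        simp
      simp only [h6, decide_false, Bool.false_eq_true, if_false]
      rw [b2, h0]
      simp [ev]
    · have h6 : 0 < ev (P' (sg R' x) * P' (sg R' x)) x := by
        rw [pf_ev_mul]
        exact mul_self_pos.2 h0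
      simp only [h6, decide_true, if_true]
      rw [pf_ev_mul, pf_ev_mul, a2, b2]
      refine ⟨mul_ne_zero a1 h0, ?_⟩
      field_simp

theorem NF.cond {K D : ℕ} {f g h : E n → ℝ} (hf : NF n K D f) (hg : NF n K D g)
    (hh : NF n K D h) : NF n (K + (K + (K + 2 ^ K))) (2 * D) fun x => if 0 < f x then g x else h x := by
  classical
  obtain ⟨ι, hι, R, P, Q, h1, h2, h3, h4, h5⟩ := hf
  obtain ⟨ι', hι', R', P', Q', h1', h2', h3', h4', h5'⟩ := hg
  obtain ⟨κ, hκ, T, A, B, k1, k2, k3, k4, k5⟩ := hh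
  refine ⟨ι' ⊕ (κ ⊕ (ι ⊕ (ι → Bool))), inferInstance,
    Sum.elim R' (Sum.elim T (Sum.elim R fun τ => P τ * Q τ)),
    fun σ => if σ (Sum.inr (Sum.inr (Sum.inr fun i => σ (Sum.inr (Sum.inr (Sum.inl i)))))) then
      P' (fun i => σ (Sum.inl i)) else A (fun i => σ (Sum.inr (Sum.inl i))),
    fun σ => if σ (Sum.inr (Sum.inr (Sum.inr fun i => σ (Sum.inr (Sum.inr (Sum.inl i)))))) then
      Q' (fun i => σ (Sum.inl i)) else B (fun i => σ (Sum.inr (Sum.inl i))),
    ?_, ?_, ?_, ?_, fun x => ?_⟩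
  · rw [Fintype.card_sum, Fintype.card_sum, Fintype.card_sum, Fintype.card_fun, Fintype.card_bool]
    exact add_le_add h1' (add_le_add k1 (add_le_add h1 (Nat.pow_le_pow_right (by norm_num) h1)))
  · rintro (i | i | i | i)
    · exact (h2' i).trans (by omega)
    · exact (k2 i).trans (by omega)
    · exact (h2 i).trans (by omega)
    · exact pf_deg_mul (h3 _) (h4 _)
  · intro σ
    dsimp only
    split_ifs
    · exact (h3' _).trans (by omega)
    · exact (k3 _).trans (by omega)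
  · intro σ
    dsimp only
    split_ifs
    · exact (h4' _).trans (by omega)
    · exact (k4 _).trans (by omega)
  · set S := Sum.elim R' (Sum.elim T (Sum.elim R fun τ => P τ * Q τ)) with hS
    have e1 : (fun i => sg S x (Sum.inl i)) = sg R' x := rfl
    have e2 : (fun i => sg S x (Sum.inr (Sum.inl i))) = sg T x := rfl
    have e3 : (fun i => sg S x (Sum.inr (Sum.inr (Sum.inl i)))) = sg R x := rfl
    have e4 : sg S x (Sum.inr (Sum.inr (Sum.inr (sg R x)))) =
        decide (0 < ev (P (sg R x) * Q (sg R x)) x) := rfl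
    simp only [e1, e2, e3, e4]
    obtain ⟨a1, a2⟩ := h5 x
    have h6 : (0 < f x) ↔ 0 < ev (P (sg R x) * Q (sg R x)) x := by
      rw [a2, pf_ev_mul, div_pos_iff, mul_pos_iff]
    by_cases h0 : 0 < f x
    · rw [if_pos h0]
      simp only [h6.1 h0, decide_true, if_true]
      exact h5' x
    · rw [if_neg h0]
      have h7 : ¬ 0 < ev (P (sg R x) * Q (sg R x)) x := fun h8 => h0 (h6.2 h8)
      simp only [h7, decide_false, Bool.false_eq_true, if_false]
      exact k5 x

/-- Formulas of bounded size have normal forms of bounded size. -/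
theorem exists_NF (n N : ℕ) : ∃ K D : ℕ, 1 ≤ D ∧
    ∀ (k : ℕ) (f : E n → ℝ), k ≤ N → HasFormula n k f → NF n K D f := by
  induction N with
  | zero =>
    refine ⟨0, 1, le_rfl, fun k f hk h => ?_⟩
    have := h.pos
    omega
  | succ N ih =>
    obtain ⟨K, D, hD, IH⟩ := ih
    have hpw : 0 < 2 ^ K := by positivity
    refine ⟨K + (K + (K + 2 ^ K)), 2 * D, by omega, fun k f hk h => ?_⟩
    cases h with
    | const c => exact (NF.const c).mono (by omega) (by omega)
    | coord i => exact (NF.coord i).mono (by omega) (by omega)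
    | @add k l f g h1 h2 =>
      have p1 := h1.pos
      have p2 := h2.pos
      exact ((IH k f (by omega) h1).add (IH l g (by omega) h2)).mono (by omega) le_rfl
    | @mul k l f g h1 h2 =>
      have p1 := h1.pos
      have p2 := h2.pos
      exact ((IH k f (by omega) h1).mul (IH l g (by omega) h2)).mono (by omega) le_rfl
    | @div k l f g h1 h2 =>
      have p1 := h1.pos
      have p2 := h2.pos
      exact ((IH k f (by omega) h1).div (IH l g (by omega) h2)).mono (by omega) le_rfl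
    | @cond k l m f g h h1 h2 h3 =>
      have p1 := h1.pos
      have p2 := h2.pos
      have p3 := h3.pos
      exact (IH k f (by omega) h1).cond (IH l g (by omega) h2) (IH m h (by omega) h3)

/-- Padding: exactly `K` cuts. -/
theorem NF.pad {K D : ℕ} {f : E n → ℝ} (h : NF n K D f) :
    ∃ (R : Fin K → MvPolynomial (Fin n) ℝ) (P Q : (Fin K → Bool) → MvPolynomial (Fin n) ℝ),
      (∀ i, (R i).totalDegree ≤ D) ∧ (∀ σ, (P σ).totalDegree ≤ D) ∧ (∀ σ, (Q σ).totalDegree ≤ D) ∧
      ∀ x, f x = ev (P (cell R x)) x / ev (Q (cell R x)) x := by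
  classical
  obtain ⟨ι, hι, R, P, Q, h1, h2, h3, h4, h5⟩ := h
  have e := Fintype.equivFin ι
  refine ⟨fun j => if h : (j : ℕ) < Fintype.card ι then R (e.symm ⟨j, h⟩) else 0,
    fun σ => P fun i => σ (Fin.castLE h1 (e i)), fun σ => Q fun i => σ (Fin.castLE h1 (e i)),
    ?_, fun σ => h3 _, fun σ => h4 _, fun x => ?_⟩
  · intro j
    dsimp only
    split_ifs
    · exact h2 _
    · simp
  · rw [(h5 x).2]
    have e1 : (fun i => cell (fun j : Fin K => if h : (j : ℕ) < Fintype.card ι then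
        R (e.symm ⟨j, h⟩) else 0) x (Fin.castLE h1 (e i))) = sg R x := by
      funext i
      unfold cell sg
      have h6 : ((Fin.castLE h1 (e i) : Fin K) : ℕ) < Fintype.card ι := by
        simp
      have h7 : (⟨((Fin.castLE h1 (e i) : Fin K) : ℕ), h6⟩ : Fin (Fintype.card ι)) = e i := by
        ext
        simp
      have h8 : (if h : ((Fin.castLE h1 (e i) : Fin K) : ℕ) < Fintype.card ι then
          R (e.symm ⟨((Fin.castLE h1 (e i) : Fin K) : ℕ), h⟩) else 0) = R i := by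
        rw [dif_pos h6, h7, Equiv.symm_apply_apply]
      simp only [h8]
    dsimp only
    rw [e1]

/-- **One constant for all phases given by a formula with at most `N` atoms.** -/
theorem formula_hs {m : ℕ} (hm : 2 ≤ m) {s : ℝ} (hs : (m : ℝ) / (m + 1) < s) (V : ℝ) (N : ℕ)
    (p : ℝ) (hp : 2 * ((m : ℝ) + 1) / m < p) : ∃ C : ℝ≥0∞, C ≠ ⊤ ∧
    ∀ (k : ℕ) (ψ : E (m + 1) → ℝ), k ≤ N → HasFormula (m + 1) k ψ →
      ∀ w : E (m + 1) → ℂ, Amp (m + 1) s V w →
      ∫⁻ ξ, ‖extn (fun x => w x * Complex.exp (((ψ x : ℝ) : ℂ) * Complex.I)) ξ‖ₑ ^ p ≤ C := by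
  obtain ⟨K, D, -, hNF⟩ := exists_NF (m + 1) N
  obtain ⟨C, hC, h⟩ := piecewise_hs hm hs V D K p hp
  refine ⟨C, hC, fun k ψ hk hψ w hw => ?_⟩
  obtain ⟨R, P, Q, h1, h2, h3, h4⟩ := (hNF k ψ hk hψ).pad
  refine h R P Q (fun _ => w) h1 h2 h3 (fun _ => hw) _ fun x _ => ?_
  rw [h4 x]

end Pool.Agent.VANn.RAT
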