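import Pool.Agent.VAN.PD1
import Pool.Agent.RAT.Fm

/-!
The phases which are given by formulas are dense: Stein's restriction estimate is the independence of the
length of the formula of the constant, and the best constants are the same.
-/

set_option autoImplicit false

namespace Pool.Agent.VANn.RAT

open MeasureTheory Set MvPolynomial Pool.Agent.MP_6cbfb8_an Filter Topology
open scoped ENNReal Real

variable {n : ℕ}

/-- Functions which are given by formulas are measurable. -/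
theorem HasFormula.meas {N : ℕ} {f : E n → ℝ} (h : HasFormula n N f) : Measurable f := by
  induction h with
  | const c => exact measurable_const
  | coord i => exact (by fun_prop : Continuous fun x : E n => x i).measurable
  | add _ _ h1 h2 => exact h1.add h2
  | mul _ _ h1 h2 => exact h1.mul h2
  | div _ _ h1 h2 => exact h1.div h2
  | cond _ _ _ h1 h2 h3 => exact Measurable.ite (measurableSet_lt measurable_const h1) h2 h3

/-- Polynomials have formulas. -/
theorem exists_formula (P : MvPolynomial (Fin n) ℝ) :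
    ∃ k, HasFormula n k fun x => eval (fun i => x i) P := by
  induction P using MvPolynomial.induction_on with
  | C a => exact ⟨1, by simpa using HasFormula.const a⟩
  | add p q hp hq =>
    obtain ⟨k, hk⟩ := hp
    obtain ⟨l, hl⟩ := hq
    exact ⟨k + l, by simpa using hk.add hl⟩
  | mul_X p i hp =>
    obtain ⟨k, hk⟩ := hp
    exact ⟨k + 1, by simpa using hk.mul (HasFormula.coord i)⟩

/-- Fatou's lemma for the norms of the transforms, the transforms converging pointwise. -/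
theorem fatou_extn {p : ℝ} {g : ℕ → E n → ℂ} {g₀ : E n → ℂ} (hm : ∀ i, Measurable (g i))
    (hlim : ∀ ξ, Tendsto (fun i => extn (g i) ξ) atTop (𝓝 (extn g₀ ξ)))
    {C : ℝ≥0∞} (hC : ∀ i, ∫⁻ ξ, ‖extn (g i) ξ‖ₑ ^ p ≤ C) : ∫⁻ ξ, ‖extn g₀ ξ‖ₑ ^ p ≤ C := by
  have h2 : ∀ ξ, Tendsto (fun i => ‖extn (g i) ξ‖ₑ ^ p) atTop (𝓝 (‖extn g₀ ξ‖ₑ ^ p)) := by
    intro ξ
    exact ((ENNReal.continuous_rpow_const (y := p)).tendsto _).comp (hlim ξ).enorm
  calc ∫⁻ ξ, ‖extn g₀ ξ‖ₑ ^ p = ∫⁻ ξ, liminf (fun i => ‖extn (g i) ξ‖ₑ ^ p) atTop := by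
        refine lintegral_congr fun ξ => ?_
        rw [(h2 ξ).liminf_eq]
    _ ≤ liminf (fun i => ∫⁻ ξ, ‖extn (g i) ξ‖ₑ ^ p) atTop :=
        lintegral_liminf_le fun i => (measurable_extn _ (hm i)).enorm.pow_const _
    _ ≤ C := liminf_le_of_frequently_le' (Frequently.of_forall fun i => hC i)

lemma norm_exp_sub_le (a b : ℝ) :
    ‖Complex.exp ((a : ℂ) * Complex.I) - Complex.exp ((b : ℂ) * Complex.I)‖ ≤ |a - b| := by
  have h1 : Complex.exp ((a : ℂ) * Complex.I) - Complex.exp ((b : ℂ) * Complex.I) =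
      Complex.exp ((b : ℂ) * Complex.I) * (Complex.exp (Complex.I * ((a - b : ℝ) : ℂ)) - 1) := by
    rw [mul_sub, ← Complex.exp_add, mul_one]
    congr 2
    push_cast
    ring
  rw [h1, norm_mul, Complex.norm_exp_ofReal_mul_I, one_mul]
  simpa using Real.norm_exp_I_mul_ofReal_sub_one_le (x := a - b)

/-- The integrand of the transform is integrable. -/
lemma int_extn {g : E n → ℂ} (hg : Measurable g) (hb : ∀ x, ‖g x‖ ≤ 1) (ξ : E n) :
    Integrable (fun x : S n => g x *
      Complex.exp (((-(2 * π * inner ℝ (x : E n) ξ) : ℝ) : ℂ) * Complex.I)) (sm n) := by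
  have h2 : Measurable fun x : S n =>
      Complex.exp (((-(2 * π * inner ℝ (x : E n) ξ) : ℝ) : ℂ) * Complex.I) :=
    (by fun_prop : Continuous fun x : S n =>
      Complex.exp (((-(2 * π * inner ℝ (x : E n) ξ) : ℝ) : ℂ) * Complex.I)).measurable
  have h1 := hg.comp (measurable_subtype_coe (p := fun x : E n => x ∈ S n))
  refine Integrable.mono' (integrable_const (1 : ℝ)) (h1.mul h2).aestronglyMeasurable ?_
  refine Filter.Eventually.of_forall fun x => ?_
  rw [norm_mul, Complex.norm_exp_ofReal_mul_I, mul_one]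
  exact hb _

/-- From continuous phases to bounded measurable phases, with the same constant. -/
theorem meas_of_cont {p : ℝ} {C : ℝ≥0∞} (H : ∀ φ : E n → ℝ, Continuous φ →
      ∫⁻ ξ, ‖extn (fun x => Complex.exp ((φ x : ℂ) * Complex.I)) ξ‖ₑ ^ p ≤ C)
    {θ : E n → ℝ} (hθ : Measurable θ) {B : ℝ} (hB : ∀ x, |θ x| ≤ B) :
    ∫⁻ ξ, ‖extn (fun x => Complex.exp ((θ x : ℂ) * Complex.I)) ξ‖ₑ ^ p ≤ C := by
  set μ : Measure (E n) := (sm n).map (Subtype.val : S n → E n) with hμ
  have hfin : IsFiniteMeasure μ := by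
    rw [hμ]
    infer_instance
  have hi : Integrable θ μ :=
    Integrable.mono' (integrable_const B) hθ.aestronglyMeasurable
      (Eventually.of_forall fun x => by rw [Real.norm_eq_abs]; exact hB x)
  have h1 : ∀ k : ℕ, ∃ φ : E n → ℝ, Continuous φ ∧ Integrable φ μ ∧
      ∫ x, ‖θ x - φ x‖ ∂μ ≤ 1 / ((k : ℝ) + 1) := by
    intro k
    obtain ⟨φ, _, h2, h3, h4⟩ := hi.exists_hasCompactSupport_integral_sub_le
      (Nat.one_div_pos_of_nat (n := k) (α := ℝ))
    exact ⟨φ, h3, h4, h2⟩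
  choose φ h2 h3 h4 using h1
  refine fatou_extn (g := fun k (x : E n) => Complex.exp ((φ k x : ℂ) * Complex.I))
    (fun k => by have := (h2 k).measurable; fun_prop) (fun ξ => ?_) fun k => H (φ k) (h2 k)
  rw [tendsto_iff_norm_sub_tendsto_zero]
  refine squeeze_zero (fun _ => norm_nonneg _) (fun k => ?_) tendsto_one_div_add_atTop_nhds_zero_nat
  have hem := (measurable_subtype_coe (p := fun x : E n => x ∈ S n))
  calc ‖extn (fun x => Complex.exp ((φ k x : ℂ) * Complex.I)) ξ -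
        extn (fun x => Complex.exp ((θ x : ℂ) * Complex.I)) ξ‖
      = ‖∫ x : S n, (Complex.exp ((φ k x : ℂ) * Complex.I) - Complex.exp ((θ x : ℂ) * Complex.I)) *
          Complex.exp (((-(2 * π * inner ℝ (x : E n) ξ) : ℝ) : ℂ) * Complex.I) ∂(sm n)‖ := by
        unfold extn
        rw [← integral_sub (int_extn (by have := (h2 k).measurable; fun_prop)
          (fun x => (Complex.norm_exp_ofReal_mul_I _).le) ξ)
          (int_extn (by fun_prop) (fun x => (Complex.norm_exp_ofReal_mul_I _).le) ξ)]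
        congr 1
        refine integral_congr_ae (Eventually.of_forall fun x => ?_)
        simp only
        ring
    _ ≤ ∫ x : S n, ‖θ x - φ k x‖ ∂(sm n) := by
        refine norm_integral_le_of_norm_le ?_ (Eventually.of_forall fun x => ?_)
        · have h5 : Integrable (fun x => ‖θ x - φ k x‖) μ := (hi.sub (h3 k)).norm
          rw [hμ, integrable_map_measure h5.1 hem.aemeasurable] at h5
          exact h5
        · rw [norm_mul, Complex.norm_exp_ofReal_mul_I, mul_one, Real.norm_eq_abs, abs_sub_comm]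
          exact norm_exp_sub_le _ _
    _ = ∫ x, ‖θ x - φ k x‖ ∂μ := by
        have h5 : AEStronglyMeasurable (fun x => ‖θ x - φ k x‖) μ := (hi.sub (h3 k)).norm.1
        rw [hμ, integral_map hem.aemeasurable h5]
    _ ≤ _ := h4 k

/-- A complex number in the unit disc is the mean of two numbers of the unit circle. -/
lemma mean_two {z : ℂ} (hz : ‖z‖ ≤ 1) :
    z = 2⁻¹ * Complex.exp (((Complex.arg z + Real.arccos ‖z‖ : ℝ) : ℂ) * Complex.I) +
      2⁻¹ * Complex.exp (((Complex.arg z - Real.arccos ‖z‖ : ℝ) : ℂ) * Complex.I) := by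
  have h1 : Real.cos (Real.arccos ‖z‖) = ‖z‖ :=
    Real.cos_arccos (by linarith [norm_nonneg z]) hz
  have h2 : Complex.cos ((Real.arccos ‖z‖ : ℝ) : ℂ) = ((‖z‖ : ℝ) : ℂ) := by
    rw [← Complex.ofReal_cos, h1]
  have h3 : Complex.exp (((Complex.arg z + Real.arccos ‖z‖ : ℝ) : ℂ) * Complex.I) +
      Complex.exp (((Complex.arg z - Real.arccos ‖z‖ : ℝ) : ℂ) * Complex.I) =
      2 * Complex.cos ((Real.arccos ‖z‖ : ℝ) : ℂ) * Complex.exp ((Complex.arg z : ℂ) * Complex.I) := by
    rw [Complex.two_cos, add_mul, ← Complex.exp_add, ← Complex.exp_add]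
    congr 2
    · push_cast
      ring
    · push_cast
      ring
  rw [← mul_add, h3, h2]
  conv_lhs => rw [← Complex.norm_mul_exp_arg_mul_I z]
  ring

/-- **Density with the same constant**: the estimate with the constant `C` for all measurable densities
bounded by `1` is the estimate with this constant for the phases given by formulas. -/
theorem formula_density {p : ℝ} (hp : 1 ≤ p) (C : ℝ≥0∞) :
    (∀ g : E n → ℂ, Measurable g → (∀ x, ‖g x‖ ≤ 1) → ∫⁻ ξ, ‖extn g ξ‖ₑ ^ p ≤ C) ↔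
    ∀ (k : ℕ) (ψ : E n → ℝ), HasFormula n k ψ →
      ∫⁻ ξ, ‖extn (fun x => Complex.exp ((ψ x : ℂ) * Complex.I)) ξ‖ₑ ^ p ≤ C := by
  refine ⟨fun h k ψ hψ => h _ (by have := hψ.meas; fun_prop)
    fun x => (Complex.norm_exp_ofReal_mul_I _).le, fun h g hg hb => ?_⟩
  have hc : ∀ φ : E n → ℝ, Continuous φ →
      ∫⁻ ξ, ‖extn (fun x => Complex.exp ((φ x : ℂ) * Complex.I)) ξ‖ₑ ^ p ≤ C := by
    refine Pool.Agent.VAN.PD.cont_of_poly fun P => ?_
    obtain ⟨k, hk⟩ := exists_formula P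
    exact h k _ hk
  have hpi := Real.pi_pos
  have hac : ∀ t : ℝ, |Real.arccos t| ≤ π := fun t => by
    rw [abs_of_nonneg (Real.arccos_nonneg t)]
    exact Real.arccos_le_pi t
  have h1 := meas_of_cont hc (θ := fun x => Complex.arg (g x) + Real.arccos ‖g x‖)
    ((Complex.measurable_arg.comp hg).add (Real.measurable_arccos.comp hg.norm)) (B := 2 * π)
    fun x => by
      have h2 := Complex.abs_arg_le_pi (g x)
      have h3 := hac ‖g x‖
      have h4 := abs_add_le (Complex.arg (g x)) (Real.arccos ‖g x‖)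
      linarith
  have h2 := meas_of_cont hc (θ := fun x => Complex.arg (g x) - Real.arccos ‖g x‖)
    ((Complex.measurable_arg.comp hg).sub (Real.measurable_arccos.comp hg.norm)) (B := 2 * π)
    fun x => by
      have h2 := Complex.abs_arg_le_pi (g x)
      have h3 := hac ‖g x‖
      have h4 := abs_sub (Complex.arg (g x)) (Real.arccos ‖g x‖)
      linarith
  set a : E n → ℂ := fun x =>
    Complex.exp (((Complex.arg (g x) + Real.arccos ‖g x‖ : ℝ) : ℂ) * Complex.I) with ha
  set b : E n → ℂ := fun x =>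
    Complex.exp (((Complex.arg (g x) - Real.arccos ‖g x‖ : ℝ) : ℂ) * Complex.I) with hb'
  have ham : Measurable a := by
    have h3 : Measurable fun x => Complex.arg (g x) + Real.arccos ‖g x‖ :=
      (Complex.measurable_arg.comp hg).add (Real.measurable_arccos.comp hg.norm)
    rw [ha]
    fun_prop
  have hbm : Measurable b := by
    have h3 : Measurable fun x => Complex.arg (g x) - Real.arccos ‖g x‖ :=
      (Complex.measurable_arg.comp hg).sub (Real.measurable_arccos.comp hg.norm)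
    rw [hb']
    fun_prop
  have h3 : ∀ ξ, extn g ξ = 2⁻¹ * extn a ξ + 2⁻¹ * extn b ξ := by
    intro ξ
    unfold extn
    rw [← integral_const_mul, ← integral_const_mul,
      ← integral_add ((int_extn ham (fun x => (Complex.norm_exp_ofReal_mul_I _).le) ξ).const_mul _)
        ((int_extn hbm (fun x => (Complex.norm_exp_ofReal_mul_I _).le) ξ).const_mul _)]
    refine integral_congr_ae (Eventually.of_forall fun x => ?_)
    simp only
    conv_lhs => rw [mean_two (hb x)]
    ring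
  have h4 : ∀ ξ, ‖extn g ξ‖ₑ ^ p ≤ 2⁻¹ * ‖extn a ξ‖ₑ ^ p + 2⁻¹ * ‖extn b ξ‖ₑ ^ p := by
    intro ξ
    have e2 : ‖(2⁻¹ : ℂ)‖ₑ = 2⁻¹ := by
      rw [enorm_inv (by norm_num)]
      congr 1
      rw [← ofReal_norm]
      simp
    refine le_trans ?_ (ENNReal.rpow_arith_mean_le_arith_mean2_rpow 2⁻¹ 2⁻¹ ‖extn a ξ‖ₑ ‖extn b ξ‖ₑ
      ENNReal.inv_two_add_inv_two hp)
    refine ENNReal.rpow_le_rpow ?_ (by linarith)
    rw [h3]
    refine (enorm_add_le _ _).trans ?_
    rw [enorm_mul, enorm_mul, e2]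
  calc ∫⁻ ξ, ‖extn g ξ‖ₑ ^ p ≤ ∫⁻ ξ, (2⁻¹ * ‖extn a ξ‖ₑ ^ p + 2⁻¹ * ‖extn b ξ‖ₑ ^ p) :=
        lintegral_mono h4
    _ = 2⁻¹ * (∫⁻ ξ, ‖extn a ξ‖ₑ ^ p) + 2⁻¹ * (∫⁻ ξ, ‖extn b ξ‖ₑ ^ p) := by
        rw [lintegral_add_left (((measurable_extn _ ham).enorm.pow_const _).const_mul _),
          lintegral_const_mul _ ((measurable_extn _ ham).enorm.pow_const _),
          lintegral_const_mul _ ((measurable_extn _ hbm).enorm.pow_const _)]
    _ ≤ 2⁻¹ * C + 2⁻¹ * C := add_le_add (mul_le_mul_right h1 _) (mul_le_mul_right h2 _)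
    _ = C := by
        rw [← add_mul, ENNReal.inv_two_add_inv_two, one_mul]

/-- **Stein's conjecture in `R^n` at the exponent `p` is a bound for the phases given by formulas which
does not depend on the length of the formula.** -/
theorem formula_stein (hn : 2 ≤ n) {p : ℝ} (hp : 1 ≤ p) :
    (∀ g : E n → ℂ, Measurable g → (∀ x, ‖g x‖ ≤ 1) → ∫⁻ ξ, ‖extn g ξ‖ₑ ^ p < ∞) ↔
    ∃ C : ℝ≥0∞, C ≠ ∞ ∧ ∀ (k : ℕ) (ψ : E n → ℝ), HasFormula n k ψ →
      ∫⁻ ξ, ‖extn (fun x => Complex.exp ((ψ x : ℂ) * Complex.I)) ξ‖ₑ ^ p ≤ C := by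
  have he : ‖(EuclideanSpace.single (⟨0, by omega⟩ : Fin n) (1 : ℝ))‖ = 1 := by simp
  obtain ⟨_, _, _, _, _, _, h⟩ := Pool.Agent.VAN.PD.equiv_poly hn _ he
  have h1 : (∀ g : E n → ℂ, Measurable g → (∀ x, ‖g x‖ ≤ 1) → ∫⁻ ξ, ‖extn g ξ‖ₑ ^ p < ∞) ↔
      ∃ C : ℝ≥0∞, C ≠ ∞ ∧ ∀ g : E n → ℂ, Measurable g → (∀ x, ‖g x‖ ≤ 1) →
        ∫⁻ ξ, ‖extn g ξ‖ₑ ^ p ≤ C := (h p hp).out 0 1
  rw [h1]
  exact exists_congr fun C => and_congr_right fun _ => formula_density hp C

end Pool.Agent.VANn.RAT
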