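import Pool.Agent.RAT.PW0
import Pool.Agent.RAT.FHS

/-!
One constant for all piecewise rational phases of bounded complexity.
-/

set_option autoImplicit false

namespace Pool.Agent.VANn.RAT

open MeasureTheory Set MvPolynomial Pool.Agent.MP_6cbfb8_an Pool.Agent.VANn.TM Filter Topology
open Pool.Agent.GNP (BVn BN2)
open scoped ENNReal Real ContDiff RealInnerProductSpace

variable {n : ℕ}

/-- The estimate on one sign cell. -/
theorem rational_cell {m : ℕ} (hm : 2 ≤ m) {s : ℝ} (hs : (m : ℝ) / (m + 1) < s) (V : ℝ) (D N : ℕ)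
    (p : ℝ) (hp : 2 * ((m : ℝ) + 1) / m < p) : ∃ C : ℝ≥0∞, C ≠ ⊤ ∧
    ∀ P Q : MvPolynomial (Fin (m + 1)) ℝ, P.totalDegree ≤ D → Q.totalDegree ≤ D →
      ∀ w : E (m + 1) → ℂ, Amp (m + 1) s V w → ∀ q : Fin N → MvPolynomial (Fin (m + 1)) ℝ,
      (∀ i, (q i).totalDegree ≤ D) → ∀ b : Fin N → Bool,
      ∫⁻ ξ, ‖extn (fun x => ((bc q b x : ℝ) : ℂ) * w x *
        Complex.exp (((ev P x / ev Q x : ℝ) : ℂ) * Complex.I)) ξ‖ₑ ^ p ≤ C := by
  have hm0 : (0 : ℝ) < m := by exact_mod_cast (by omega : 0 < m)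
  have hn : 2 ≤ m + 1 := by omega
  have hp0 : 1 ≤ 2 * ((m : ℝ) + 1) / m := by
    rw [le_div_iff₀ hm0]
    linarith
  have hs0 : 0 < min s 1 := lt_min (lt_trans (by positivity) hs) one_pos
  obtain ⟨V1, V2, hV1, hV2, hred⟩ := hs_red (m := m) (by omega) hs V
  obtain ⟨κ, W, hκ, hW, hbc⟩ := bc_bv hn D N
  obtain ⟨K, hK, hmono⟩ := bv_mono (m + 1) hn
  obtain ⟨r, hr⟩ : ∃ r : ℝ, r = min (min s 1 / 2) κ := ⟨_, rfl⟩
  have hr0 : 0 < r := by rw [hr]; exact lt_min (by positivity) hκ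
  have hr1 : r ≤ 1 := by
    have h1 := min_le_left (min s 1 / 2) κ
    have h2 := min_le_right s 1
    rw [hr]
    linarith
  have hA : ∀ a : E (m + 1) → ℂ, Amp (m + 1) s V a → Measurable a ∧ ∀ x, ‖a x‖ ≤ 1 :=
    fun a ha => ⟨ha.1, ha.2.1⟩
  have hV20 : 0 ≤ V2 := by linarith
  obtain ⟨C, hC, h⟩ := rational_of_cls hm (cls := Cut (m + 1) D N (Amp (m + 1) s V)) (s := r)
    (V := (W + K) + (V2 + K)) hr0 hr1 (by linarith)
    (fun a ⟨w, q, b, hw, hq, ha⟩ => by
      have hbm : Measurable fun x : E (m + 1) => ((bc q b x : ℝ) : ℂ) :=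
        Complex.measurable_ofReal.comp (measurable_bc q b)
      refine ⟨?_, ?_, ?_⟩
      · rw [ha]
        exact hbm.mul hw.1
      · intro x
        rw [ha, norm_mul]
        exact mul_le_one₀ (bc_norm q b x) (norm_nonneg _) (hw.2.1 x)
      · rw [ha]
        exact bv_mul (by linarith) (by linarith) hbm (bc_norm q b) hw.2.1
          (hmono κ r W _ hW hr0.le (by rw [hr]; exact min_le_right _ _) (bc_norm q b) (hbc q hq b))
          (hmono (min s 1 / 2) r V2 w hV20 hr0.le (by rw [hr]; exact min_le_left _ _) hw.2.1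
            (hred w hw.2.1 hw.2.2).2))
    (baseA_cut hp0 hA (baseA_hs hm hs V) D N) D p hp
    (sub_unif (by omega) D) (normal (by omega) D)
    (fun c hc => decay_rat (by omega) (D + 1) c hc)
    (fun η hη => tame_rat_of (sub_unif (by omega) (D + 1)) η hη)
  refine ⟨C, hC, fun P Q hP hQ w hw q hq b => ?_⟩
  by_cases h0 : ∃ x : E (m + 1), ‖x‖ = 1 ∧ ev Q x ≠ 0
  · exact h P Q hP hQ h0 _ ⟨w, q, b, hw, hq, rfl⟩
  push Not at h0
  have h1 := h 0 1 (by simp) (by simp) ⟨EuclideanSpace.single 0 1, by simp, by simp [ev]⟩ _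
    ⟨w, q, b, hw, hq, rfl⟩
  have e : extn (fun x => ((bc q b x : ℝ) : ℂ) * w x *
      Complex.exp (((ev P x / ev Q x : ℝ) : ℂ) * Complex.I)) =
      extn (fun x => ((bc q b x : ℝ) : ℂ) * w x *
      Complex.exp (((ev (0 : MvPolynomial (Fin (m + 1)) ℝ) x /
        ev (1 : MvPolynomial (Fin (m + 1)) ℝ) x : ℝ) : ℂ) * Complex.I)) := by
    funext ξ
    refine f_extn_ae (Eventually.of_forall fun x => ?_) ξ
    have h2 : ev Q (x : E (m + 1)) = 0 := h0 x (by simp)
    have h3 : ev (0 : MvPolynomial (Fin (m + 1)) ℝ) (x : E (m + 1)) = 0 := by simp [ev]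
    simp only [h2, h3, div_zero, zero_div]
  rw [e]
  exact h1

/-- The sign pattern. -/
noncomputable def cell {N : ℕ} (R : Fin N → MvPolynomial (Fin n) ℝ) (x : E n) : Fin N → Bool :=
  fun i => decide (0 < ev (R i) x)

theorem bc_cell {N : ℕ} (R : Fin N → MvPolynomial (Fin n) ℝ) (b : Fin N → Bool) (x : E n) :
    bc R b x = if b = cell R x then 1 else 0 := by
  by_cases h : b = cell R x
  · rw [if_pos h]
    unfold bc
    refine Finset.prod_eq_one fun i _ => ?_
    have h1 : b i = decide (0 < ev (R i) x) := congrFun h i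
    by_cases h2 : 0 < ev (R i) x
    · rw [h1]
      simp [h2]
    · rw [h1]
      simp [h2]
  · rw [if_neg h]
    obtain ⟨i, hi⟩ : ∃ i, b i ≠ cell R x i := by
      by_contra h3
      push Not at h3
      exact h (funext h3)
    unfold bc
    refine Finset.prod_eq_zero (Finset.mem_univ i) ?_
    unfold cell at hi
    by_cases h2 : 0 < ev (R i) x
    · have h4 : b i = false := by
        simpa [h2] using hi
      simp [h4, h2]
    · have h4 : b i = true := by
        simpa [h2] using hi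
      simp [h4, h2]

/-- **One constant for all piecewise rational phases of bounded complexity.** -/
theorem piecewise_hs {m : ℕ} (hm : 2 ≤ m) {s : ℝ} (hs : (m : ℝ) / (m + 1) < s) (V : ℝ) (D N : ℕ)
    (p : ℝ) (hp : 2 * ((m : ℝ) + 1) / m < p) : ∃ C : ℝ≥0∞, C ≠ ⊤ ∧
    ∀ (R : Fin N → MvPolynomial (Fin (m + 1)) ℝ)
      (P Q : (Fin N → Bool) → MvPolynomial (Fin (m + 1)) ℝ) (w : (Fin N → Bool) → E (m + 1) → ℂ),
      (∀ i, (R i).totalDegree ≤ D) → (∀ σ, (P σ).totalDegree ≤ D) → (∀ σ, (Q σ).totalDegree ≤ D) →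
      (∀ σ, Amp (m + 1) s V (w σ)) → ∀ g : E (m + 1) → ℂ,
      (∀ x, ‖x‖ = 1 → g x = w (cell R x) x *
        Complex.exp (((ev (P (cell R x)) x / ev (Q (cell R x)) x : ℝ) : ℂ) * Complex.I)) →
      ∫⁻ ξ, ‖extn g ξ‖ₑ ^ p ≤ C := by
  classical
  have hm0 : (0 : ℝ) < m := by exact_mod_cast (by omega : 0 < m)
  have hp1 : 1 ≤ p := by
    refine le_trans ?_ hp.le
    rw [le_div_iff₀ hm0]
    linarith
  have hp0 : 0 < p := by linarith
  obtain ⟨C, hC, h⟩ := rational_cell hm hs V D N p hp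
  refine ⟨(((Finset.univ : Finset (Fin N → Bool)).card : ℝ≥0∞) * C ^ (1 / p)) ^ p,
    ENNReal.rpow_ne_top_of_nonneg hp0.le (ENNReal.mul_ne_top (ENNReal.natCast_ne_top _)
      (ENNReal.rpow_ne_top_of_nonneg (by positivity) hC)), ?_⟩
  intro R P Q w hR hP hQ hw g hg
  have h1 := eLp_fsum' (Finset.univ : Finset (Fin N → Bool)) (fun _ => (1:ℂ)) (fun _ _ => by simp)
    (fun σ x => ((bc R σ x : ℝ) : ℂ) * w σ x *
      Complex.exp (((ev (P σ) x / ev (Q σ) x : ℝ) : ℂ) * Complex.I))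
    (fun σ => ((Complex.measurable_ofReal.comp (measurable_bc R σ)).mul (hw σ).1).mul
      (Complex.measurable_exp.comp ((Complex.measurable_ofReal.comp
        ((measurable_ev (P σ)).div (measurable_ev (Q σ)))).mul_const _)))
    (fun σ x => by
      rw [norm_mul, Complex.norm_exp_ofReal_mul_I, mul_one, norm_mul]
      exact mul_le_one₀ (bc_norm R σ x) (norm_nonneg _) ((hw σ).2.1 x))
    (p := p) hp1 (C := C) (fun σ _ => h (P σ) (Q σ) (hP σ) (hQ σ) (w σ) (hw σ) R hR σ)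
  have h2 : extn (fun x => ∑ σ : Fin N → Bool, (fun _ => (1:ℂ)) σ * (((bc R σ x : ℝ) : ℂ) * w σ x *
      Complex.exp (((ev (P σ) x / ev (Q σ) x : ℝ) : ℂ) * Complex.I))) = extn g := by
    funext ξ
    refine f_extn_ae (Eventually.of_forall fun x => ?_) ξ
    rw [hg x (by simp)]
    rw [Finset.sum_eq_single (cell R (x : E (m + 1)))]
    · rw [bc_cell, if_pos rfl]
      simp
    · intro σ _ hσ
      rw [bc_cell, if_neg hσ]
      simp
    · intro h3
      exact absurd (Finset.mem_univ _) h3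
  rw [h2] at h1
  have h3 := ENNReal.rpow_le_rpow h1 hp0.le
  unfold eLpNorm' at h3
  rw [← ENNReal.rpow_mul, one_div_mul_cancel hp0.ne', ENNReal.rpow_one] at h3
  exact h3

end Pool.Agent.VANn.RAT
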