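import Pool.Agent.RAT.F
import Pool.Agent.GNP.WBV
import Pool.Agent.GNP.HSWa

/-!
Sign cells of polynomials of bounded degree: they have an `L¹`-modulus of continuity of some positive
order, with one constant, and they may be added to the cuts of the basic estimate.
-/

set_option autoImplicit false

namespace Pool.Agent.VANn.RAT

open MeasureTheory Set MvPolynomial Pool.Agent.MP_6cbfb8_an Pool.Agent.VANn.TM Filter Topology
open Pool.Agent.GNP (BVn wb_cap hs_meas_ball)
open scoped ENNReal Real ContDiff RealInnerProductSpace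

variable {n : ℕ}

/-- A Lipschitz bound on the sphere, with one constant for all polynomials of bounded degree. -/
theorem pw_lip (D : ℕ) : ∃ C : ℝ, 0 < C ∧ ∀ P : MvPolynomial (Fin n) ℝ,
    P.totalDegree ≤ D → ∀ M : ℝ, Bd M P → ∀ x y : E n, ‖x‖ = 1 → ‖y‖ = 1 →
      |ev P x - ev P y| ≤ C * M * ‖x - y‖ := by
  obtain ⟨k, ψ, hind, hbas⟩ := sm_basis n D
  have hcs : CompactSpace (Metric.sphere (0 : E n) 1) :=
    isCompact_iff_compactSpace.1 (isCompact_sphere (0 : E n) 1)
  let T : (Fin k → ℝ) →ₗ[ℝ] C(Metric.sphere (0 : E n) 1, ℝ) :=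
    { toFun := fun b => ⟨fun x => ∑ l, b l * ev (ψ l) (x : E n),
        continuous_finsetSum _ fun l _ => continuous_const.mul
          ((sm_ev_contDiff (ψ l)).continuous.comp continuous_subtype_val)⟩
      map_add' := by
        intro b c
        ext x
        simp [add_mul, Finset.sum_add_distrib]
      map_smul' := by
        intro r b
        ext x
        simp [mul_assoc, Finset.mul_sum] }
  have hker : LinearMap.ker T = ⊥ := by
    rw [LinearMap.ker_eq_bot']
    intro b hb
    refine hind b fun x hx => ?_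
    have := congrArg (fun g : C(Metric.sphere (0 : E n) 1, ℝ) => g ⟨x, by simpa using hx⟩) hb
    simpa [T] using this
  obtain ⟨K, hKpos, hK⟩ := T.exists_antilipschitzWith hker
  have hz : ∀ l : Fin k, ∃ L : ℝ, 0 ≤ L ∧ ∀ x y : E n, ‖x‖ = 1 → ‖y‖ = 1 →
      |ev (ψ l) x - ev (ψ l) y| ≤ L * ‖x - y‖ := by
    intro l
    have hc1 : ContDiff ℝ 1 (ev (ψ l)) := (sm_ev_contDiff (ψ l)).of_le (by exact_mod_cast le_top)
    obtain ⟨L, hL⟩ := (isCompact_closedBall (0 : E n) 1).exists_bound_of_continuousOn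
      (hc1.continuous_fderiv (by norm_num)).continuousOn
    refine ⟨|L|, abs_nonneg _, fun x y hx hy => ?_⟩
    have h1 := (convex_closedBall (0 : E n) 1).norm_image_sub_le_of_norm_fderiv_le
      (f := ev (ψ l)) (C := |L|) (fun z _ => (hc1.differentiable (by norm_num)) z)
      (fun z hz => (hL z hz).trans (le_abs_self _)) (x := y) (y := x)
      (by simp [hy]) (by simp [hx])
    simpa using h1
  choose L hL0 hL using hz
  set C1 : ℝ := 1 + ∑ l, L l with hC1
  have hC10 : 0 < C1 := by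
    have : 0 ≤ ∑ l, L l := Finset.sum_nonneg fun l _ => hL0 l
    linarith
  refine ⟨C1 * K, by positivity, fun P hP M hM x y hx hy => ?_⟩
  have hM0 : 0 ≤ M := (abs_nonneg _).trans (hM x hx)
  obtain ⟨b, hb⟩ := hbas P hP
  have hbn : ‖b‖ ≤ K * M := by
    have h1 : ‖b‖ ≤ K * ‖T b‖ := by
      have := hK.le_mul_dist b 0
      rwa [map_zero, dist_zero_right, dist_zero_right] at this
    refine h1.trans (mul_le_mul_of_nonneg_left ?_ K.2)
    rw [ContinuousMap.norm_le _ hM0]
    intro y
    have hy : ‖(y : E n)‖ = 1 := by simp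
    have h2 := hM y hy
    rw [hb y hy] at h2
    simpa [T] using h2
  rw [hb x hx, hb y hy, ← Finset.sum_sub_distrib]
  refine (Finset.abs_sum_le_sum_abs _ _).trans ?_
  have hxy := norm_nonneg (x - y)
  calc ∑ l, |b l * ev (ψ l) x - b l * ev (ψ l) y| ≤ ∑ l, ‖b‖ * (L l * ‖x - y‖) := by
        refine Finset.sum_le_sum fun l _ => ?_
        rw [← mul_sub, abs_mul]
        exact mul_le_mul (by simpa using norm_le_pi_norm b l) (hL l x y hx hy) (abs_nonneg _)
          (norm_nonneg _)
    _ = ‖b‖ * ((∑ l, L l) * ‖x - y‖) := by rw [← Finset.mul_sum, Finset.sum_mul]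
    _ ≤ (K * M) * (C1 * ‖x - y‖) := by
        refine mul_le_mul hbn ?_ (mul_nonneg (Finset.sum_nonneg fun l _ => hL0 l) hxy)
          (mul_nonneg K.2 hM0)
        refine mul_le_mul_of_nonneg_right ?_ hxy
        rw [hC1]
        linarith
    _ = C1 * K * M * ‖x - y‖ := by ring

/-- The factor of a sign cell. -/
noncomputable def uf (R : MvPolynomial (Fin n) ℝ) (b : Bool) (x : E n) : ℂ :=
  if b then (if 0 < ev R x then 1 else 0) else (if 0 < ev R x then 0 else 1)

theorem uf_cases (R : MvPolynomial (Fin n) ℝ) (b : Bool) (x : E n) : uf R b x = 0 ∨ uf R b x = 1 := by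
  unfold uf
  split_ifs <;> simp

theorem uf_norm (R : MvPolynomial (Fin n) ℝ) (b : Bool) (x : E n) : ‖uf R b x‖ ≤ 1 := by
  rcases uf_cases R b x with h | h <;> rw [h] <;> simp

theorem measurable_uf (R : MvPolynomial (Fin n) ℝ) (b : Bool) : Measurable (uf R b) := by
  have h1 : MeasurableSet {x : E n | 0 < ev R x} := measurableSet_lt measurable_const (measurable_ev R)
  unfold uf
  cases b
  · simp only [Bool.false_eq_true, if_false]
    exact Measurable.ite h1 measurable_const measurable_const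
  · simp only [if_true]
    exact Measurable.ite h1 measurable_const measurable_const

theorem uf_eq_of_far {R : MvPolynomial (Fin n) ℝ} {b : Bool} {x y : E n}
    (h : |ev R x - ev R y| < |ev R x|) : uf R b x = uf R b y := by
  unfold uf
  have h1 : (0 < ev R x) ↔ (0 < ev R y) := by
    constructor
    · intro h0
      by_contra h2
      rw [abs_of_pos h0] at h
      have := le_abs_self (ev R x - ev R y)
      linarith
    · intro h0
      by_contra h2
      rw [abs_of_nonpos (not_lt.1 h2)] at h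
      have := neg_abs_le (ev R x - ev R y)
      linarith
  by_cases h3 : 0 < ev R x
  · rw [if_pos h3, if_pos h3, if_pos (h1.1 h3), if_pos (h1.1 h3)]
  · rw [if_neg h3, if_neg h3, if_neg (fun h4 => h3 (h1.2 h4)), if_neg (fun h4 => h3 (h1.2 h4))]

/-- One factor: modulus of continuity. -/
theorem uf_bv (hn : 2 ≤ n) (D : ℕ) : ∃ κ V : ℝ, 0 < κ ∧ 0 ≤ V ∧ ∀ R : MvPolynomial (Fin n) ℝ,
    R.totalDegree ≤ D → ∀ b : Bool, BVn n κ V (uf R b) := by
  obtain ⟨M, κ, hM, hκ, hS⟩ := sub_unif hn D
  obtain ⟨C, hC, hL⟩ := pw_lip (n := n) D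
  obtain ⟨K, hK, hcap⟩ := wb_cap n hn
  refine ⟨κ, K * (M * C ^ κ), hκ, by positivity, fun R hR b r hr => ?_⟩
  by_cases h0 : ∀ x : E n, ‖x‖ = 1 → ev R x = 0
  · have h1 : ∀ x y : S n, ‖uf R b x - uf R b y‖ₑ = 0 := by
      intro x y
      have hx : ev R (x : E n) = 0 := h0 x (by simp)
      have hy : ev R (y : E n) = 0 := h0 y (by simp)
      unfold uf
      rw [hx, hy, sub_self, enorm_zero]
    simp [h1]
  push Not at h0
  obtain ⟨x0, hx0, hR0⟩ := h0
  obtain ⟨x1, hx1, hmax⟩ := (isCompact_sphere (0 : E n) 1).exists_isMaxOn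
    ⟨x0, by simpa using hx0⟩ (f := fun x => |ev R x|) (f_cont_ev R).abs.continuousOn
  have hx1' : ‖x1‖ = 1 := by simpa using hx1
  have hq0 : 0 < |ev R x1| := by
    have h1 : |ev R x0| ≤ |ev R x1| := hmax (by simpa using hx0 : x0 ∈ Metric.sphere (0 : E n) 1)
    exact lt_of_lt_of_le (abs_pos.2 hR0) h1
  have hBd : Bd |ev R x1| R := fun x hx => hmax (by simpa using hx : x ∈ Metric.sphere (0 : E n) 1)
  set A : Set (S n) := {x : S n | |ev R x| ≤ (C * r) * |ev R x1|} with hA
  have hAm : MeasurableSet A :=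
    measurableSet_le ((measurable_ev R).comp measurable_subtype_coe).abs measurable_const
  have h2 : ∀ x y : S n, y ∈ Metric.closedBall x r → ‖uf R b x - uf R b y‖ₑ ≤ A.indicator 1 x := by
    intro x y hy
    by_cases hxA : x ∈ A
    · rw [indicator_of_mem hxA, Pi.one_apply]
      rcases uf_cases R b x with h3 | h3 <;> rcases uf_cases R b y with h4 | h4 <;>
        rw [h3, h4] <;> simp
    · have h3 : uf R b x = uf R b y := by
        apply uf_eq_of_far
        have h4 := hL R hR _ hBd x y (by simp) (by simp)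
        have h5 : ‖(x : E n) - y‖ ≤ r := by
          have : dist y x ≤ r := hy
          rwa [Subtype.dist_eq, dist_comm, dist_eq_norm] at this
        have h6 : (C * r) * |ev R x1| < |ev R x| := by
          simpa [hA] using hxA
        refine lt_of_le_of_lt (h4.trans ?_) h6
        calc C * |ev R x1| * ‖(x : E n) - y‖ ≤ C * |ev R x1| * r := by gcongr
          _ = C * r * |ev R x1| := by ring
      rw [h3, sub_self, enorm_zero]
      exact zero_le
  calc ∫⁻ x : S n, (∫⁻ y in Metric.closedBall x r, ‖uf R b x - uf R b y‖ₑ ∂(sm n)) ∂(sm n)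
      ≤ ∫⁻ x : S n, (∫⁻ _y in Metric.closedBall x r, A.indicator 1 x ∂(sm n)) ∂(sm n) :=
        lintegral_mono fun x => setLIntegral_mono measurable_const fun y hy => h2 x y hy
    _ ≤ ∫⁻ x : S n, A.indicator 1 x * ENNReal.ofReal (K * r ^ (n - 1)) ∂(sm n) := by
        refine lintegral_mono fun x => ?_
        simp only
        rw [setLIntegral_const]
        gcongr
        exact hcap x r hr.le
    _ = sm n A * ENNReal.ofReal (K * r ^ (n - 1)) := by
        rw [lintegral_mul_const _ (measurable_one.indicator hAm), lintegral_indicator_one hAm]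
    _ ≤ ENNReal.ofReal (M * (C * r) ^ κ) * ENNReal.ofReal (K * r ^ (n - 1)) := by
        gcongr
        exact hS R hR x1 hx1' (abs_pos.1 hq0) (C * r) (by positivity)
    _ = ENNReal.ofReal (K * (M * C ^ κ) * r ^ ((n : ℝ) - 1 + κ)) := by
        rw [← ENNReal.ofReal_mul (by positivity)]
        congr 1
        rw [Real.mul_rpow hC.le hr.le, Real.rpow_add hr, ← Real.rpow_natCast r (n - 1),
          Nat.cast_sub (by omega), Nat.cast_one]
        ring

/-- A larger order is a smaller class. -/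
theorem bv_mono (n : ℕ) (hn : 2 ≤ n) : ∃ K : ℝ, 0 ≤ K ∧ ∀ (s s' V : ℝ) (a : E n → ℂ), 0 ≤ V →
    0 ≤ s' → s' ≤ s → (∀ x, ‖a x‖ ≤ 1) → BVn n s V a → BVn n s' (V + K) a := by
  set M : ℝ := (sm n univ).toReal with hM
  have hfin : sm n univ ≠ ⊤ := measure_ne_top _ _
  have hM0 : 0 ≤ M := ENNReal.toReal_nonneg
  have hn1 : (1 : ℝ) ≤ (n : ℝ) := by exact_mod_cast (by omega : 1 ≤ n)
  refine ⟨2 * M * M, by positivity, fun s s' V a hV hs' hss ha h r hr => ?_⟩
  rcases le_total r 1 with hr1 | hr1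
  · refine (h r hr).trans (ENNReal.ofReal_le_ofReal ?_)
    have h1 : r ^ ((n : ℝ) - 1 + s) ≤ r ^ ((n : ℝ) - 1 + s') :=
      Real.rpow_le_rpow_of_exponent_ge hr hr1 (by linarith)
    calc V * r ^ ((n : ℝ) - 1 + s) ≤ V * r ^ ((n : ℝ) - 1 + s') :=
          mul_le_mul_of_nonneg_left h1 hV
      _ ≤ (V + 2 * M * M) * r ^ ((n : ℝ) - 1 + s') := by
          refine mul_le_mul_of_nonneg_right ?_ (by positivity)
          have : 0 ≤ 2 * M * M := by positivity
          linarith
  · have h1 : ∀ x y : S n, ‖a x - a y‖ₑ ≤ ENNReal.ofReal 2 := by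
      intro x y
      rw [← ofReal_norm]
      apply ENNReal.ofReal_le_ofReal
      refine (norm_sub_le _ _).trans ?_
      linarith [ha x, ha y]
    calc ∫⁻ x : S n, (∫⁻ y in Metric.closedBall x r, ‖a x - a y‖ₑ ∂(sm n)) ∂(sm n)
        ≤ ∫⁻ _x : S n, (∫⁻ _y : S n, ENNReal.ofReal 2 ∂(sm n)) ∂(sm n) :=
          lintegral_mono fun x => (setLIntegral_le_lintegral _ _).trans (lintegral_mono (h1 x))
      _ = ENNReal.ofReal (2 * M * M) := by
          rw [lintegral_const, lintegral_const, ENNReal.ofReal_mul (by positivity),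
            ENNReal.ofReal_mul (by positivity), hM, ENNReal.ofReal_toReal hfin]
      _ ≤ _ := by
          apply ENNReal.ofReal_le_ofReal
          have h3 : 1 ≤ r ^ ((n : ℝ) - 1 + s') := Real.one_le_rpow hr1 (by linarith)
          have h4 : 0 ≤ 2 * M * M := by positivity
          nlinarith

/-- Products. -/
theorem bv_mul {s V1 V2 : ℝ} {a b : E n → ℂ} (hV1 : 0 ≤ V1) (hV2 : 0 ≤ V2) (ham : Measurable a)
    (ha : ∀ x, ‖a x‖ ≤ 1) (hb : ∀ x, ‖b x‖ ≤ 1) (h1 : BVn n s V1 a) (h2 : BVn n s V2 b) :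
    BVn n s (V1 + V2) fun x => a x * b x := by
  intro r hr
  have key : ∀ x y : S n, ‖a x * b x - a y * b y‖ₑ ≤ ‖a x - a y‖ₑ + ‖b x - b y‖ₑ := by
    intro x y
    rw [← ofReal_norm, ← ofReal_norm, ← ofReal_norm,
      ← ENNReal.ofReal_add (norm_nonneg _) (norm_nonneg _)]
    apply ENNReal.ofReal_le_ofReal
    have h3 : a x * b x - a y * b y = (a x - a y) * b x + a y * (b x - b y) := by ring
    rw [h3]
    refine (norm_add_le _ _).trans ?_
    rw [norm_mul, norm_mul]
    exact add_le_add (mul_le_of_le_one_right (norm_nonneg _) (hb x))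
      (mul_le_of_le_one_left (norm_nonneg _) (ha y))
  have hm1 : Measurable (Function.uncurry fun x y : S n => ‖a x - a y‖ₑ) := by
    unfold Function.uncurry
    exact ((ham.comp (measurable_subtype_coe.comp measurable_fst)).sub
      (ham.comp (measurable_subtype_coe.comp measurable_snd))).enorm
  calc ∫⁻ x : S n, (∫⁻ y in Metric.closedBall x r, ‖a x * b x - a y * b y‖ₑ ∂(sm n)) ∂(sm n)
      ≤ ∫⁻ x : S n, ((∫⁻ y in Metric.closedBall x r, ‖a x - a y‖ₑ ∂(sm n)) +
          ∫⁻ y in Metric.closedBall x r, ‖b x - b y‖ₑ ∂(sm n)) ∂(sm n) := by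
        refine lintegral_mono fun x => ?_
        have hm2 : Measurable fun y : S n => ‖a x - a y‖ₑ :=
          (measurable_const.sub (ham.comp measurable_subtype_coe)).enorm
        simp only
        rw [← lintegral_add_left hm2]
        exact lintegral_mono fun y => key x y
    _ = (∫⁻ x : S n, (∫⁻ y in Metric.closedBall x r, ‖a x - a y‖ₑ ∂(sm n)) ∂(sm n)) +
          ∫⁻ x : S n, (∫⁻ y in Metric.closedBall x r, ‖b x - b y‖ₑ ∂(sm n)) ∂(sm n) :=
        lintegral_add_left (hs_meas_ball hm1 r) _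
    _ ≤ ENNReal.ofReal (V1 * r ^ ((n : ℝ) - 1 + s)) + ENNReal.ofReal (V2 * r ^ ((n : ℝ) - 1 + s)) :=
        add_le_add (h1 r hr) (h2 r hr)
    _ = ENNReal.ofReal ((V1 + V2) * r ^ ((n : ℝ) - 1 + s)) := by
        rw [← ENNReal.ofReal_add (by positivity) (by positivity)]
        congr 1
        ring

theorem bc_eq_uf {N : ℕ} (q : Fin N → MvPolynomial (Fin n) ℝ) (b : Fin N → Bool) (x : E n) :
    ((bc q b x : ℝ) : ℂ) = ∏ i, uf (q i) (b i) x := by
  unfold bc uf
  push_cast
  refine Finset.prod_congr rfl fun i _ => ?_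
  split_ifs <;> simp

/-- Sign cells. -/
theorem bc_bv (hn : 2 ≤ n) (D N : ℕ) : ∃ κ V : ℝ, 0 < κ ∧ 0 ≤ V ∧
    ∀ q : Fin N → MvPolynomial (Fin n) ℝ, (∀ i, (q i).totalDegree ≤ D) → ∀ b : Fin N → Bool,
      BVn n κ V fun x => ((bc q b x : ℝ) : ℂ) := by
  obtain ⟨κ, V, hκ, hV, h⟩ := uf_bv hn D
  refine ⟨κ, N * V, hκ, by positivity, fun q hq b => ?_⟩
  have h1 : ∀ s : Finset (Fin N), BVn n κ (s.card * V) (fun x => ∏ i ∈ s, uf (q i) (b i) x) ∧
      Measurable (fun x : E n => ∏ i ∈ s, uf (q i) (b i) x) ∧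
      ∀ x : E n, ‖∏ i ∈ s, uf (q i) (b i) x‖ ≤ 1 := by
    intro s
    induction s using Finset.induction_on with
    | empty =>
      refine ⟨fun r hr => ?_, by simp, by simp⟩
      simp
    | insert i s hi ih =>
      obtain ⟨h2, h3, h4⟩ := ih
      simp only [Finset.prod_insert hi, Finset.card_insert_of_notMem hi]
      refine ⟨?_, (measurable_uf _ _).mul h3, fun x => ?_⟩
      · have h5 := bv_mul hV (by positivity) (measurable_uf (q i) (b i)) (uf_norm _ _) h4
          (h (q i) (hq i) (b i)) h2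
        have e : V + s.card * V = ((s.card + 1 : ℕ) : ℝ) * V := by push_cast; ring
        rw [e] at h5
        exact h5
      · rw [norm_mul]
        exact mul_le_one₀ (uf_norm _ _ _) (norm_nonneg _) (h4 x)
  have h2 := (h1 Finset.univ).1
  simp only [Finset.card_univ, Fintype.card_fin] at h2
  have e : (fun x : E n => ((bc q b x : ℝ) : ℂ)) = fun x => ∏ i, uf (q i) (b i) x :=
    funext fun x => bc_eq_uf q b x
  rw [e]
  exact h2

/-- The amplitudes of a class, cut by sign cells. -/
def Cut (n D N : ℕ) (cls : (E n → ℂ) → Prop) (a : E n → ℂ) : Prop :=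
  ∃ (w : E n → ℂ) (q : Fin N → MvPolynomial (Fin n) ℝ) (b : Fin N → Bool), cls w ∧
    (∀ i, (q i).totalDegree ≤ D) ∧ a = fun x => ((bc q b x : ℝ) : ℂ) * w x

theorem bc_norm {N : ℕ} (q : Fin N → MvPolynomial (Fin n) ℝ) (b : Fin N → Bool) (x : E n) :
    ‖((bc q b x : ℝ) : ℂ)‖ ≤ 1 := by
  rw [Complex.norm_real, Real.norm_of_nonneg (bc_nonneg q b x)]
  exact bc_le_one q b x

theorem baseA_cut {p0 : ℝ} (hp0 : 1 ≤ p0) {cls : (E n → ℂ) → Prop}
    (hcls : ∀ a, cls a → Measurable a ∧ ∀ x, ‖a x‖ ≤ 1) (hB : BaseA n p0 cls) (D N : ℕ) :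
    BaseA n p0 (Cut n D N cls) := by
  intro D' N' p hp
  obtain ⟨C, hC, h⟩ := bc_bound_amp hp0 hcls hB (max D D') (N + N') p hp
  refine ⟨C, hC, fun a ⟨w, q, b, hw, hq, ha⟩ P Q hP hQ => ?_⟩
  have h1 := h w hw P (Fin.append q Q) (Fin.append b fun _ => true) (hP.trans (le_max_right _ _))
    (fun i => by
      refine Fin.addCases (fun j => ?_) (fun j => ?_) i
      · rw [Fin.append_left]
        exact (hq j).trans (le_max_left _ _)
      · rw [Fin.append_right]
        exact (hQ j).trans (le_max_right _ _))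
  have e : (fun x => a x * pol P Q x) = fun x => w x *
      (((bc (Fin.append q Q) (Fin.append b fun _ => true) x : ℝ) : ℂ) * pex P x) := by
    funext x
    have h2 : bc (Fin.append q Q) (Fin.append b fun _ => true) x =
        bc q b x * ∏ j, if 0 < ev (Q j) x then 1 else 0 := by
      unfold bc
      rw [Fin.prod_univ_add]
      simp only [Fin.append_left, Fin.append_right, if_true]
    rw [h2, ha]
    unfold pol pex ev
    push_cast
    have h3 : (∏ j, ((if 0 < eval (fun i => x i) (Q j) then (1:ℝ) else 0 : ℝ) : ℂ)) =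
        ∏ j, if 0 < eval (fun i => x i) (Q j) then (1:ℂ) else 0 :=
      Finset.prod_congr rfl fun j _ => by split_ifs <;> simp
    rw [h3]
    ring
  rw [e]
  exact h1

end Pool.Agent.VANn.RAT
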